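import Pool.Agent.W_c0up_h86.C2

/-!
# MP_c0ce05_co, upper bounds: the counting lemma (B4'), final form

`count_disc`: with `f = |A \ hub|`, `G` = generators, `H = A ∩ hub`, `g0` = number of small
generators: (number of fine pairs of `A` whose partner is inside `A`) `+ C(g0, 2) ≤
C(f, 2) + |G| |H| +` (number of exceptional ordered pairs outside the hub), and
`(k + 1) |G| ≤ (k + 1) g0 + |A|`.
`prt_sum_le`: the sum over the steps of the numbers of discounts is at most this number.
-/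

set_option autoImplicit false

namespace C0st

open scoped Classical
open C0lo

variable {N r : ℕ}

theorem fine_split {lv : ℕ → ℕ} {s : St N r} {A : Finset (Fin N)} {e : Sym2 (Fin N)}
    (he : e ∈ ed A) (hf : Fine lv s A e) (hn : e ∉ ed (A \ Vs lv s 0)) :
    ∃ g ∈ Ge lv s A, ∃ h ∈ A ∩ Vs lv s 0, e = s(g, h) := by
  rw [mem_ed] at he
  obtain ⟨⟨y, hy, hyV⟩, h2⟩ := hf
  have h3 : ∃ h ∈ e, h ∈ Vs lv s 0 := by
    by_contra hcon
    push Not at hcon
    refine hn (mem_ed.2 ⟨fun v hv => Finset.mem_sdiff.2 ⟨he.1 v hv, hcon v hv⟩, he.2⟩)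
  obtain ⟨h, hh, hhV⟩ := h3
  have hne : y ≠ h := fun h' => hyV (h' ▸ hhV)
  refine ⟨y, ?_, h, Finset.mem_inter.2 ⟨he.1 h hh, hhV⟩,
    (Sym2.mem_and_mem_iff hne).1 ⟨hy, hh⟩⟩
  rw [mem_Ge]
  exact ⟨he.1 y hy, hyV, fun hD => h2 ⟨h, hh, y, hy, hhV, hD⟩⟩

/-- the fine pairs of `A` whose partner is inside `A` -/
noncomputable def DP (lv : ℕ → ℕ) (s : St N r) (P : GP N) (A : Finset (Fin N)) :
    Finset (Sym2 (Fin N)) :=
  (ed A).filter (fun e => Fine lv s A e ∧ Dsc P A e)

theorem count_disc (lv : ℕ → ℕ) {s : St N r} {P : GP N} {Dl : ℕ} (hP : P.Valid Dl)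
    {R : Finset (Fin N)} {n k : ℕ} (hr : RelOk s P R n) (hk : 2 * k ≤ n)
    (A : Finset (Fin N)) :
    ∃ g0 : ℕ, (k + 1) * (Ge lv s A).card ≤ (k + 1) * g0 + A.card ∧
      g0 ≤ (Ge lv s A).card ∧
      (DP lv s P A).card + g0.choose 2 ≤ ((A \ Vs lv s 0).card).choose 2 +
        (Ge lv s A).card * (A ∩ Vs lv s 0).card +
        (((A \ Vs lv s 0) ×ˢ (A \ Vs lv s 0)).filter (fun z => Exc P A R z.1 z.2)).card := by
  set G := Ge lv s A with hG
  set F := A \ Vs lv s 0 with hF
  refine ⟨(G.filter (fun g => (Bl P A R g k).card ≤ k)).card, ?_, ?_, ?_⟩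
  · have h1 := large_few lv hr hk A
    rw [← hG] at h1
    have h2 := Finset.card_filter_add_card_filter_not
      (s := G) (fun g => (Bl P A R g k).card ≤ k)
    rw [← h2, Nat.mul_add]
    exact Nat.add_le_add_left h1 _
  · exact Finset.card_filter_le _ _
  · have h1 := small_pairs lv hP hr hk A
    rw [← hG, ← hF] at h1
    have h2 := Finset.card_filter_add_card_filter_not
      (s := ed F) (fun e => Dsc P A e ∧ ¬ Ex P A R e)
    rw [card_ed] at h2
    have h3 : DP lv s P A ⊆ ((ed F).filter (fun e => Dsc P A e ∧ ¬ Ex P A R e)) ∪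
        ((F ×ˢ F).filter (fun z => Exc P A R z.1 z.2)).image (fun z => s(z.1, z.2)) ∪
        (G ×ˢ (A ∩ Vs lv s 0)).image (fun z => s(z.1, z.2)) := by
      intro e he
      obtain ⟨he1, he2, he3⟩ := Finset.mem_filter.1 he
      by_cases heF : e ∈ ed F
      · by_cases hx : Ex P A R e
        · obtain ⟨y, w, hyw, hexc⟩ := hx
          refine Finset.mem_union_left _ (Finset.mem_union_right _ ?_)
          rw [Finset.mem_image]
          refine ⟨(y, w), Finset.mem_filter.2 ⟨Finset.mem_product.2 ⟨?_, ?_⟩, hexc⟩, hyw.symm⟩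
          · exact (mem_ed.1 heF).1 y (hyw ▸ Sym2.mem_mk_left y w)
          · exact (mem_ed.1 heF).1 w (hyw ▸ Sym2.mem_mk_right y w)
        · exact Finset.mem_union_left _ (Finset.mem_union_left _
            (Finset.mem_filter.2 ⟨heF, he3, hx⟩))
      · obtain ⟨g, hg, h, hh, hgh⟩ := fine_split he1 he2 heF
        refine Finset.mem_union_right _ ?_
        rw [Finset.mem_image]
        exact ⟨(g, h), Finset.mem_product.2 ⟨hg, hh⟩, hgh.symm⟩
    have h4 := Finset.card_le_card h3
    have h5 := Finset.card_union_le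
      (((ed F).filter (fun e => Dsc P A e ∧ ¬ Ex P A R e)) ∪
        ((F ×ˢ F).filter (fun z => Exc P A R z.1 z.2)).image (fun z => s(z.1, z.2)))
      ((G ×ˢ (A ∩ Vs lv s 0)).image (fun z => s(z.1, z.2)))
    have h6 := Finset.card_union_le ((ed F).filter (fun e => Dsc P A e ∧ ¬ Ex P A R e))
      (((F ×ˢ F).filter (fun z => Exc P A R z.1 z.2)).image (fun z => s(z.1, z.2)))
    have h7 : (((F ×ˢ F).filter (fun z => Exc P A R z.1 z.2)).image
        (fun z => s(z.1, z.2))).card ≤ ((F ×ˢ F).filter (fun z => Exc P A R z.1 z.2)).card :=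
      Finset.card_image_le
    have h8 : ((G ×ˢ (A ∩ Vs lv s 0)).image (fun z => s(z.1, z.2))).card ≤
        G.card * (A ∩ Vs lv s 0).card := by
      rw [← Finset.card_product]
      exact Finset.card_image_le
    omega

theorem prt_sum_le {lv : ℕ → ℕ} (hlv : Monotone lv) {s : St N r} {P : GP N} {Dl : ℕ}
    (hP : P.Valid Dl) (hdb : s.db = P.db) {A : Finset (Fin N)} {K : ℕ}
    (U : ℕ → Finset (Sym2 (Fin N))) (hU : ∀ k < K, U k ⊆ Pairs lv s k A) :
    ∑ k ∈ Finset.range K, prt s (U k) (Pairs lv s k A) ≤ (DP lv s P A).card := by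
  have h1 : ∀ k ∈ Finset.range K, prt s (U k) (Pairs lv s k A) ≤
      ((DP lv s P A).filter (fun e => Win lv k (tau s e))).card := by
    intro k hk
    unfold prt
    rw [hdb]
    refine Finset.card_le_card_of_injOn (fun d => d.1) ?_ ?_
    · intro d hd
      obtain ⟨hd1, hd2, hd3⟩ := Finset.mem_filter.1 hd
      have h2 := hU k (Finset.mem_range.1 hk) hd2
      obtain ⟨h3, h4, h5⟩ := Finset.mem_filter.1 h2
      obtain ⟨h6, h7, h8⟩ := Finset.mem_filter.1 hd3
      exact Finset.mem_filter.2 ⟨Finset.mem_filter.2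
        ⟨h3, h5, d.2, hd1, (mem_ed.1 h6).1⟩, h4⟩
    · intro d hd d' hd' hdd
      exact hP.fn d (Finset.mem_filter.1 hd).1 d' (Finset.mem_filter.1 hd').1 hdd
  refine le_trans (Finset.sum_le_sum h1) ?_
  rw [← Finset.card_biUnion]
  · refine Finset.card_le_card ?_
    intro e he
    obtain ⟨k, _, hk⟩ := Finset.mem_biUnion.1 he
    exact (Finset.mem_filter.1 hk).1
  · intro j _ k _ hjk
    rw [Function.onFun, Finset.disjoint_left]
    intro e he he'
    have h2 := (Finset.mem_filter.1 he).2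
    have h3 := (Finset.mem_filter.1 he').2
    unfold Win at h2 h3
    rcases lt_or_gt_of_ne hjk with h | h
    · have := hlv (Nat.succ_le_of_lt h)
      have h4 : lv (j + 1) ≤ lv k := this
      omega
    · have := hlv (Nat.succ_le_of_lt h)
      have h4 : lv (k + 1) ≤ lv j := this
      omega

end C0st
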