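import Pool.Agent.W_c0up_h14.RD
import Pool.Agent.W_c0up_h86.C3

/-!
# MP_c0ce05_co, upper bounds: number of discounted edges of a clique (proof of `count_dbl`)
-/

set_option autoImplicit false

namespace C0st

open scoped Classical
open C0lo

variable {N r : ℕ}

theorem count_dblM (P : GP N) {Dl : ℕ} (hP : P.Valid Dl) (A R : Finset (Fin N)) (n : ℕ)
    (lv : ℕ → ℕ) (s : St N r) (hdb : s.db = P.db)
    (hrel : ∀ a b, (a, b) ∈ s.rel ↔ Bef s.ty a b ∧ Rch P R n a b)
    (hL : ∀ x ∈ A, x ∈ Lam P R → x ∈ Vs lv s 0) :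
    ∃ s0 : ℕ, s0 ≤ (Ge lv s A).card ∧
      (Ge lv s A).card * (n / 2 + 1) ≤ s0 * (n / 2 + 1) + A.card ∧
      dbl s ((ed A).filter (fun e => Fine lv s A e)) + s0.choose 2 ≤
        (A \ Vs lv s 0).card.choose 2 + (Ge lv s A).card * (A ∩ Vs lv s 0).card +
          (excS P A R).card := by
  obtain ⟨g0, h1, h2, h3⟩ := count_disc lv hP (R := R) (n := n) (k := n / 2) hrel
    (by omega) A
  refine ⟨g0, h2, ?_, ?_⟩
  · rw [Nat.mul_comm, Nat.mul_comm g0]
    exact h1
  · have h4 : dbl s ((ed A).filter (fun e => Fine lv s A e)) ≤ (DP lv s P A).card := by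
      unfold dbl
      rw [hdb]
      refine Finset.card_le_card_of_injOn (fun d => d.1) ?_ ?_
      · intro d hd
        obtain ⟨hd1, hd2, hd3⟩ := Finset.mem_filter.1 hd
        obtain ⟨h5, h6⟩ := Finset.mem_filter.1 hd2
        obtain ⟨h7, _⟩ := Finset.mem_filter.1 hd3
        exact Finset.mem_filter.2 ⟨h5, h6, d.2, hd1, (mem_ed.1 h7).1⟩
      · intro d hd d' hd' hdd
        exact hP.fn d (Finset.mem_filter.1 hd).1 d' (Finset.mem_filter.1 hd').1 hdd
    have h5 : ((A \ Vs lv s 0) ×ˢ (A \ Vs lv s 0)).filter (fun z => Exc P A R z.1 z.2) ⊆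
        excS P A R := by
      intro z hz
      obtain ⟨hz1, hz2⟩ := Finset.mem_filter.1 hz
      obtain ⟨hz3, hz4⟩ := Finset.mem_product.1 hz1
      obtain ⟨h6, h7⟩ := Finset.mem_sdiff.1 hz3
      obtain ⟨h8, h9⟩ := Finset.mem_sdiff.1 hz4
      exact Finset.mem_filter.2 ⟨Finset.mem_product.2 ⟨h6, h8⟩,
        fun h => h7 (hL _ h6 h), fun h => h9 (hL _ h8 h), hz2⟩
    have h6 := Finset.card_le_card h5
    omega

end C0st
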