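import Pool.Agent.W_c0up_h86.B1

/-!
# MP_c0ce05_co, upper bound: number of possible data

`card_small`: the number of subsets with at most `n` elements of a finite type with `U` elements
is at most `(U + 1) ^ n`: map a function `Fin n → Option α` to the set of its values; every subset
with at most `n` elements is hit.
`Data_card`: a state is determined by the set `{(x, ty x) : ty x ≠ last}` (a subset of
`Fin N × Fin (r+2)` with at most `n` elements), `rel` (subset of `Fin N × Fin N`), `dead`, `clm`
(subsets of `Sym2 (Fin N)`, a type with at most `N ^ 2` elements: quotient of `Fin N × Fin N`) and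
`db` (subset of a type with at most `N ^ 4` elements). So the number is at most
`(N (r+2) + 1)^n (N^2+1)^n (N^2+1)^n (N^2+1)^n (N^4+1)^n ≤ ((r+3) N)^n (2N^2)^(3n) (2N^4)^n`.
-/

set_option autoImplicit false

namespace C0st

open scoped Classical
open C0lo C0up

variable {N r : ℕ}

theorem card_small {α : Type} [Fintype α] (n : ℕ) :
    ((Finset.univ : Finset (Finset α)).filter (fun t => t.card ≤ n)).card ≤
      (Fintype.card α + 1) ^ n := by
  have hsub : ((Finset.univ : Finset (Finset α)).filter (fun t => t.card ≤ n)) ⊆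
      (Finset.univ : Finset (Fin n → Option α)).image
        (fun f => (Finset.univ : Finset α).filter (fun a => ∃ i, f i = some a)) := by
    intro t ht
    rw [Finset.mem_filter] at ht
    rw [Finset.mem_image]
    refine ⟨fun i => if h : (i : ℕ) < t.card then some (t.equivFin.symm ⟨i, h⟩ : α) else none,
      Finset.mem_univ _, ?_⟩
    ext a
    rw [Finset.mem_filter, and_iff_right (Finset.mem_univ _)]
    constructor
    · rintro ⟨i, hi⟩
      beta_reduce at hi
      by_cases h : (i : ℕ) < t.card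
      · rw [dif_pos h] at hi
        rw [← Option.some.inj hi]
        exact (t.equivFin.symm ⟨i, h⟩).2
      · rw [dif_neg h] at hi
        exact absurd hi (by simp)
    · intro ha
      have h1 : ((t.equivFin ⟨a, ha⟩ : Fin t.card) : ℕ) < n :=
        lt_of_lt_of_le (t.equivFin ⟨a, ha⟩).2 ht.2
      refine ⟨⟨(t.equivFin ⟨a, ha⟩ : Fin t.card), h1⟩, ?_⟩
      beta_reduce
      rw [dif_pos (show ((⟨(t.equivFin ⟨a, ha⟩ : Fin t.card), h1⟩ : Fin n) : ℕ) < t.card from
        (t.equivFin ⟨a, ha⟩).2)]
      simp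
  calc _ ≤ _ := Finset.card_le_card hsub
    _ ≤ (Finset.univ : Finset (Fin n → Option α)).card := Finset.card_image_le
    _ = (Fintype.card α + 1) ^ n := by
        rw [Finset.card_univ, Fintype.card_fun, Fintype.card_option, Fintype.card_fin]

/-- the described part of the typing -/
noncomputable def D1_T (s : St N r) : Finset (Fin N × Fin (r + 2)) :=
  Finset.univ.filter (fun p => s.ty p.1 = p.2 ∧ p.2 ≠ Fin.last (r + 1))

theorem D1_T_card (s : St N r) :
    (D1_T s).card ≤ (Finset.univ.filter (fun x => s.ty x ≠ Fin.last (r + 1))).card := by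
  refine Finset.card_le_card_of_injOn Prod.fst ?_ ?_
  · intro p hp
    rw [Finset.mem_coe] at hp ⊢
    unfold D1_T at hp
    rw [Finset.mem_filter] at hp ⊢
    refine ⟨Finset.mem_univ _, ?_⟩
    rw [hp.2.1]
    exact hp.2.2
  · intro p hp p' hp' h
    rw [Finset.mem_coe] at hp hp'
    unfold D1_T at hp hp'
    rw [Finset.mem_filter] at hp hp'
    refine Prod.ext h ?_
    rw [← hp.2.1, ← hp'.2.1, h]

theorem D1_T_inj {s s' : St N r} (h : D1_T s = D1_T s') : s.ty = s'.ty := by
  funext x
  by_cases h1 : s.ty x = Fin.last (r + 1)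
  · by_contra h2
    have h3 : s'.ty x ≠ Fin.last (r + 1) := fun h4 => h2 (h1.trans h4.symm)
    have h4 : (x, s'.ty x) ∈ D1_T s' := by
      unfold D1_T
      rw [Finset.mem_filter]
      exact ⟨Finset.mem_univ _, rfl, h3⟩
    rw [← h] at h4
    unfold D1_T at h4
    rw [Finset.mem_filter] at h4
    exact h2 h4.2.1
  · have h4 : (x, s.ty x) ∈ D1_T s := by
      unfold D1_T
      rw [Finset.mem_filter]
      exact ⟨Finset.mem_univ _, rfl, h1⟩
    rw [h] at h4
    unfold D1_T at h4
    rw [Finset.mem_filter] at h4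
    exact h4.2.1.symm

theorem D1_card_sym (N : ℕ) : Fintype.card (Sym2 (Fin N)) ≤ N ^ 2 := by
  have h := Fintype.card_le_of_surjective (fun p : Fin N × Fin N => s(p.1, p.2)) (by
    intro e
    induction e using Sym2.ind with
    | _ u v => exact ⟨(u, v), rfl⟩)
  rw [Fintype.card_prod, Fintype.card_fin] at h
  rw [pow_two]
  exact h

theorem Data_card (hN : 1 ≤ N) (n : ℕ) :
    (Data N r n).card ≤ (16 * (r + 3) * N ^ 11) ^ n := by
  have hS := D1_card_sym N
  have hN2 : 1 ≤ N ^ 2 := Nat.one_le_pow _ _ hN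
  have hN4 : 1 ≤ N ^ 4 := Nat.one_le_pow _ _ hN
  have h1 : (Data N r n).card ≤
      ((((Finset.univ : Finset (Finset (Fin N × Fin (r + 2)))).filter (fun t => t.card ≤ n)) ×ˢ
        ((Finset.univ : Finset (Finset (Fin N × Fin N))).filter (fun t => t.card ≤ n))) ×ˢ
        (((Finset.univ : Finset (Finset (Sym2 (Fin N)))).filter (fun t => t.card ≤ n)) ×ˢ
        (((Finset.univ : Finset (Finset (Sym2 (Fin N)))).filter (fun t => t.card ≤ n)) ×ˢ
        ((Finset.univ : Finset (Finset (Sym2 (Fin N) × Sym2 (Fin N)))).filter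
          (fun t => t.card ≤ n))))).card := by
    refine Finset.card_le_card_of_injOn
      (fun s => ((D1_T s, s.rel), (s.dead, (s.clm, s.db)))) ?_ ?_
    · intro s hs
      rw [Finset.mem_coe] at hs ⊢
      unfold Data at hs
      rw [Finset.mem_filter] at hs
      obtain ⟨-, a1, a2, a3, a4, a5⟩ := hs
      simp only [Finset.mem_product, Finset.mem_filter, Finset.mem_univ, true_and]
      exact ⟨⟨(D1_T_card s).trans a1, a2⟩, a3, a4, a5⟩
    · intro s _ s' _ h
      simp only [Prod.mk.injEq] at h
      exact St.ext (D1_T_inj h.1.1) h.1.2 h.2.1 h.2.2.1 h.2.2.2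
  refine h1.trans ?_
  rw [Finset.card_product, Finset.card_product, Finset.card_product, Finset.card_product]
  have c1 := card_small (α := Fin N × Fin (r + 2)) n
  have c2 := card_small (α := Fin N × Fin N) n
  have c3 := card_small (α := Sym2 (Fin N)) n
  have c5 := card_small (α := Sym2 (Fin N) × Sym2 (Fin N)) n
  have d1 : (Fintype.card (Fin N × Fin (r + 2)) + 1) ^ n ≤ ((r + 3) * N) ^ n := by
    refine Nat.pow_le_pow_left ?_ n
    rw [Fintype.card_prod, Fintype.card_fin, Fintype.card_fin]
    nlinarith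
  have d2 : (Fintype.card (Fin N × Fin N) + 1) ^ n ≤ (2 * N ^ 2) ^ n := by
    refine Nat.pow_le_pow_left ?_ n
    rw [Fintype.card_prod, Fintype.card_fin]
    nlinarith
  have d3 : (Fintype.card (Sym2 (Fin N)) + 1) ^ n ≤ (2 * N ^ 2) ^ n :=
    Nat.pow_le_pow_left (by omega) n
  have d5 : (Fintype.card (Sym2 (Fin N) × Sym2 (Fin N)) + 1) ^ n ≤ (2 * N ^ 4) ^ n := by
    refine Nat.pow_le_pow_left ?_ n
    rw [Fintype.card_prod]
    have := Nat.mul_le_mul hS hS
    have e : N ^ 2 * N ^ 2 = N ^ 4 := by ring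
    omega
  calc _ ≤ (((r + 3) * N) ^ n * (2 * N ^ 2) ^ n) * ((2 * N ^ 2) ^ n * ((2 * N ^ 2) ^ n *
        (2 * N ^ 4) ^ n)) :=
        Nat.mul_le_mul (Nat.mul_le_mul (c1.trans d1) (c2.trans d2))
          (Nat.mul_le_mul (c3.trans d3) (Nat.mul_le_mul (c3.trans d3) (c5.trans d5)))
    _ = (16 * (r + 3) * N ^ 11) ^ n := by
        rw [← mul_pow, ← mul_pow, ← mul_pow, ← mul_pow]
        congr 1
        ring

end C0st
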