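import Pool.Agent.W_c0up_h86.B1

/-!
# MP_c0ce05_co, upper bound: the data of step `k` are small

Hypothesis: at most `q M^(j+1)` vertices have type `j`, for every `j ≤ r` (`M ≥ 1` real).
* the vertices with a type in `restr lv k s` are in `Vs lv s k`; their types are
  `j ≤ r` with `j + 4 < lv k`, so there are at most `(r+1) q M^(lv k - 4)` of them
  (`j + 1 ≤ lv k - 4`);
* `rel`: the first entry is in `Vs lv s k`, each has at most `D0` successors (`Ok.deg`);
* `Low lv s k e` with `e = s(x, y)` means `x, y ∈ Vs lv s k` and `ty x + ty y + 5 ≤ lv k`. The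
  number of pairs `(x, y)` of vertices with types `j, j' ≤ r`, `j + j' + 5 ≤ lv k`, is at most
  `(r+1)^2 q^2 M^(j + j' + 2) ≤ (r+1)^2 q^2 M^(lv k - 3)`; the map `(x, y) ↦ s(x, y)` is onto the
  `Low` edges, so `dead` and `clm` of `restr` are at most that many;
* `db`: the first components of the turns are different (`Ok.din`) and `Low`.
All are at most `(D0+1) (r+1)^2 q^2 M^(lv k - 3)` (use `1 ≤ q`; `4 ≤ lv 0 ≤ lv k` by `Ok.low`).
-/

set_option autoImplicit false

namespace C0st

open scoped Classical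
open C0lo C0up

variable {N r : ℕ}

/-- few vertices of step `k` -/
private theorem D2_V (lv : ℕ → ℕ) (s : St N r) {M : ℝ} (hM : 1 ≤ M) (q k : ℕ)
    (hW : ∀ j ≤ r, (((Finset.univ : Finset (Fin N)).filter (fun x => (s.ty x : ℕ) = j)).card : ℝ)
      ≤ q * M ^ (j + 1)) :
    ((Vs lv s k).card : ℝ) ≤ (r + 1) * (q * M ^ (lv k - 4)) := by
  have hsub : Vs lv s k ⊆ ((Finset.range (r + 1)).filter (fun j => j + 4 < lv k)).biUnion
      (fun j => (Finset.univ : Finset (Fin N)).filter (fun x => (s.ty x : ℕ) = j)) := by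
    intro x hx
    simp only [Vs, Finset.mem_filter, Finset.mem_univ, true_and] at hx
    simp only [Finset.mem_biUnion, Finset.mem_filter, Finset.mem_range, Finset.mem_univ, true_and]
    exact ⟨_, ⟨by omega, hx.1⟩, rfl⟩
  have h0 : (0 : ℝ) ≤ M := by linarith
  calc ((Vs lv s k).card : ℝ)
      ≤ ∑ j ∈ (Finset.range (r + 1)).filter (fun j => j + 4 < lv k),
        (((Finset.univ : Finset (Fin N)).filter (fun x => (s.ty x : ℕ) = j)).card : ℝ) := by
        exact_mod_cast (Finset.card_le_card hsub).trans Finset.card_biUnion_le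
    _ ≤ ∑ j ∈ (Finset.range (r + 1)).filter (fun j => j + 4 < lv k),
        ((q : ℝ) * M ^ (lv k - 4)) := by
        refine Finset.sum_le_sum fun j hj => ?_
        simp only [Finset.mem_filter, Finset.mem_range] at hj
        refine (hW j (by omega)).trans ?_
        exact mul_le_mul_of_nonneg_left (pow_le_pow_right₀ hM (by omega)) (by positivity)
    _ = (((Finset.range (r + 1)).filter (fun j => j + 4 < lv k)).card : ℝ) *
        ((q : ℝ) * M ^ (lv k - 4)) := by
        rw [Finset.sum_const, nsmul_eq_mul]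
    _ ≤ (r + 1) * (q * M ^ (lv k - 4)) := by
        refine mul_le_mul_of_nonneg_right ?_ (by positivity)
        have := Finset.card_filter_le (Finset.range (r + 1)) (fun j => j + 4 < lv k)
        rw [Finset.card_range] at this
        exact_mod_cast this

/-- few edges described at step `k` -/
private theorem D2_L (lv : ℕ → ℕ) (s : St N r) {M : ℝ} (hM : 1 ≤ M) (q k : ℕ)
    (hW : ∀ j ≤ r, (((Finset.univ : Finset (Fin N)).filter (fun x => (s.ty x : ℕ) = j)).card : ℝ)
      ≤ q * M ^ (j + 1)) :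
    (((Finset.univ : Finset (Sym2 (Fin N))).filter (fun e => Low lv s k e)).card : ℝ) ≤
      (r + 1) ^ 2 * ((q : ℝ) ^ 2 * M ^ (lv k - 3)) := by
  have h0 : (0 : ℝ) ≤ M := by linarith
  set T : ℕ → Finset (Fin N) :=
    fun j => (Finset.univ : Finset (Fin N)).filter (fun x => (s.ty x : ℕ) = j) with hT
  set J : Finset (ℕ × ℕ) := ((Finset.range (r + 1)) ×ˢ (Finset.range (r + 1))).filter
    (fun j => j.1 + j.2 + 5 ≤ lv k) with hJ
  have hsub : (Finset.univ : Finset (Sym2 (Fin N))).filter (fun e => Low lv s k e) ⊆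
      (J.biUnion (fun j => T j.1 ×ˢ T j.2)).image (fun p => s(p.1, p.2)) := by
    intro e he
    simp only [Finset.mem_filter, Finset.mem_univ, true_and] at he
    induction e using Sym2.ind with
    | _ x y =>
      obtain ⟨h1, h2⟩ := he
      have hx := h1 x (Sym2.mem_mk_left x y)
      have hy := h1 y (Sym2.mem_mk_right x y)
      simp only [Vs, Finset.mem_filter, Finset.mem_univ, true_and] at hx hy
      have h3 : (s.ty x : ℕ) + (s.ty y : ℕ) + 5 ≤ lv k := h2
      refine Finset.mem_image.2 ⟨(x, y), ?_, rfl⟩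
      refine Finset.mem_biUnion.2 ⟨((s.ty x : ℕ), (s.ty y : ℕ)), ?_, ?_⟩
      · simp only [hJ, Finset.mem_filter, Finset.mem_product, Finset.mem_range]
        exact ⟨⟨by omega, by omega⟩, h3⟩
      · simp only [hT, Finset.mem_product, Finset.mem_filter, Finset.mem_univ, and_self]
  calc (((Finset.univ : Finset (Sym2 (Fin N))).filter (fun e => Low lv s k e)).card : ℝ)
      ≤ ∑ j ∈ J, (((T j.1).card : ℝ) * ((T j.2).card : ℝ)) := by
        have h1 := (Finset.card_le_card hsub).trans (Finset.card_image_le.trans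
          Finset.card_biUnion_le)
        simp only [Finset.card_product] at h1
        exact_mod_cast h1
    _ ≤ ∑ j ∈ J, ((q : ℝ) ^ 2 * M ^ (lv k - 3)) := by
        refine Finset.sum_le_sum fun j hj => ?_
        simp only [hJ, Finset.mem_filter, Finset.mem_product, Finset.mem_range] at hj
        have h1 := hW j.1 (by omega)
        have h2 := hW j.2 (by omega)
        calc ((T j.1).card : ℝ) * ((T j.2).card : ℝ)
            ≤ (q * M ^ (j.1 + 1)) * (q * M ^ (j.2 + 1)) :=
              mul_le_mul h1 h2 (by positivity) (by positivity)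
          _ = (q : ℝ) ^ 2 * M ^ (j.1 + 1 + (j.2 + 1)) := by rw [pow_add]; ring
          _ ≤ (q : ℝ) ^ 2 * M ^ (lv k - 3) :=
              mul_le_mul_of_nonneg_left (pow_le_pow_right₀ hM (by omega)) (by positivity)
    _ = (J.card : ℝ) * ((q : ℝ) ^ 2 * M ^ (lv k - 3)) := by
        rw [Finset.sum_const, nsmul_eq_mul]
    _ ≤ (r + 1) ^ 2 * ((q : ℝ) ^ 2 * M ^ (lv k - 3)) := by
        refine mul_le_mul_of_nonneg_right ?_ (by positivity)
        have := Finset.card_filter_le ((Finset.range (r + 1)) ×ˢ (Finset.range (r + 1)))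
          (fun j => j.1 + j.2 + 5 ≤ lv k)
        rw [Finset.card_product, Finset.card_range] at this
        rw [pow_two]
        exact_mod_cast this

theorem restr_mem {lv : ℕ → ℕ} {Sg D0 Dl : ℕ} {s : St N r} (h : Ok lv Sg D0 Dl s) {M : ℝ}
    (hM : 1 ≤ M) {q : ℕ} (hq : 1 ≤ q)
    (hW : ∀ j ≤ r, (((Finset.univ : Finset (Fin N)).filter (fun x => (s.ty x : ℕ) = j)).card : ℝ)
      ≤ q * M ^ (j + 1)) (k n : ℕ)
    (hn : ((D0 : ℝ) + 1) * (r + 1) ^ 2 * q ^ 2 * M ^ (lv k - 3) ≤ n) :
    restr lv k s ∈ Data N r n := by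
  have h0 : (0 : ℝ) ≤ M := by linarith
  have hq' : (1 : ℝ) ≤ q := by exact_mod_cast hq
  have hV := D2_V lv s hM q k hW
  have hL := D2_L lv s hM q k hW
  have hr : (1 : ℝ) ≤ (r : ℝ) + 1 := by
    have : (0 : ℝ) ≤ r := by positivity
    linarith
  have hD : (0 : ℝ) ≤ (D0 : ℝ) := by positivity
  have hMk : M ^ (lv k - 4) ≤ M ^ (lv k - 3) := pow_le_pow_right₀ hM (by omega)
  -- the two basic bounds
  have hA : ((r : ℝ) + 1) * (q * M ^ (lv k - 4)) ≤ (r + 1) ^ 2 * ((q : ℝ) ^ 2 * M ^ (lv k - 3)) := by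
    have h1 : ((r : ℝ) + 1) ≤ (r + 1) ^ 2 := by nlinarith
    have h2 : (q : ℝ) ≤ q ^ 2 := by nlinarith
    exact mul_le_mul h1 (mul_le_mul h2 hMk (by positivity) (by positivity)) (by positivity)
      (by positivity)
  have hB : (r + 1) ^ 2 * ((q : ℝ) ^ 2 * M ^ (lv k - 3)) ≤
      ((D0 : ℝ) + 1) * (r + 1) ^ 2 * q ^ 2 * M ^ (lv k - 3) := by
    have h1 : (0 : ℝ) ≤ (r + 1) ^ 2 * ((q : ℝ) ^ 2 * M ^ (lv k - 3)) := by positivity
    nlinarith
  have hC : (D0 : ℝ) * ((r + 1) ^ 2 * ((q : ℝ) ^ 2 * M ^ (lv k - 3))) ≤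
      ((D0 : ℝ) + 1) * (r + 1) ^ 2 * q ^ 2 * M ^ (lv k - 3) := by
    have h1 : (0 : ℝ) ≤ (r + 1) ^ 2 * ((q : ℝ) ^ 2 * M ^ (lv k - 3)) := by positivity
    nlinarith
  have hLn : ((Finset.univ : Finset (Sym2 (Fin N))).filter (fun e => Low lv s k e)).card ≤ n := by
    have := hL.trans (hB.trans hn)
    exact_mod_cast this
  refine Finset.mem_filter.2 ⟨Finset.mem_univ _, ?_, ?_, ?_, ?_, ?_⟩
  · have h1 : (Finset.univ.filter (fun x => (restr lv k s).ty x ≠ Fin.last (r + 1))) ⊆
        Vs lv s k := by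
      intro x hx
      simp only [restr, Finset.mem_filter, Finset.mem_univ, true_and] at hx
      by_contra hc
      simp [hc] at hx
    have h2 : ((Finset.univ.filter
        (fun x => (restr lv k s).ty x ≠ Fin.last (r + 1))).card : ℝ) ≤ n := by
      have h3 : ((Finset.univ.filter
        (fun x => (restr lv k s).ty x ≠ Fin.last (r + 1))).card : ℝ) ≤ ((Vs lv s k).card : ℝ) := by
        exact_mod_cast Finset.card_le_card h1
      exact h3.trans (hV.trans (hA.trans (hB.trans hn)))
    exact_mod_cast h2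
  · have h1 : (restr lv k s).rel ⊆ (Vs lv s k).biUnion
        (fun a => s.rel.filter (fun p => p.1 = a)) := by
      intro p hp
      simp only [restr, Finset.mem_filter] at hp
      simp only [Finset.mem_biUnion, Finset.mem_filter]
      exact ⟨p.1, hp.2.1, hp.1, rfl⟩
    have h2 : (restr lv k s).rel.card ≤ (Vs lv s k).card * D0 := by
      refine (Finset.card_le_card h1).trans (Finset.card_biUnion_le.trans ?_)
      calc ∑ a ∈ Vs lv s k, (s.rel.filter (fun p => p.1 = a)).card
          ≤ ∑ _a ∈ Vs lv s k, D0 := Finset.sum_le_sum fun a _ => h.deg a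
        _ = (Vs lv s k).card * D0 := by rw [Finset.sum_const, smul_eq_mul]
    have h3 : ((restr lv k s).rel.card : ℝ) ≤ n := by
      have h4 : ((restr lv k s).rel.card : ℝ) ≤ ((Vs lv s k).card : ℝ) * D0 := by
        exact_mod_cast h2
      refine h4.trans ?_
      calc ((Vs lv s k).card : ℝ) * D0
          ≤ ((r + 1) ^ 2 * ((q : ℝ) ^ 2 * M ^ (lv k - 3))) * D0 :=
            mul_le_mul_of_nonneg_right (hV.trans hA) hD
        _ = (D0 : ℝ) * ((r + 1) ^ 2 * ((q : ℝ) ^ 2 * M ^ (lv k - 3))) := by ring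
        _ ≤ n := hC.trans hn
    exact_mod_cast h3
  · refine (Finset.card_le_card ?_).trans hLn
    intro e he
    simp only [restr, Finset.mem_filter] at he
    exact Finset.mem_filter.2 ⟨Finset.mem_univ _, he.2⟩
  · refine (Finset.card_le_card ?_).trans hLn
    intro e he
    simp only [restr, Finset.mem_filter] at he
    exact Finset.mem_filter.2 ⟨Finset.mem_univ _, he.2⟩
  · refine le_trans ?_ hLn
    refine Finset.card_le_card_of_injOn (fun d => d.1) ?_ ?_
    · intro d hd
      have hd := Finset.mem_coe.1 hd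
      simp only [restr, Finset.mem_filter] at hd
      exact Finset.mem_coe.2 (Finset.mem_filter.2 ⟨Finset.mem_univ _, hd.2.1⟩)
    · intro d hd d' hd' hdd
      have hd := Finset.mem_coe.1 hd
      have hd' := Finset.mem_coe.1 hd'
      simp only [restr, Finset.mem_filter] at hd hd'
      exact h.din d hd.1 d' hd'.1 hdd

end C0st
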