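import Pool.Agent.W_c0up_h86.J3

/-!
# MP_c0ce05_co, upper bound: expected logarithm of the tree weight

Induction on `K` (with `C1`, `U`, `θ` fixed). `K = 0`: `WW = 1`, both sides are `0`.
Step: for `W : Idx b (K+1) → Finset (Fin N)` with values in `C1` (all weights positive, `WW_pos`,
`wt_pos`)
`log (WW (K+1) W) = log (wt s (⋃ Pairs lv s K (W i))) + ∑_j log (WW K (fun i => W (j, i)))`.
Averages: the first term by `av_log_wt` with `Q = Pairs lv s K`, `ι = Idx b (K+1)`
(`card_Idx`; `(Pairs lv s K A).card ≤ (ed A).card ≤ q^2`), the others by `av_pull` with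
`φ = fun i => (j, i)` (injective) and the induction hypothesis. With `m = mm b (K+1) = mm b K * b K`:
`m * y_K - m^2 θ_K (Dl+1) q^2 + b K * mm b K * ∑_{k<K} (...) = m * ∑_{k < K+1} (...)`.
-/

set_option autoImplicit false

namespace C0st

open scoped Classical
open C0lo C0up

variable {N r : ℕ}

private theorem J4_card_ed {A : Finset (Fin N)} {q : ℕ} (hA : A.card ≤ q) :
    (ed A).card ≤ q ^ 2 := by
  refine le_trans ?_ (Nat.pow_le_pow_left hA 2)
  rw [card_ed, Nat.choose_two_right, pow_two]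
  exact (Nat.div_le_self _ _).trans (Nat.mul_le_mul_left _ (Nat.sub_le _ _))

theorem av_log_WW {lv : ℕ → ℕ} {Sg D0 Dl : ℕ} {s : St N r} (h : Ok lv Sg D0 Dl s) {b : ℕ → ℕ}
    {C1 : Finset (Finset (Fin N))} (hC : C1.Nonempty)
    (hal : ∀ A ∈ C1, Disjoint (ed A) s.dead) {q : ℕ} (hq : ∀ A ∈ C1, A.card ≤ q)
    (U : ℕ → Finset (Fin N) → Finset (Sym2 (Fin N))) (θ : ℕ → ℝ) (K : ℕ)
    (hU : ∀ k < K, ∀ A ∈ C1, U k A ⊆ Pairs lv s k A)
    (hθ0 : ∀ k < K, 0 ≤ θ k)
    (hθ : ∀ k < K, ∀ e, ((C1.filter (fun A => e ∈ U k A)).card : ℝ) ≤ θ k * C1.card) :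
    (mm b K : ℝ) * ∑ k ∈ Finset.range K,
        (av1 C1 (fun A => gn s (U k A) (Pairs lv s k A)) -
          (mm b (k + 1) : ℝ) * (θ k * ((Dl : ℝ) + 1) * (q : ℝ) ^ 2)) ≤
      av C1 (fun W : Idx b K → Finset (Fin N) => Real.log (WW lv b s K W)) := by
  induction K with
  | zero =>
    rw [Finset.range_zero, Finset.sum_empty, mul_zero]
    refine av_nonneg_of (fun W _ => ?_)
    have h1 : WW lv b s 0 W = 1 := rfl
    rw [h1, Real.log_one]
  | succ K ih =>
    have hc : (Fintype.card (Idx b (K + 1)) : ℝ) = (mm b K : ℝ) * (b K : ℝ) := by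
      rw [card_Idx, mm_succ, Nat.cast_mul]
    have ih' := ih (fun k hk => hU k (Nat.lt_succ_of_lt hk))
      (fun k hk => hθ0 k (Nat.lt_succ_of_lt hk)) (fun k hk => hθ k (Nat.lt_succ_of_lt hk))
    have hQq : ∀ A ∈ C1, (Pairs lv s K A).card ≤ q ^ 2 := fun A hA =>
      (Finset.card_le_card (Pairs_subset lv s K A)).trans (J4_card_ed (hq A hA))
    have hfirst := av_log_wt h hC (U := U K) (Q := Pairs lv s K) (hU K (Nat.lt_succ_self K))
      (fun A hA => (hal A hA).mono_left (Pairs_subset lv s K A)) hQq (hθ0 K (Nat.lt_succ_self K))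
      (hθ K (Nat.lt_succ_self K)) (Idx b (K + 1))
    rw [hc] at hfirst
    have hpull : ∀ j : Fin (b K), av C1 (fun W : Idx b (K + 1) → Finset (Fin N) =>
        Real.log (WW lv b s K (fun i => W (j, i)))) =
        av C1 (fun W : Idx b K → Finset (Fin N) => Real.log (WW lv b s K W)) := by
      intro j
      have hφ : Function.Injective (fun i : Idx b K => ((j, i) : Idx b (K + 1))) := by
        intro i i' hii
        exact congrArg (fun z : Fin (b K) × Idx b K => z.2) hii
      exact av_pull hC hφ (fun W : Idx b K → Finset (Fin N) => Real.log (WW lv b s K W))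
    have hle : av C1 (fun W : Idx b (K + 1) → Finset (Fin N) =>
        Real.log (wt s (Finset.univ.biUnion (fun i => Pairs lv s K (W i)))) +
          ∑ j : Fin (b K), Real.log (WW lv b s K (fun i => W (j, i)))) ≤
        av C1 (fun W : Idx b (K + 1) → Finset (Fin N) => Real.log (WW lv b s (K + 1) W)) := by
      refine av_mono (fun W hW => le_of_eq ?_)
      have hWC : ∀ i, W i ∈ C1 := fun i => Fintype.mem_piFinset.1 hW i
      have hW' : ∀ i, Disjoint (ed (W i)) s.dead := fun i => hal _ (hWC i)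
      have hdef : WW lv b s (K + 1) W =
          wt s (Finset.univ.biUnion (fun i : Idx b (K + 1) => Pairs lv s K (W i))) *
            ∏ j : Fin (b K), WW lv b s K (fun i => W (j, i)) := rfl
      have hpos1 : wt s (Finset.univ.biUnion (fun i : Idx b (K + 1) => Pairs lv s K (W i))) ≠ 0 := by
        refine ne_of_gt (wt_pos ?_)
        rw [Finset.disjoint_biUnion_left]
        exact fun i _ => (hW' i).mono_left (Pairs_subset _ _ _ _)
      have hpos2 : ∀ j ∈ (Finset.univ : Finset (Fin (b K))),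
          WW lv b s K (fun i => W (j, i)) ≠ 0 :=
        fun j _ => ne_of_gt (WW_pos (fun i => hW' (j, i)))
      rw [hdef, Real.log_mul hpos1 (Finset.prod_ne_zero_iff.2 hpos2), Real.log_prod hpos2]
    rw [av_add, av_sum, Finset.sum_congr rfl (fun j _ => hpull j), Finset.sum_const,
      Finset.card_univ, Fintype.card_fin, nsmul_eq_mul] at hle
    refine le_trans ?_ hle
    rw [Finset.sum_range_succ, mm_succ, Nat.cast_mul]
    have h2 := mul_le_mul_of_nonneg_left ih' (Nat.cast_nonneg (b K) : (0 : ℝ) ≤ (b K : ℝ))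
    refine le_trans (le_of_eq ?_) (add_le_add hfirst h2)
    ring

end C0st
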