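import Pool.Agent.W_c0up_h86.S2
import Pool.Agent.W_c0up_h86.J4

/-!
# MP_c0ce05_co, upper bound: the entropy inequality (output of the tree recursion)

Let `X = Fintype.piFinset (fun _ : Idx b K => C1)` (nonempty, `|C1| ^ mm b K` elements,
`card_Idx`). As `C1 ⊆ Sub lv q s K`, `X` is contained in the index set of `Z lv b q s K`, all terms
are nonnegative, and on `X` the term `f W = (∏_i N^(-|Ge (W i)|)) * WW W` is positive (`WW_pos`).
By `jensen`: `Z K ≥ |C1|^(mm K) * exp (av C1 (log f))`, and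
`log f W = - log N * ∑_i |Ge (W i)| + log (WW W)`, whose average is
`- log N * mm K * av1 C1 |Ge| + (average of log WW)` (`av_one`, `av_add`, `av_sub`), bounded
below by `av_log_WW`. So `Z K > 0` and `log (Z K) / mm K ≥ log |C1| - log N * av1 |Ge| +
∑_{k<K} (av1 (gn s (U k ·) (Pairs k ·)) - mm (k+1) θ_k (Dl+1) q^2)`.
Combine with `Z_iter`. (Linearity of `av1` for the final form.)
-/

set_option autoImplicit false

namespace C0st

open scoped Classical
open C0lo C0up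

variable {N r : ℕ}

theorem G1_av1_sub (C : Finset (Finset (Fin N))) (f g : Finset (Fin N) → ℝ) :
    av1 C (fun A => f A - g A) = av1 C f - av1 C g := by
  unfold av1
  rw [Finset.sum_sub_distrib, sub_div]

theorem G1_av1_mul (C : Finset (Finset (Fin N))) (f : Finset (Fin N) → ℝ) (c : ℝ) :
    av1 C (fun A => f A * c) = av1 C f * c := by
  unfold av1
  rw [← Finset.sum_mul, div_mul_eq_mul_div]

theorem G1_av1_sum (C : Finset (Finset (Fin N))) (K : ℕ) (f : ℕ → Finset (Fin N) → ℝ) :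
    av1 C (fun A => ∑ k ∈ Finset.range K, f k A) = ∑ k ∈ Finset.range K, av1 C (f k) := by
  unfold av1
  rw [Finset.sum_comm, Finset.sum_div]

theorem G1_log {lv b : ℕ → ℕ} {s : St N r} (hN : 1 ≤ N) {K : ℕ}
    {W : Idx b K → Finset (Fin N)} (hW : ∀ i, Disjoint (ed (W i)) s.dead) :
    Real.log ((∏ i, ((N : ℝ)⁻¹) ^ (Ge lv s (W i)).card) * WW lv b s K W) =
      Real.log (WW lv b s K W) - Real.log N * ∑ i, ((Ge lv s (W i)).card : ℝ) := by
  have hN0 : (0 : ℝ) < N := by exact_mod_cast hN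
  have h1 : ∀ i ∈ (Finset.univ : Finset (Idx b K)),
      ((N : ℝ)⁻¹) ^ (Ge lv s (W i)).card ≠ 0 := fun i _ => by positivity
  rw [Real.log_mul (Finset.prod_ne_zero_iff.2 h1) (WW_pos hW).ne', Real.log_prod h1,
    Finset.mul_sum, add_comm, sub_eq_add_neg, ← Finset.sum_neg_distrib]
  congr 1
  refine Finset.sum_congr rfl (fun i _ => ?_)
  rw [Real.log_pow, Real.log_inv]
  ring

theorem gibbs {lv : ℕ → ℕ} {Sg D0 Dl : ℕ} {s : St N r} (h : Ok lv Sg D0 Dl s) {b : ℕ → ℕ}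
    (hN : 1 ≤ N) (hb : ∀ k, 0 < b k) {C1 : Finset (Finset (Fin N))} (hC : C1.Nonempty)
    {q : ℕ} (hq : ∀ A ∈ C1, A.card ≤ q) {K : ℕ} (hV : ∀ A ∈ C1, A ⊆ Vs lv s K)
    (hal : ∀ A ∈ C1, Disjoint (ed A) s.dead)
    (U : ℕ → Finset (Fin N) → Finset (Sym2 (Fin N))) (θ : ℕ → ℝ)
    (hU : ∀ k < K, ∀ A ∈ C1, U k A ⊆ Pairs lv s k A)
    (hθ0 : ∀ k < K, 0 ≤ θ k)
    (hθ : ∀ k < K, ∀ e, ((C1.filter (fun A => e ∈ U k A)).card : ℝ) ≤ θ k * C1.card)
    {Λ : ℕ → ℝ} (hΛ : ∀ k < K, 0 < Λ k)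
    (hH : ∀ k < K, ∑ om ∈ Om lv b q s k, rho lv b q s k om * wt s (QQ lv b s k om) ≤ Λ k) :
    Real.log (C1.card : ℝ) ≤
      av1 C1 (fun A => ((Ge lv s A).card : ℝ) * Real.log N -
        ∑ k ∈ Finset.range K, gn s (U k A) (Pairs lv s k A)) +
      Real.log ((Sub lv q s 0).card : ℝ) +
      ∑ k ∈ Finset.range K, (Real.log (Λ k) / (mm b (k + 1) : ℝ) + ((r : ℝ) + 1) +
        (q : ℝ) * Real.log ((q : ℝ) * D0 + 1) +
        (mm b (k + 1) : ℝ) * (θ k * ((Dl : ℝ) + 1) * (q : ℝ) ^ 2)) := by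
  have hm : 0 < mm b K := mm_pos hb K
  have hmR : (0 : ℝ) < (mm b K : ℝ) := by exact_mod_cast hm
  have hc : (0 : ℝ) < (C1.card : ℝ) := by exact_mod_cast hC.card_pos
  have hN0 : (0 : ℝ) < N := by exact_mod_cast hN
  set X := Fintype.piFinset (fun _ : Idx b K => C1) with hX
  have hXne : X.Nonempty := Fintype.piFinset_nonempty.2 (fun _ => hC)
  have hXc : (X.card : ℝ) = (C1.card : ℝ) ^ (Fintype.card (Idx b K)) := by
    rw [hX, Fintype.card_piFinset, Finset.prod_const, Finset.card_univ]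
    push_cast
    rfl
  set f : (Idx b K → Finset (Fin N)) → ℝ :=
    fun W => (∏ i, ((N : ℝ)⁻¹) ^ (Ge lv s (W i)).card) * WW lv b s K W with hf
  have hmem : ∀ W ∈ X, ∀ i, W i ∈ C1 := fun W hW i => Fintype.mem_piFinset.1 hW i
  have hfpos : ∀ W ∈ X, 0 < f W := by
    intro W hW
    exact mul_pos (Finset.prod_pos (fun i _ => by positivity))
      (WW_pos (fun i => hal _ (hmem W hW i)))
  have hsum : ∑ W ∈ X, f W ≤ Z lv b q s K := by
    unfold Z
    refine Finset.sum_le_sum_of_subset_of_nonneg ?_ ?_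
    · refine Fintype.piFinset_subset _ _ (fun _ => ?_)
      intro A hA
      exact Finset.mem_filter.2 ⟨Finset.mem_powerset.2 (hV A hA), hq A hA⟩
    · intro W _ _
      exact mul_nonneg (Finset.prod_nonneg (fun i _ => by positivity)) (WW_nonneg _ _ _ _ _)
  have hj := jensen hXne hfpos
  have hE : (∑ W ∈ X, Real.log (f W)) / (X.card : ℝ) =
      av C1 (fun W : Idx b K → Finset (Fin N) => Real.log (f W)) := by
    unfold av
    rw [hXc]
  rw [hE] at hj
  have hEe : av C1 (fun W : Idx b K → Finset (Fin N) => Real.log (f W)) =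
      av C1 (fun W : Idx b K → Finset (Fin N) => Real.log (WW lv b s K W)) -
        Real.log N * ((mm b K : ℝ) * av1 C1 (fun A => ((Ge lv s A).card : ℝ))) := by
    have h1 : av C1 (fun W : Idx b K → Finset (Fin N) => Real.log (f W)) =
        av C1 (fun W : Idx b K → Finset (Fin N) => Real.log (WW lv b s K W) -
          Real.log N * ∑ i, ((Ge lv s (W i)).card : ℝ)) := by
      unfold av
      congr 1
      refine Finset.sum_congr rfl (fun W hW => ?_)
      exact G1_log hN (fun i => hal _ (hmem W hW i))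
    rw [h1, av_sub, av_mul, av_sum]
    congr 2
    have h2 : ∀ i ∈ (Finset.univ : Finset (Idx b K)),
        av C1 (fun W : Idx b K → Finset (Fin N) => ((Ge lv s (W i)).card : ℝ)) =
          av1 C1 (fun A => ((Ge lv s A).card : ℝ)) := fun i _ =>
      av_one hC i (fun A => ((Ge lv s A).card : ℝ))
    rw [Finset.sum_congr rfl h2, Finset.sum_const, Finset.card_univ, card_Idx, nsmul_eq_mul]
  set E := av C1 (fun W : Idx b K → Finset (Fin N) => Real.log (f W)) with hEdef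
  have hXpos : (0 : ℝ) < (X.card : ℝ) := by exact_mod_cast hXne.card_pos
  have hlow : (X.card : ℝ) * Real.exp E ≤ Z lv b q s K := hj.trans hsum
  have hZ : 0 < Z lv b q s K := lt_of_lt_of_le (mul_pos hXpos (Real.exp_pos _)) hlow
  have hlog : (mm b K : ℝ) * Real.log (C1.card : ℝ) + E ≤ Real.log (Z lv b q s K) := by
    have h1 := Real.log_le_log (mul_pos hXpos (Real.exp_pos _)) hlow
    rw [Real.log_mul hXpos.ne' (Real.exp_pos _).ne', Real.log_exp, hXc, Real.log_pow,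
      card_Idx] at h1
    exact h1
  have hit := Z_iter h q hN hb hΛ hH hZ
  have hWW := av_log_WW h (b := b) hC hal hq U θ K hU hθ0 hθ
  have hR : av1 C1 (fun A => ((Ge lv s A).card : ℝ) * Real.log N -
        ∑ k ∈ Finset.range K, gn s (U k A) (Pairs lv s k A)) =
      av1 C1 (fun A => ((Ge lv s A).card : ℝ)) * Real.log N -
        ∑ k ∈ Finset.range K, av1 C1 (fun A => gn s (U k A) (Pairs lv s k A)) := by
    rw [G1_av1_sub, G1_av1_mul, G1_av1_sum]
  rw [hR]
  rw [hEe] at hlog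
  rw [div_le_iff₀ hmR] at hit
  rw [Finset.sum_sub_distrib] at hWW
  have hsplit : ∑ k ∈ Finset.range K, (Real.log (Λ k) / (mm b (k + 1) : ℝ) + ((r : ℝ) + 1) +
        (q : ℝ) * Real.log ((q : ℝ) * D0 + 1) +
        (mm b (k + 1) : ℝ) * (θ k * ((Dl : ℝ) + 1) * (q : ℝ) ^ 2)) =
      ∑ k ∈ Finset.range K, (Real.log (Λ k) / (mm b (k + 1) : ℝ) + ((r : ℝ) + 1) +
        (q : ℝ) * Real.log ((q : ℝ) * D0 + 1)) +
      ∑ k ∈ Finset.range K, (mm b (k + 1) : ℝ) * (θ k * ((Dl : ℝ) + 1) * (q : ℝ) ^ 2) :=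
    Finset.sum_add_distrib
  rw [hsplit]
  have key : (mm b K : ℝ) * Real.log (C1.card : ℝ) ≤ (mm b K : ℝ) *
      (av1 C1 (fun A => ((Ge lv s A).card : ℝ)) * Real.log N -
        ∑ k ∈ Finset.range K, av1 C1 (fun A => gn s (U k A) (Pairs lv s k A)) +
      Real.log ((Sub lv q s 0).card : ℝ) +
      (∑ k ∈ Finset.range K, (Real.log (Λ k) / (mm b (k + 1) : ℝ) + ((r : ℝ) + 1) +
        (q : ℝ) * Real.log ((q : ℝ) * D0 + 1)) +
      ∑ k ∈ Finset.range K, (mm b (k + 1) : ℝ) * (θ k * ((Dl : ℝ) + 1) * (q : ℝ) ^ 2))) := by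
    linarith [hlog, hit, hWW]
  exact le_of_mul_le_mul_left key hmR

end C0st
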