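import Pool.Agent.W_c0up_h86.H1

/-!
# MP_c0ce05_co, upper bounds: the objects of the potential, for a general state
(`gibbsHS` = `gibbsH` with the mass of the state instead of the mass of a position)
-/

set_option autoImplicit false

namespace C0st

open scoped Classical
open C0lo C0up

variable {N r : ℕ}

/-- the discounted mass of an edge set in a state -/
noncomputable def massS (s : St N r) (Z : Finset (Sym2 (Fin N))) : ℝ :=
  if Disjoint Z s.dead then (1 / 2) ^ (Z \ s.clm).card * (3 / 4) ^ (dbl s Z) else 0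

theorem massS_nonneg (s : St N r) (Q : Finset (Sym2 (Fin N))) : 0 ≤ massS s Q := by
  unfold massS
  split_ifs
  · positivity
  · exact le_rfl

theorem massS_eq_wt (s : St N r) (Q : Finset (Sym2 (Fin N))) :
    (2 : ℝ) ^ Q.card * massS s Q = wt s Q := by
  unfold massS wt
  by_cases h : Disjoint Q s.dead
  · rw [if_pos h, if_pos h, ← Finset.card_sdiff_add_card_inter Q s.clm, pow_add]
    have h2 : (2 : ℝ) ^ (Q \ s.clm).card * (1 / 2) ^ (Q \ s.clm).card = 1 := by
      rw [← mul_pow]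
      norm_num
    calc (2 : ℝ) ^ (Q \ s.clm).card * 2 ^ (Q ∩ s.clm).card *
          ((1 / 2) ^ (Q \ s.clm).card * (3 / 4) ^ dbl s Q)
        = ((2 : ℝ) ^ (Q \ s.clm).card * (1 / 2) ^ (Q \ s.clm).card) *
          (2 ^ (Q ∩ s.clm).card * (3 / 4) ^ dbl s Q) := by ring
      _ = _ := by rw [h2, one_mul]
  · rw [if_neg h, if_neg h, mul_zero]

theorem gibbsHS (hN : 1 ≤ N) {I : Type} [Fintype I] (lv b n : I → ℕ → ℕ) (q K : ℕ) :
    ∃ (ι : Type) (_ : Fintype ι) (Z : ι → Finset (Sym2 (Fin N))) (a : ι → ℝ),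
      (∀ i, 0 ≤ a i) ∧ ∑ i, a i * (1 / 2 : ℝ) ^ (Z i).card ≤ 1 / 4 ∧
      ∀ s : St N r, ∑ i, a i * massS s (Z i) < 1 → ∀ (i : I) (Sg D0 Dl : ℕ),
          Ok (lv i) Sg D0 Dl s → ∀ k < K, restr (lv i) k s ∈ Data N r (n i k) →
            ∑ om ∈ Om (lv i) (b i) q s k,
                rho (lv i) (b i) q s k om * wt s (QQ (lv i) (b i) s k om) ≤
              4 * (Fintype.card I : ℝ) * (K : ℝ) * ((Data N r (n i k)).card : ℝ) := by
  refine ⟨H1_ix N r b K, inferInstance,
    fun x => QQ (lv x.1) (b x.1) x.2.2.1 x.2.1 x.2.2.2, H1_a lv b n q K,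
    H1_a_nonneg lv b n q K, H1_sum hN lv b n q K, ?_⟩
  intro s hP i Sg D0 Dl hOk k hk hD
  set d := restr (lv i) k s with hddef
  set c : ℝ := 4 * (Fintype.card I : ℝ) * (K : ℝ) * ((Data N r (n i k)).card : ℝ) with hcdef
  have hI : (0 : ℝ) < Fintype.card I := by
    exact_mod_cast Fintype.card_pos_iff.2 ⟨i⟩
  have hK : (0 : ℝ) < K := by exact_mod_cast (by omega : 0 < K)
  have hDc : (0 : ℝ) < (Data N r (n i k)).card := by
    exact_mod_cast Finset.card_pos.2 ⟨d, hD⟩
  have hc0 : 0 < c := by positivity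
  let f : (Idx (b i) (k + 1) → Leaf N r) → H1_ix N r b K := fun om => ⟨i, ⟨k, hk⟩, (d, om)⟩
  have hf : Function.Injective f := by
    intro om om' h
    simp only [f, Sigma.mk.injEq, heq_eq_eq, true_and, Prod.mk.injEq] at h
    exact h
  have h1 : ∑ om ∈ Om (lv i) (b i) q s k, H1_a lv b n q K (f om) *
      massS s (QQ (lv i) (b i) d k om) ≤ ∑ x : H1_ix N r b K, H1_a lv b n q K x *
        massS s (QQ (lv x.1) (b x.1) x.2.2.1 x.2.1 x.2.2.2) := by
    have h2 : ∑ om ∈ Om (lv i) (b i) q s k, H1_a lv b n q K (f om) *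
        massS s (QQ (lv i) (b i) d k om) =
        ∑ x ∈ (Om (lv i) (b i) q s k).map ⟨f, hf⟩, H1_a lv b n q K x *
        massS s (QQ (lv x.1) (b x.1) x.2.2.1 x.2.1 x.2.2.2) := by
      rw [Finset.sum_map]
      rfl
    rw [h2]
    exact Finset.sum_le_univ_sum_of_nonneg fun x =>
      mul_nonneg (H1_a_nonneg lv b n q K x) (massS_nonneg s _)
  have h3 : ∑ om ∈ Om (lv i) (b i) q s k, H1_a lv b n q K (f om) *
      massS s (QQ (lv i) (b i) d k om) =
      (∑ om ∈ Om (lv i) (b i) q s k,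
        rho (lv i) (b i) q s k om * wt s (QQ (lv i) (b i) s k om)) / c := by
    rw [Finset.sum_div]
    refine Finset.sum_congr rfl fun om hom => ?_
    have hom' : om ∈ Om (lv i) (b i) q d k := by
      rw [hddef, Om_restr hOk]
      exact hom
    have h4 : H1_a lv b n q K (f om) = 2 ^ (QQ (lv i) (b i) d k om).card *
        rho (lv i) (b i) q d k om / c := by
      unfold H1_a
      rw [if_pos ⟨hD, hom'⟩]
    rw [h4, hddef, rho_restr hOk _ _ _ hom, QQ_restr hOk _ _ _ hom, ← massS_eq_wt]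
    ring
  have h5 := lt_of_le_of_lt h1 hP
  rw [h3, div_lt_one hc0] at h5
  exact h5.le

end C0st
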