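import Pool.Agent.W_c0up_h14.Defs

/-!
# MP_c0ce05_co, upper bound for `A(N)`: tree weights, standing hypotheses and small definitions
-/

set_option autoImplicit false

namespace C0st

open scoped Classical
open C0lo C0up

variable {N r : ℕ}

/-- the standing hypotheses on the thresholds, on the relation and on the turns -/
structure Ok (lv : ℕ → ℕ) (Sg D0 Dl : ℕ) (s : St N r) : Prop where
  /-- equidistant thresholds -/
  step : ∀ k, lv (k + 1) = lv k + Sg
  /-- the first threshold is large -/
  low : Sg + 4 ≤ lv 0
  /-- the relation respects the order by type, then by name -/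
  ord : ∀ p ∈ s.rel, s.ty p.1 < s.ty p.2 ∨ (s.ty p.1 = s.ty p.2 ∧ p.1 < p.2)
  /-- few successors -/
  deg : ∀ a, (s.rel.filter (fun p => p.1 = a)).card ≤ D0
  /-- every edge has at most one partner (`d.2` is the partner of `d.1`) -/
  din : ∀ d ∈ s.db, ∀ d' ∈ s.db, d.1 = d'.1 → d = d'
  /-- only edges of Maker have a partner -/
  dcl : ∀ d ∈ s.db, d.1 ∈ s.clm
  /-- every edge is the partner of few edges -/
  dpr : ∀ f, (s.db.filter (fun d => d.2 = f)).card ≤ Dl

/-- the reduction of a vertex set at step `k`: its old vertices and its new generators with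
their types (a vertex without type does not occur in the applications) -/
noncomputable def red (lv : ℕ → ℕ) (s : St N r) (k : ℕ) (S : Finset (Fin N)) : Leaf N r :=
  (S ∩ Vs lv s k, (Ge lv s S \ Vs lv s k).image
    (fun y => (y, (⟨min (s.ty y : ℕ) r, by omega⟩ : Fin (r + 1)))))

/-- average over independent members of `C` -/
noncomputable def av {ι : Type} [Fintype ι] (C : Finset (Finset (Fin N)))
    (F : (ι → Finset (Fin N)) → ℝ) : ℝ :=
  (∑ W ∈ Fintype.piFinset (fun _ : ι => C), F W) / (C.card : ℝ) ^ (Fintype.card ι)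

/-- average over `C` -/
noncomputable def av1 (C : Finset (Finset (Fin N))) (f : Finset (Fin N) → ℝ) : ℝ :=
  (∑ A ∈ C, f A) / (C.card : ℝ)

/-- number of edges of `U` whose partner is in `Q` -/
noncomputable def prt (s : St N r) (U Q : Finset (Sym2 (Fin N))) : ℕ :=
  (s.db.filter (fun d => d.1 ∈ U ∧ d.2 ∈ Q)).card

/-- the gain of the edge set `U` inside `Q` in natural units -/
noncomputable def gn (s : St N r) (U Q : Finset (Sym2 (Fin N))) : ℝ :=
  ((U ∩ s.clm).card : ℝ) * Real.log 2 - (prt s U Q : ℝ) * Real.log (4 / 3)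

/-- the possible data with at most `n` entries of each kind -/
noncomputable def Data (N r n : ℕ) : Finset (St N r) :=
  Finset.univ.filter (fun s => (Finset.univ.filter (fun x => s.ty x ≠ Fin.last (r + 1))).card ≤ n ∧
    s.rel.card ≤ n ∧ s.dead.card ≤ n ∧ s.clm.card ≤ n ∧ s.db.card ≤ n)

end C0st
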