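import Pool.Agent.W_c0up_h86.Base

/-!
# MP_c0ce05_co, upper bound: structure of old, dropped and generating vertices
-/

set_option autoImplicit false

namespace C0st

open scoped Classical
open C0lo C0up

variable {N r : ℕ}

theorem mem_Vs {lv : ℕ → ℕ} {s : St N r} {k : ℕ} {x : Fin N} :
    x ∈ Vs lv s k ↔ (s.ty x : ℕ) + 4 < lv k ∧ (s.ty x : ℕ) ≤ r := by
  unfold Vs
  rw [Finset.mem_filter, and_iff_right (Finset.mem_univ _)]

theorem mem_Dr {lv : ℕ → ℕ} {s : St N r} {S : Finset (Fin N)} {x : Fin N} :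
    x ∈ Dr lv s S ↔ x ∈ S ∧ x ∉ Vs lv s 0 ∧ ∃ a ∈ S, (a, x) ∈ s.rel := by
  unfold Dr
  rw [Finset.mem_filter]

theorem mem_Ge {lv : ℕ → ℕ} {s : St N r} {S : Finset (Fin N)} {x : Fin N} :
    x ∈ Ge lv s S ↔ x ∈ S ∧ x ∉ Vs lv s 0 ∧ x ∉ Dr lv s S := by
  unfold Ge
  rw [Finset.mem_filter]

theorem lv_mono {lv : ℕ → ℕ} {Sg D0 Dl : ℕ} {s : St N r} (h : Ok lv Sg D0 Dl s) {j k : ℕ}
    (hjk : j ≤ k) : lv j ≤ lv k := by
  induction k, hjk using Nat.le_induction with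
  | base => exact le_rfl
  | succ k _ ih => exact ih.trans (by rw [h.step k]; exact Nat.le_add_right _ _)

theorem Vs_mono {lv : ℕ → ℕ} {Sg D0 Dl : ℕ} {s : St N r} (h : Ok lv Sg D0 Dl s) {j k : ℕ}
    (hjk : j ≤ k) : Vs lv s j ⊆ Vs lv s k := by
  intro x hx
  rw [mem_Vs] at hx ⊢
  exact ⟨lt_of_lt_of_le hx.1 (lv_mono h hjk), hx.2⟩

theorem ty_le {lv : ℕ → ℕ} {Sg D0 Dl : ℕ} {s : St N r} (h : Ok lv Sg D0 Dl s) {a x : Fin N}
    (hax : (a, x) ∈ s.rel) : (s.ty a : ℕ) ≤ s.ty x := by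
  rcases h.ord _ hax with h1 | h1
  · exact (Fin.lt_def.1 h1).le
  · exact le_of_eq (congrArg Fin.val h1.1)

theorem Dr_inter {lv : ℕ → ℕ} {Sg D0 Dl : ℕ} {s : St N r} (h : Ok lv Sg D0 Dl s) (k : ℕ)
    (S : Finset (Fin N)) : Dr lv s (S ∩ Vs lv s k) = Dr lv s S ∩ Vs lv s k := by
  ext x
  rw [mem_Dr, Finset.mem_inter, Finset.mem_inter, mem_Dr]
  constructor
  · rintro ⟨h1, h2, a, ha, h3⟩
    exact ⟨⟨h1.1, h2, a, (Finset.mem_inter.1 ha).1, h3⟩, h1.2⟩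
  · rintro ⟨⟨h1, h2, a, ha, h3⟩, h4⟩
    refine ⟨⟨h1, h4⟩, h2, a, Finset.mem_inter.2 ⟨ha, ?_⟩, h3⟩
    rw [mem_Vs] at h4 ⊢
    have h5 := ty_le h h3
    exact ⟨by omega, by omega⟩

theorem Ge_inter {lv : ℕ → ℕ} {Sg D0 Dl : ℕ} {s : St N r} (h : Ok lv Sg D0 Dl s) (k : ℕ)
    (S : Finset (Fin N)) : Ge lv s (S ∩ Vs lv s k) = Ge lv s S ∩ Vs lv s k := by
  ext x
  rw [mem_Ge, Finset.mem_inter, Finset.mem_inter, mem_Ge, Dr_inter h, Finset.mem_inter]
  tauto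

theorem Ge_subset (lv : ℕ → ℕ) (s : St N r) (S : Finset (Fin N)) : Ge lv s S ⊆ S :=
  Finset.filter_subset _ _

theorem Ge_hub {lv : ℕ → ℕ} {s : St N r} {S : Finset (Fin N)} (hS : S ⊆ Vs lv s 0) :
    Ge lv s S = ∅ := by
  rw [Finset.eq_empty_iff_forall_notMem]
  intro x hx
  rw [mem_Ge] at hx
  exact hx.2.1 (hS hx.1)

theorem Pairs_subset (lv : ℕ → ℕ) (s : St N r) (k : ℕ) (S : Finset (Fin N)) :
    Pairs lv s k S ⊆ ed S :=
  Finset.filter_subset _ _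

theorem wt_nonneg (s : St N r) (Q : Finset (Sym2 (Fin N))) : 0 ≤ wt s Q := by
  unfold wt
  split_ifs
  · positivity
  · exact le_rfl

theorem wt_pos {s : St N r} {Q : Finset (Sym2 (Fin N))} (hQ : Disjoint Q s.dead) :
    0 < wt s Q := by
  unfold wt
  rw [if_pos hQ]
  positivity

theorem WW_nonneg (lv b : ℕ → ℕ) (s : St N r) (k : ℕ) (W : Idx b k → Finset (Fin N)) :
    0 ≤ WW lv b s k W := by
  induction k with
  | zero => exact zero_le_one
  | succ k ih =>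
    unfold WW
    exact mul_nonneg (wt_nonneg _ _) (Finset.prod_nonneg (fun j _ => ih _))

theorem WW_pos {lv b : ℕ → ℕ} {s : St N r} {k : ℕ} {W : Idx b k → Finset (Fin N)}
    (hW : ∀ i, Disjoint (ed (W i)) s.dead) : 0 < WW lv b s k W := by
  induction k with
  | zero => exact zero_lt_one
  | succ k ih =>
    unfold WW
    refine mul_pos (wt_pos ?_) (Finset.prod_pos (fun j _ => ih (fun i => hW (j, i))))
    rw [Finset.disjoint_biUnion_left]
    exact fun i _ => (hW i).mono_left (Pairs_subset _ _ _ _)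

theorem Z_nonneg (lv b : ℕ → ℕ) (q : ℕ) (s : St N r) (k : ℕ) : 0 ≤ Z lv b q s k := by
  unfold Z
  exact Finset.sum_nonneg (fun W _ => mul_nonneg (Finset.prod_nonneg (fun i _ => by positivity))
    (WW_nonneg _ _ _ _ _))

theorem rho_nonneg (lv b : ℕ → ℕ) (q : ℕ) (s : St N r) (k : ℕ)
    (om : Idx b (k + 1) → Leaf N r) : 0 ≤ rho lv b q s k om := by
  unfold rho
  refine mul_nonneg (Finset.prod_nonneg (fun j _ => div_nonneg (mul_nonneg
    (Finset.prod_nonneg (fun i _ => by positivity)) (WW_nonneg _ _ _ _ _)) (Z_nonneg _ _ _ _ _)))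
    (Finset.prod_nonneg (fun i _ => by positivity))

theorem card_Idx (b : ℕ → ℕ) (k : ℕ) : Fintype.card (Idx b k) = mm b k := by
  induction k with
  | zero => exact Fintype.card_unit
  | succ k ih =>
    unfold mm
    rw [Finset.prod_range_succ]
    have h1 : Fintype.card (Idx b (k + 1)) = Fintype.card (Fin (b k) × Idx b k) := rfl
    rw [h1, Fintype.card_prod, Fintype.card_fin, ih, mul_comm]
    rfl

theorem mm_succ (b : ℕ → ℕ) (k : ℕ) : mm b (k + 1) = mm b k * b k := by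
  unfold mm
  rw [Finset.prod_range_succ]

theorem mm_pos {b : ℕ → ℕ} (hb : ∀ k, 0 < b k) (k : ℕ) : 0 < mm b k :=
  Finset.prod_pos (fun i _ => hb i)

theorem av_nonneg_of {ι : Type} [Fintype ι] {C : Finset (Finset (Fin N))}
    {F : (ι → Finset (Fin N)) → ℝ} (hF : ∀ W ∈ Fintype.piFinset (fun _ : ι => C), 0 ≤ F W) :
    0 ≤ av C F :=
  div_nonneg (Finset.sum_nonneg hF) (by positivity)

end C0st
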