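import Pool.Agent.W_c0up_h86.B1

/-!
# MP_c0ce05_co, upper bound: the pairs charged at step `k` only depend on the reduction

`Pairs_eq_EE`: let `S` be a set of vertices of `Vs (k+1)`. Every edge `e = s(x, y)` of
`Pairs lv s k S` (say `ty x ≤ ty y`) either has both ends in `Vs k`, or `x` is in the hub `Vs 0`
and `y` is a generator of `S` outside `Vs k`:
by `Win`, `ty x + ty y + 5 ≤ lv (k+1)`. If `y ∉ Vs k` then (as `ty y ≤ r`, because
`y ∈ Vs (k+1)`) `lv k ≤ ty y + 4`, so `ty x + 5 + lv k ≤ lv (k+1) + 4 = lv k + Sg + 4`, so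
`ty x + 1 ≤ Sg`, hence `ty x + 4 < Sg + 4 ≤ lv 0` and `x` is in the hub; as `e` is `Fine`, `y` is
not in the hub (an end of `e` is outside the hub) and `y ∉ Dr lv s S`, so `y ∈ Ge lv s S`.
In the first case `e` is in `Pairs lv s k (S ∩ Vs k)` because `Dr lv s (S ∩ Vs k) =
Dr lv s S ∩ Vs k` (`Dr_inter`). Conversely an edge of `Pairs lv s k (S ∩ Vs k)` is in
`Pairs lv s k S` (same reason: both ends are in `Vs k`), and an edge `s(h, g.1)` of the second part
of `EE` (`g ∈ (red lv s k S).2`, so `g.1 ∈ Ge lv s S`, `g.1 ∉ Vs k`, `g.2 = ty g.1` as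
`ty g.1 ≤ r`) satisfies `Win` and `Fine`: `g.1` is not in the hub; if `x ∈ e` is in the hub then
`x = h`, and `y ∈ e`, `y ∈ Dr lv s S` is impossible for `y = h` (in the hub) and for `y = g.1`
(generator).

`Ge_card_red`: `Ge lv s S` is the disjoint union of `Ge lv s S ∩ Vs k = Ge lv s (S ∩ Vs k)`
(`Ge_inter`) and `Ge lv s S \ Vs k`, and `y ↦ (y, _)` is injective.
-/

set_option autoImplicit false

namespace C0st

open scoped Classical
open C0lo C0up

variable {N r : ℕ}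

private theorem B2_dir {lv : ℕ → ℕ} {Sg D0 Dl : ℕ} {s : St N r} (h : Ok lv Sg D0 Dl s) (k : ℕ)
    {S : Finset (Fin N)} (hS : S ⊆ Vs lv s (k + 1)) {x y : Fin N} (hx : x ∈ S) (hy : y ∈ S)
    (hxy : x ≠ y) (hle : (s.ty x : ℕ) ≤ s.ty y) (hW : Win lv k ((s.ty x : ℕ) + (s.ty y : ℕ)))
    (hF : Fine lv s S s(x, y)) : s(x, y) ∈ EE lv s k (red lv s k S) := by
  obtain ⟨hy1, hy2⟩ := mem_Vs.1 (hS hy)
  obtain ⟨⟨z, hz, hz0⟩, hno⟩ := hF
  unfold EE red
  rw [Finset.mem_union]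
  by_cases hyk : y ∈ Vs lv s k
  · left
    have hxk : x ∈ Vs lv s k := by
      rw [mem_Vs] at hyk ⊢
      exact ⟨by omega, by omega⟩
    unfold Pairs
    rw [Finset.mem_filter, mem_ed]
    refine ⟨⟨?_, ?_⟩, hW, ⟨z, hz, hz0⟩, ?_⟩
    · intro v hv
      rcases Sym2.mem_iff.1 hv with rfl | rfl
      · exact Finset.mem_inter.2 ⟨hx, hxk⟩
      · exact Finset.mem_inter.2 ⟨hy, hyk⟩
    · rwa [Sym2.mk_isDiag_iff]
    · rintro ⟨u, hu, v, hv, hu0, hv0⟩
      rw [Dr_inter h, Finset.mem_inter] at hv0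
      exact hno ⟨u, hu, v, hv, hu0, hv0.1⟩
  · right
    have h1 : lv k ≤ (s.ty y : ℕ) + 4 := by
      by_contra hc
      exact hyk (mem_Vs.2 ⟨by omega, hy2⟩)
    obtain ⟨hW1, hW2⟩ := hW
    rw [h.step k] at hW2
    have hlow := h.low
    have hx0 : x ∈ Vs lv s 0 := mem_Vs.2 ⟨by omega, by omega⟩
    have hxk : x ∈ Vs lv s k := Vs_mono h (Nat.zero_le k) hx0
    have hy0 : y ∉ Vs lv s 0 := by
      rcases Sym2.mem_iff.1 hz with rfl | rfl
      · exact absurd hx0 hz0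
      · exact hz0
    have hyD : y ∉ Dr lv s S := fun hD =>
      hno ⟨x, Sym2.mem_mk_left _ _, y, Sym2.mem_mk_right _ _, hx0, hD⟩
    rw [Finset.mem_filter]
    refine ⟨Finset.mem_univ _, ?_, x, Finset.mem_inter.2 ⟨hx, hxk⟩, hx0,
      (y, (⟨min (s.ty y : ℕ) r, by omega⟩ : Fin (r + 1))), ?_, rfl, ?_⟩
    · rwa [Sym2.mk_isDiag_iff]
    · exact Finset.mem_image_of_mem _ (Finset.mem_sdiff.2 ⟨mem_Ge.2 ⟨hy, hy0, hyD⟩, hyk⟩)
    · have hm : min (s.ty y : ℕ) r = s.ty y := min_eq_left hy2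
      change Win lv k ((s.ty x : ℕ) + min (s.ty y : ℕ) r)
      rw [hm]
      exact ⟨hW1, by rw [h.step k]; exact hW2⟩

theorem Pairs_eq_EE {lv : ℕ → ℕ} {Sg D0 Dl : ℕ} {s : St N r} (h : Ok lv Sg D0 Dl s) (k : ℕ)
    {S : Finset (Fin N)} (hS : S ⊆ Vs lv s (k + 1)) :
    Pairs lv s k S = EE lv s k (red lv s k S) := by
  apply Finset.Subset.antisymm
  · intro e he
    unfold Pairs at he
    rw [Finset.mem_filter, mem_ed] at he
    obtain ⟨⟨hmem, hd⟩, hW, hF⟩ := he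
    induction e using Sym2.ind with
    | _ x y =>
      have hx : x ∈ S := hmem x (Sym2.mem_mk_left _ _)
      have hy : y ∈ S := hmem y (Sym2.mem_mk_right _ _)
      have hxy : x ≠ y := by rwa [Sym2.mk_isDiag_iff] at hd
      have hW' : Win lv k ((s.ty x : ℕ) + (s.ty y : ℕ)) := hW
      rcases le_total (s.ty x : ℕ) (s.ty y) with hle | hle
      · exact B2_dir h k hS hx hy hxy hle hW' hF
      · rw [Sym2.eq_swap] at hF ⊢
        rw [Nat.add_comm] at hW'
        exact B2_dir h k hS hy hx hxy.symm hle hW' hF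
  · intro e he
    unfold EE red at he
    rw [Finset.mem_union] at he
    unfold Pairs
    rw [Finset.mem_filter, mem_ed]
    rcases he with he | he
    · unfold Pairs at he
      rw [Finset.mem_filter, mem_ed] at he
      obtain ⟨⟨hmem, hd⟩, hW, hF, hno⟩ := he
      refine ⟨⟨fun v hv => (Finset.mem_inter.1 (hmem v hv)).1, hd⟩, hW, hF, ?_⟩
      rintro ⟨u, hu, v, hv, hu0, hv0⟩
      refine hno ⟨u, hu, v, hv, hu0, ?_⟩
      rw [Dr_inter h]
      exact Finset.mem_inter.2 ⟨hv0, (Finset.mem_inter.1 (hmem v hv)).2⟩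
    · rw [Finset.mem_filter] at he
      obtain ⟨-, hd, x, hx, hx0, g, hg, rfl, hW⟩ := he
      rw [Finset.mem_image] at hg
      obtain ⟨y, hy, rfl⟩ := hg
      rw [Finset.mem_sdiff, mem_Ge] at hy
      obtain ⟨⟨hyS, hy0, hyD⟩, hyk⟩ := hy
      obtain ⟨-, hy2⟩ := mem_Vs.1 (hS hyS)
      have hm : min (s.ty y : ℕ) r = s.ty y := min_eq_left hy2
      have hW' : Win lv k ((s.ty x : ℕ) + min (s.ty y : ℕ) r) := hW
      rw [hm] at hW'
      refine ⟨⟨?_, hd⟩, hW', ⟨y, Sym2.mem_mk_right _ _, hy0⟩, ?_⟩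
      · intro v hv
        rcases Sym2.mem_iff.1 hv with rfl | rfl
        · exact (Finset.mem_inter.1 hx).1
        · exact hyS
      · rintro ⟨u, hu, v, hv, hu0, hv0⟩
        rcases Sym2.mem_iff.1 hv with rfl | rfl
        · exact (mem_Dr.1 hv0).2.1 hx0
        · exact hyD hv0

theorem Ge_card_red {lv : ℕ → ℕ} {Sg D0 Dl : ℕ} {s : St N r} (h : Ok lv Sg D0 Dl s) (k : ℕ)
    (S : Finset (Fin N)) :
    (Ge lv s S).card = (Ge lv s (red lv s k S).1).card + (red lv s k S).2.card := by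
  unfold red
  rw [Finset.card_image_of_injective, Ge_inter h, Finset.card_inter_add_card_sdiff]
  intro y y' hyy
  exact (Prod.mk.inj hyy).1

end C0st
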