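import Pool.Agent.W_c0up_h86.B1

/-!
# MP_c0ce05_co, upper bound: the weights only depend on the old vertices

`Pairs_inter`: let all vertices of `S` have a type `≤ r` and `j < k'`. An edge `e = s(x, y)` of
`Pairs lv s j S` has `ty x + ty y + 5 ≤ lv (j+1) ≤ lv k'` (`Win`, `lv_mono`), so both ends are in
`Vs lv s k'` (`mem_Vs`: `ty + 4 < lv k'` and `ty ≤ r`). `Fine lv s S e` is equivalent to
`Fine lv s (S ∩ Vs k') e` for such `e`, because `Dr lv s (S ∩ Vs k') = Dr lv s S ∩ Vs k'`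
(`Dr_inter`) and the ends of `e` are in `Vs k'`; conversely the edges of
`Pairs lv s j (S ∩ Vs k')` have both ends in `Vs k'`.

`WW_inter`: induction on `k` (for all `k' ≥ k`), `WW` unfolds to `wt` of the union of the
`Pairs lv s k (W i)` (use `Pairs_inter` with `j = k < k + 1 ≤ k'`) times the product of the
children (induction hypothesis).
-/

set_option autoImplicit false

namespace C0st

open scoped Classical
open C0lo C0up

variable {N r : ℕ}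

theorem B3_mem_Pairs {lv : ℕ → ℕ} {s : St N r} {j : ℕ} {S : Finset (Fin N)}
    {e : Sym2 (Fin N)} : e ∈ Pairs lv s j S ↔
      ((∀ v ∈ e, v ∈ S) ∧ ¬ e.IsDiag) ∧ Win lv j (tau s e) ∧ Fine lv s S e := by
  unfold Pairs
  rw [Finset.mem_filter, mem_ed]

theorem B3_ends {lv : ℕ → ℕ} {Sg D0 Dl : ℕ} {s : St N r} (h : Ok lv Sg D0 Dl s) {j k' : ℕ}
    (hjk : j < k') {e : Sym2 (Fin N)} (hw : Win lv j (tau s e))
    (hr : ∀ v ∈ e, (s.ty v : ℕ) ≤ r) : ∀ v ∈ e, v ∈ Vs lv s k' := by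
  induction e using Sym2.ind with
  | _ x y =>
    have h1 : tau s s(x, y) = (s.ty x : ℕ) + (s.ty y : ℕ) := rfl
    have h2 := hw.2
    rw [h1] at h2
    have h3 : lv (j + 1) ≤ lv k' := lv_mono h hjk
    intro v hv
    have h4 := hr v hv
    rw [mem_Vs]
    rcases Sym2.mem_iff.1 hv with h5 | h5
    · subst h5
      exact ⟨by omega, h4⟩
    · subst h5
      exact ⟨by omega, h4⟩

theorem B3_Fine {lv : ℕ → ℕ} {Sg D0 Dl : ℕ} {s : St N r} (h : Ok lv Sg D0 Dl s) {k' : ℕ}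
    {S : Finset (Fin N)} {e : Sym2 (Fin N)} (he : ∀ v ∈ e, v ∈ Vs lv s k') :
    Fine lv s S e ↔ Fine lv s (S ∩ Vs lv s k') e := by
  unfold Fine
  rw [Dr_inter h]
  constructor
  · rintro ⟨h1, h2⟩
    refine ⟨h1, ?_⟩
    rintro ⟨x, hx, y, hy, h3, h4⟩
    exact h2 ⟨x, hx, y, hy, h3, (Finset.mem_inter.1 h4).1⟩
  · rintro ⟨h1, h2⟩
    refine ⟨h1, ?_⟩
    rintro ⟨x, hx, y, hy, h3, h4⟩
    exact h2 ⟨x, hx, y, hy, h3, Finset.mem_inter.2 ⟨h4, he y hy⟩⟩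

theorem Pairs_inter {lv : ℕ → ℕ} {Sg D0 Dl : ℕ} {s : St N r} (h : Ok lv Sg D0 Dl s) {j k' : ℕ}
    (hjk : j < k') {S : Finset (Fin N)} (hS : ∀ x ∈ S, (s.ty x : ℕ) ≤ r) :
    Pairs lv s j S = Pairs lv s j (S ∩ Vs lv s k') := by
  ext e
  rw [B3_mem_Pairs, B3_mem_Pairs]
  constructor
  · rintro ⟨⟨h1, h2⟩, h3, h4⟩
    have he := B3_ends h hjk h3 (fun v hv => hS v (h1 v hv))
    exact ⟨⟨fun v hv => Finset.mem_inter.2 ⟨h1 v hv, he v hv⟩, h2⟩, h3, (B3_Fine h he).1 h4⟩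
  · rintro ⟨⟨h1, h2⟩, h3, h4⟩
    have he : ∀ v ∈ e, v ∈ Vs lv s k' := fun v hv => (Finset.mem_inter.1 (h1 v hv)).2
    exact ⟨⟨fun v hv => (Finset.mem_inter.1 (h1 v hv)).1, h2⟩, h3, (B3_Fine h he).2 h4⟩

theorem WW_inter {lv : ℕ → ℕ} {Sg D0 Dl : ℕ} {s : St N r} (h : Ok lv Sg D0 Dl s) (b : ℕ → ℕ)
    {k k' : ℕ} (hk : k ≤ k') {W : Idx b k → Finset (Fin N)}
    (hW : ∀ i, ∀ x ∈ W i, (s.ty x : ℕ) ≤ r) :
    WW lv b s k W = WW lv b s k (fun i => W i ∩ Vs lv s k') := by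
  induction k with
  | zero => rfl
  | succ k ih =>
    have h1 : ∀ i : Idx b (k + 1), Pairs lv s k (W i) = Pairs lv s k (W i ∩ Vs lv s k') :=
      fun i => Pairs_inter h (by omega) (hW i)
    have h2 : ∀ j : Fin (b k), WW lv b s k (fun i => W (j, i)) =
        WW lv b s k (fun i => W (j, i) ∩ Vs lv s k') :=
      fun j => ih (by omega) (fun i => hW (j, i))
    unfold WW
    simp only [h1]
    congr 1
    exact Finset.prod_congr rfl (fun j _ => h2 j)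

end C0st
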