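import Pool.Agent.W_c0up_h14.DefsG
import Pool.Agent.W_c0up_h86.B1

/-!
# MP_c0ce05_co, upper bounds: counting discounted pairs (B4')

`Mu` = mutual arrows inside `A`, `Bl g k` = ball of radius `k` around `g` in this graph. Balls of
radius `k` with `2 k ≤ n` around different generators are disjoint and avoid the hub. A generator
is small if its ball has at most `k` elements; then the ball contains a set closed under `Mu`. For
two disjoint closed sets not every edge between them is discounted inside `A` and not exceptional,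
because `p` would map the set of these edges into itself (`blockM`).
-/

set_option autoImplicit false

namespace C0st

open scoped Classical
open C0lo

variable {N r : ℕ}

/-- mutual arrows inside `A` -/
def Mu (P : GP N) (A R : Finset (Fin N)) (a b : Fin N) : Prop :=
  a ∈ A ∧ b ∈ A ∧ Ar P R a b ∧ Ar P R b a

/-- ball of radius `k` in the mutual graph of `A` -/
noncomputable def Bl (P : GP N) (A R : Finset (Fin N)) (g : Fin N) : ℕ → Finset (Fin N)
  | 0 => {g}
  | (k + 1) => Bl P A R g k ∪ Finset.univ.filter (fun b => ∃ a ∈ Bl P A R g k, Mu P A R a b)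

/-- closed under mutual arrows -/
def Cl (P : GP N) (A R : Finset (Fin N)) (K : Finset (Fin N)) : Prop :=
  ∀ a ∈ K, ∀ b, Mu P A R a b → b ∈ K

theorem Rch_mono {P : GP N} {R : Finset (Fin N)} {m n : ℕ} (hmn : m ≤ n) {a b : Fin N}
    (h : Rch P R m a b) : Rch P R n a b := by
  induction n, hmn using Nat.le_induction with
  | base => exact h
  | succ n _ ih => exact Or.inl ih

theorem Rch_trans {P : GP N} {R : Finset (Fin N)} {m : ℕ} {a b : Fin N}
    (h : Rch P R m a b) {n : ℕ} {c : Fin N} (h' : Rch P R n b c) : Rch P R (m + n) a c := by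
  induction n generalizing c with
  | zero =>
    have h1 : b = c := h'
    subst h1
    exact h
  | succ n ih =>
    rcases h' with h1 | ⟨d, h1, h2⟩
    · exact Or.inl (ih h1)
    · exact Or.inr ⟨d, ih h1, h2⟩

theorem Rch_one {P : GP N} {R : Finset (Fin N)} {a b : Fin N} (h : Ar P R a b) :
    Rch P R 1 a b := Or.inr ⟨a, rfl, h⟩

theorem Bl_succ (P : GP N) (A R : Finset (Fin N)) (g : Fin N) (k : ℕ) :
    Bl P A R g (k + 1) =
      Bl P A R g k ∪ Finset.univ.filter (fun b => ∃ a ∈ Bl P A R g k, Mu P A R a b) := rfl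

theorem Bl_mono_succ (P : GP N) (A R : Finset (Fin N)) (g : Fin N) (k : ℕ) :
    Bl P A R g k ⊆ Bl P A R g (k + 1) := by
  rw [Bl_succ]
  exact Finset.subset_union_left

theorem Bl_mono (P : GP N) (A R : Finset (Fin N)) (g : Fin N) {j k : ℕ} (h : j ≤ k) :
    Bl P A R g j ⊆ Bl P A R g k := by
  induction k, h using Nat.le_induction with
  | base => exact Finset.Subset.refl _
  | succ k _ ih => exact ih.trans (Bl_mono_succ P A R g k)

theorem mem_Bl_self (P : GP N) (A R : Finset (Fin N)) (g : Fin N) (k : ℕ) :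
    g ∈ Bl P A R g k :=
  Bl_mono P A R g (Nat.zero_le k) (Finset.mem_singleton_self g)

theorem Bl_sub (P : GP N) (A R : Finset (Fin N)) {g : Fin N} (hg : g ∈ A) (k : ℕ) :
    Bl P A R g k ⊆ A := by
  induction k with
  | zero => exact Finset.singleton_subset_iff.2 hg
  | succ k ih =>
    rw [Bl_succ]
    refine Finset.union_subset ih ?_
    intro b hb
    obtain ⟨a, _, h2⟩ := (Finset.mem_filter.1 hb).2
    exact h2.2.1

theorem Bl_rch (P : GP N) (A R : Finset (Fin N)) {g : Fin N} {k : ℕ} {b : Fin N}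
    (hb : b ∈ Bl P A R g k) : Rch P R k g b ∧ Rch P R k b g := by
  induction k generalizing b with
  | zero =>
    have h1 : b = g := Finset.mem_singleton.1 hb
    exact ⟨h1.symm, h1⟩
  | succ k ih =>
    rw [Bl_succ, Finset.mem_union] at hb
    rcases hb with h1 | h1
    · exact ⟨Or.inl (ih h1).1, Or.inl (ih h1).2⟩
    · obtain ⟨a, h2, h3⟩ := (Finset.mem_filter.1 h1).2
      refine ⟨Or.inr ⟨a, (ih h2).1, h3.2.2.1⟩, ?_⟩
      have h4 := Rch_trans (Rch_one h3.2.2.2) (ih h2).2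
      rw [Nat.add_comm] at h4
      exact h4

theorem Bl_closed (P : GP N) (A R : Finset (Fin N)) {g : Fin N} {j : ℕ}
    (h : Bl P A R g (j + 1) = Bl P A R g j) : Cl P A R (Bl P A R g j) := by
  intro a ha b hb
  rw [← h, Bl_succ]
  exact Finset.mem_union_right _ (Finset.mem_filter.2 ⟨Finset.mem_univ _, a, ha, hb⟩)

theorem Bl_grow (P : GP N) (A R : Finset (Fin N)) {g : Fin N} {k : ℕ}
    (h : ∀ j < k, Bl P A R g (j + 1) ≠ Bl P A R g j) : k + 1 ≤ (Bl P A R g k).card := by
  induction k with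
  | zero => exact (Finset.card_singleton g).ge
  | succ k ih =>
    have h1 := ih (fun j hj => h j (Nat.lt_succ_of_lt hj))
    have h2 : Bl P A R g k ⊂ Bl P A R g (k + 1) :=
      (Finset.ssubset_iff_subset_ne).2 ⟨Bl_mono_succ P A R g k,
        (h k (Nat.lt_succ_self k)).symm⟩
    exact Nat.succ_le_of_lt (lt_of_le_of_lt h1 (Finset.card_lt_card h2))

theorem Bl_small (P : GP N) (A R : Finset (Fin N)) {g : Fin N} {k : ℕ}
    (h : (Bl P A R g k).card ≤ k) : ∃ K : Finset (Fin N), g ∈ K ∧ K ⊆ Bl P A R g k ∧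
      Cl P A R K := by
  by_contra hcon
  have h1 : ∀ j < k, Bl P A R g (j + 1) ≠ Bl P A R g j := by
    intro j hj h2
    exact hcon ⟨Bl P A R g j, mem_Bl_self P A R g j, Bl_mono P A R g hj.le, Bl_closed P A R h2⟩
  have := Bl_grow P A R h1
  omega

/-- an edge whose partner is inside `A` -/
def Dsc (P : GP N) (A : Finset (Fin N)) (e : Sym2 (Fin N)) : Prop :=
  ∃ g, (e, g) ∈ P.db ∧ ∀ x ∈ g, x ∈ A

/-- exceptional edges -/
def Ex (P : GP N) (A R : Finset (Fin N)) (e : Sym2 (Fin N)) : Prop :=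
  ∃ y w, e = s(y, w) ∧ Exc P A R y w

theorem blockM {P : GP N} {Dl : ℕ} (hP : P.Valid Dl) {A R K K' : Finset (Fin N)}
    (hK : Cl P A R K) (hK' : Cl P A R K') (hKA : K ⊆ A) (hKA' : K' ⊆ A) (hd : Disjoint K K')
    (hn : K.Nonempty) (hn' : K'.Nonempty) :
    ∃ x ∈ K, ∃ y ∈ K', ¬ (Dsc P A s(x, y) ∧ ¬ Ex P A R s(x, y)) := by
  by_contra hcon
  push Not at hcon
  obtain ⟨t, ht⟩ := hP.acyc
  obtain ⟨z, hz, hmax⟩ := Finset.exists_max_image (K ×ˢ K') (fun z => t s(z.1, z.2))
    (hn.product hn')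
  obtain ⟨x, y⟩ := z
  rw [Finset.mem_product] at hz
  have hx : x ∈ K := hz.1
  have hy : y ∈ K' := hz.2
  obtain ⟨⟨g, hg, hgA⟩, hex⟩ := hcon x hx y hy
  have h1 : ∃ u ∈ g, u ∈ K := by
    by_cases hxg : x ∈ g
    · exact ⟨x, hxg, hx⟩
    · by_contra h2
      refine hex ⟨x, y, rfl, g, hg, hgA, hxg, ?_⟩
      rintro ⟨u, hu, h3, h4⟩
      exact h2 ⟨u, hu, hK x hx u ⟨hKA hx, hgA u hu, h4, h3⟩⟩
  have h2 : ∃ v ∈ g, v ∈ K' := by
    by_cases hyg : y ∈ g
    · exact ⟨y, hyg, hy⟩
    · by_contra h2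
      have hg' : (s(y, x), g) ∈ P.db := by
        rw [Sym2.eq_swap]
        exact hg
      refine hex ⟨y, x, Sym2.eq_swap, g, hg', hgA, hyg, ?_⟩
      rintro ⟨u, hu, h3, h4⟩
      exact h2 ⟨u, hu, hK' y hy u ⟨hKA' hy, hgA u hu, h4, h3⟩⟩
  obtain ⟨u, hu, huK⟩ := h1
  obtain ⟨v, hv, hvK⟩ := h2
  have huv : u ≠ v := fun h => Finset.disjoint_left.1 hd huK (h ▸ hvK)
  have hguv : g = s(u, v) := (Sym2.mem_and_mem_iff huv).1 ⟨hu, hv⟩
  have h5 := hmax (u, v) (Finset.mem_product.2 ⟨huK, hvK⟩)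
  have h6 := ht _ hg
  rw [hguv] at h6
  exact absurd h6 (not_lt.2 h5)

end C0st
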