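import Pool.Agent.W_c0up_h86.C1

/-!
# MP_c0ce05_co, upper bounds: counting discounted pairs (B4'), state version
-/

set_option autoImplicit false

namespace C0st

open scoped Classical
open C0lo

variable {N r : ℕ}

/-- the relation of `s` is given by the order and by paths of at most `n` arrows -/
def RelOk (s : St N r) (P : GP N) (R : Finset (Fin N)) (n : ℕ) : Prop :=
  ∀ a b, (a, b) ∈ s.rel ↔ Bef s.ty a b ∧ Rch P R n a b

theorem stG_rel (M : ℝ) (P : GP N) (C : Finset (Finset (Fin N))) (R : Finset (Fin N)) (n : ℕ) :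
    RelOk (stG M r P C R n) P R n := by
  intro a b
  unfold stG
  rw [Finset.mem_filter, and_iff_right (Finset.mem_univ _)]

theorem Bef_total (ty : Fin N → Fin (r + 2)) {a b : Fin N} (h : a ≠ b) :
    Bef ty a b ∨ Bef ty b a := by
  unfold Bef
  rcases lt_trichotomy (ty a) (ty b) with h1 | h1 | h1
  · exact Or.inl (Or.inl h1)
  · rcases lt_or_gt_of_ne h with h2 | h2
    · exact Or.inl (Or.inr ⟨h1, h2⟩)
    · exact Or.inr (Or.inr ⟨h1.symm, h2⟩)
  · exact Or.inr (Or.inl h1)

theorem Bef_Vs {lv : ℕ → ℕ} {s : St N r} {a b : Fin N} (ha : a ∈ Vs lv s 0)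
    (hb : b ∉ Vs lv s 0) : Bef s.ty a b := by
  rw [mem_Vs] at ha hb
  refine Or.inl ?_
  rw [Fin.lt_def]
  by_contra h
  exact hb ⟨by omega, by omega⟩

/-- a generator is not reached from a vertex of `A` which comes before -/
theorem Ge_not {lv : ℕ → ℕ} {s : St N r} {P : GP N} {R : Finset (Fin N)} {n : ℕ}
    (hr : RelOk s P R n) {A : Finset (Fin N)} {a g : Fin N}
    (hg : g ∈ Ge lv s A) (ha : a ∈ A)
    (hb : Bef s.ty a g) : ¬ Rch P R n a g := by
  intro h
  rw [mem_Ge] at hg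
  refine hg.2.2 ?_
  rw [mem_Dr]
  exact ⟨hg.1, hg.2.1, a, ha, (hr a g).2 ⟨hb, h⟩⟩

theorem Ball_hub {lv : ℕ → ℕ} {s : St N r} {P : GP N}
    {R : Finset (Fin N)} {n k : ℕ} (hr : RelOk s P R n) (hk : 2 * k ≤ n) {A : Finset (Fin N)}
    {g x : Fin N} (hg : g ∈ Ge lv s A) (hx : x ∈ Bl P A R g k) :
    x ∈ A ∧ x ∉ Vs lv s 0 := by
  have hgA : g ∈ A := (mem_Ge.1 hg).1
  have hxA := Bl_sub P A R hgA k hx
  refine ⟨hxA, fun hxV => ?_⟩
  refine Ge_not hr hg hxA (Bef_Vs hxV (mem_Ge.1 hg).2.1) ?_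
  exact Rch_mono (by omega) (Bl_rch P A R hx).2

theorem Ball_disj {lv : ℕ → ℕ} {s : St N r} {P : GP N}
    {R : Finset (Fin N)} {n k : ℕ} (hr : RelOk s P R n) (hk : 2 * k ≤ n) {A : Finset (Fin N)}
    {g g' : Fin N} (hg : g ∈ Ge lv s A) (hg' : g' ∈ Ge lv s A)
    (hne : g ≠ g') : Disjoint (Bl P A R g k) (Bl P A R g' k) := by
  rw [Finset.disjoint_left]
  intro x hx hx'
  have h1 := Bl_rch P A R hx
  have h2 := Bl_rch P A R hx'
  have h3 : Rch P R n g g' := Rch_mono (by omega) (Rch_trans h1.1 h2.2)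
  have h4 : Rch P R n g' g := Rch_mono (by omega) (Rch_trans h2.1 h1.2)
  rcases Bef_total s.ty hne with h5 | h5
  · exact Ge_not hr hg' (mem_Ge.1 hg).1 h5 h3
  · exact Ge_not hr hg (mem_Ge.1 hg').1 h5 h4

/-- few generators have a large ball -/
theorem large_few (lv : ℕ → ℕ) {s : St N r} {P : GP N}
    {R : Finset (Fin N)} {n k : ℕ} (hr : RelOk s P R n) (hk : 2 * k ≤ n) (A : Finset (Fin N)) :
    (k + 1) * ((Ge lv s A).filter
      (fun g => ¬ (Bl P A R g k).card ≤ k)).card ≤ A.card := by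
  set G' := (Ge lv s A).filter (fun g => ¬ (Bl P A R g k).card ≤ k) with hG'
  have h1 : (G'.biUnion (fun g => Bl P A R g k)).card = ∑ g ∈ G', (Bl P A R g k).card := by
    refine Finset.card_biUnion (fun g hg g' hg' hne => ?_)
    exact Ball_disj hr hk (Finset.mem_filter.1 hg).1 (Finset.mem_filter.1 hg').1 hne
  have h2 : G'.biUnion (fun g => Bl P A R g k) ⊆ A := by
    intro x hx
    obtain ⟨g, hg, hxg⟩ := Finset.mem_biUnion.1 hx
    exact Bl_sub P A R (mem_Ge.1 (Finset.mem_filter.1 hg).1).1 k hxg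
  have h3 : ∑ _g ∈ G', (k + 1) ≤ ∑ g ∈ G', (Bl P A R g k).card := by
    refine Finset.sum_le_sum (fun g hg => ?_)
    have := (Finset.mem_filter.1 hg).2
    omega
  rw [Finset.sum_const, smul_eq_mul] at h3
  calc (k + 1) * G'.card = G'.card * (k + 1) := Nat.mul_comm _ _
    _ ≤ ∑ g ∈ G', (Bl P A R g k).card := h3
    _ = (G'.biUnion (fun g => Bl P A R g k)).card := h1.symm
    _ ≤ A.card := Finset.card_le_card h2

/-- pairs of small generators give different pairs outside the hub which are not (discounted and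
not exceptional) -/
theorem small_pairs (lv : ℕ → ℕ) {s : St N r} {P : GP N} {Dl : ℕ} (hP : P.Valid Dl)
    {R : Finset (Fin N)} {n k : ℕ} (hr : RelOk s P R n) (hk : 2 * k ≤ n)
    (A : Finset (Fin N)) :
    (((Ge lv s A).filter (fun g => (Bl P A R g k).card ≤ k)).card).choose 2 ≤
      ((ed (A \ Vs lv s 0)).filter
        (fun e => ¬ (Dsc P A e ∧ ¬ Ex P A R e))).card := by
  set G' := (Ge lv s A).filter (fun g => (Bl P A R g k).card ≤ k) with hG'
  have hGe : ∀ g ∈ G', g ∈ Ge lv s A := fun g hg => (Finset.mem_filter.1 hg).1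
  have hK : ∀ g : Fin N, ∃ K : Finset (Fin N), g ∈ G' → (g ∈ K ∧ K ⊆ Bl P A R g k ∧
      Cl P A R K) := by
    intro g
    by_cases hg : g ∈ G'
    · obtain ⟨K, h1, h2, h3⟩ := Bl_small P A R (Finset.mem_filter.1 hg).2
      exact ⟨K, fun _ => ⟨h1, h2, h3⟩⟩
    · exact ⟨∅, fun h => absurd h hg⟩
  choose K hK using hK
  have hdis : ∀ g ∈ G', ∀ g' ∈ G', ∀ x, x ∈ K g → x ∈ K g' → g = g' := by
    intro g hg g' hg' x hx hx'
    by_contra hne
    exact Finset.disjoint_left.1 (Ball_disj hr hk (hGe g hg) (hGe g' hg') hne)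
      ((hK g hg).2.1 hx) ((hK g' hg').2.1 hx')
  have hf : ∀ e : Sym2 (Fin N), ∃ b : Sym2 (Fin N), e ∈ ed G' →
      (b ∈ (ed (A \ Vs lv s 0)).filter
        (fun e => ¬ (Dsc P A e ∧ ¬ Ex P A R e)) ∧
        (∀ z ∈ e, ∃ x ∈ b, x ∈ K z) ∧ (∀ x ∈ b, ∃ z ∈ e, x ∈ K z)) := by
    intro e
    by_cases he : e ∈ ed G'
    · induction e using Sym2.ind with
      | _ g g' =>
        rw [mem_ed] at he
        have hg : g ∈ G' := he.1 g (Sym2.mem_mk_left g g')
        have hg' : g' ∈ G' := he.1 g' (Sym2.mem_mk_right g g')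
        have hne : g ≠ g' := fun h => he.2 (Sym2.mk_isDiag_iff.2 h)
        have hsub : K g ⊆ A \ Vs lv s 0 := by
          intro x hx
          have := Ball_hub hr hk (hGe g hg) ((hK g hg).2.1 hx)
          exact Finset.mem_sdiff.2 this
        have hsub' : K g' ⊆ A \ Vs lv s 0 := by
          intro x hx
          have := Ball_hub hr hk (hGe g' hg') ((hK g' hg').2.1 hx)
          exact Finset.mem_sdiff.2 this
        have hd : Disjoint (K g) (K g') := by
          rw [Finset.disjoint_left]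
          intro x hx hx'
          exact hne (hdis g hg g' hg' x hx hx')
        obtain ⟨x, hx, y, hy, hxy⟩ := blockM hP (hK g hg).2.2 (hK g' hg').2.2
          (hsub.trans Finset.sdiff_subset) (hsub'.trans Finset.sdiff_subset) hd
          ⟨g, (hK g hg).1⟩ ⟨g', (hK g' hg').1⟩
        refine ⟨s(x, y), fun _ => ⟨Finset.mem_filter.2 ⟨?_, hxy⟩, ?_, ?_⟩⟩
        · rw [mem_ed]
          refine ⟨?_, ?_⟩
          · intro v hv
            rcases Sym2.mem_iff.1 hv with h | h
            · exact h ▸ hsub hx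
            · exact h ▸ hsub' hy
          · intro h
            rw [Sym2.mk_isDiag_iff] at h
            exact Finset.disjoint_left.1 hd hx (h ▸ hy)
        · intro z hz
          rcases Sym2.mem_iff.1 hz with h | h
          · exact ⟨x, Sym2.mem_mk_left x y, h ▸ hx⟩
          · exact ⟨y, Sym2.mem_mk_right x y, h ▸ hy⟩
        · intro z hz
          rcases Sym2.mem_iff.1 hz with h | h
          · exact ⟨g, Sym2.mem_mk_left g g', h ▸ hx⟩
          · exact ⟨g', Sym2.mem_mk_right g g', h ▸ hy⟩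
    · exact ⟨s(⟨0, by
        induction e using Sym2.ind with
        | _ u v => exact Fin.pos u⟩, ⟨0, by
        induction e using Sym2.ind with
        | _ u v => exact Fin.pos u⟩), fun h => absurd h he⟩
  choose f hf using hf
  rw [← card_ed]
  refine Finset.card_le_card_of_injOn f (fun e he => (hf e he).1) ?_
  have hsub : ∀ e ∈ ed G', ∀ e' ∈ ed G', f e = f e' → ∀ z ∈ e, z ∈ e' := by
    intro e he e' he' hee z hz
    obtain ⟨x, hx, hxK⟩ := (hf e he).2.1 z hz
    rw [hee] at hx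
    obtain ⟨z', hz', hxK'⟩ := (hf e' he').2.2 x hx
    have hzG : z ∈ G' := (mem_ed.1 he).1 z hz
    have hzG' : z' ∈ G' := (mem_ed.1 he').1 z' hz'
    rw [hdis z hzG z' hzG' x hxK hxK']
    exact hz'
  intro e he e' he' hee
  exact Sym2.ext fun z => ⟨hsub e he e' he' hee z, hsub e' he' e he hee.symm z⟩

end C0st
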