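import Pool.Agent.W_c0up_h86.B1

/-!
# MP_c0ce05_co, upper bound: few vertex sets have the same reduction

Fix `c` and let `B = c.1 ∪ c.2.image Prod.fst`. If `S ∈ Sub (k+1)` and `red lv s k S = c` then
`B = (S ∩ Vs k) ∪ (Ge lv s S \ Vs k)`, so `B ⊆ S` and every `x ∈ S \ B` is not in `Vs k` (so not
in the hub, `Vs_mono`) and not a generator, so `x ∈ Dr lv s S`: there is `a ∈ S` with
`(a, x) ∈ s.rel`.

Counting. Let `F j` be the family of all `S ⊇ B` with `S.card ≤ q`, `(S \ B).card = j` and
`∀ x ∈ S \ B, ∃ a ∈ S, (a, x) ∈ s.rel`. Claim `(F j).card ≤ (q * D0) ^ j`. Induction on `j`: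
`F 0 ⊆ {B}`. For `S ∈ F (j+1)` let `x` be the last element of `S \ B` in the order of `Ok.ord`
(by type, then by name; e.g. the maximum of `S \ B` for the linear order `toLex (ty x, x)`).
Then `S.erase x ∈ F j`: for `y ∈ S \ B`, `y ≠ x`, the vertex `a ∈ S` with `(a, y) ∈ s.rel` comes
strictly before `y`, and `y` before `x`, so `a ≠ x`. And `(a, x) ∈ s.rel` for some
`a ∈ S.erase x` (`a` comes strictly before `x`), so `x` is one of the at most
`(S.erase x).card * D0 ≤ q * D0` elements of `{y : ∃ a ∈ S.erase x, (a, y) ∈ s.rel}` (`Ok.deg`).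
So `F (j+1)` injects into the sigma set of pairs `(S', x)` with `S' ∈ F j`, `x` a successor of
`S'` (`S = insert x S'`), of size `≤ (F j).card * (q * D0)`.
Finally sum over `j ≤ q`: `∑_{j ≤ q} (q * D0) ^ j ≤ (q * D0 + 1) ^ q` (binomial theorem: the
coefficient `choose q j` is at least `1`).
-/

set_option autoImplicit false

namespace C0st

open scoped Classical
open C0lo C0up

variable {N r : ℕ}

/-- the vertices with a predecessor in `S` -/
noncomputable def F1_succ (s : St N r) (S : Finset (Fin N)) : Finset (Fin N) :=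
  S.biUnion (fun a => (s.rel.filter (fun p => p.1 = a)).image Prod.snd)

theorem F1_mem_succ {s : St N r} {S : Finset (Fin N)} {x : Fin N} :
    x ∈ F1_succ s S ↔ ∃ a ∈ S, (a, x) ∈ s.rel := by
  unfold F1_succ
  rw [Finset.mem_biUnion]
  constructor
  · rintro ⟨a, ha, h1⟩
    rw [Finset.mem_image] at h1
    obtain ⟨p, hp, h2⟩ := h1
    rw [Finset.mem_filter] at hp
    obtain ⟨hp1, hp2⟩ := hp
    subst hp2 h2
    exact ⟨p.1, ha, hp1⟩
  · rintro ⟨a, ha, h1⟩
    refine ⟨a, ha, ?_⟩
    rw [Finset.mem_image]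
    exact ⟨(a, x), Finset.mem_filter.2 ⟨h1, rfl⟩, rfl⟩

theorem F1_card_succ {lv : ℕ → ℕ} {Sg D0 Dl : ℕ} {s : St N r} (h : Ok lv Sg D0 Dl s)
    (S : Finset (Fin N)) : (F1_succ s S).card ≤ S.card * D0 :=
  Finset.card_biUnion_le_card_mul _ _ _ fun a _ => Finset.card_image_le.trans (h.deg a)

/-- the sets with `j` further vertices, each with a predecessor -/
noncomputable def F1_F (s : St N r) (q : ℕ) (B : Finset (Fin N)) (j : ℕ) :
    Finset (Finset (Fin N)) :=
  Finset.univ.filter (fun S => B ⊆ S ∧ S.card ≤ q ∧ (S \ B).card = j ∧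
    ∀ x ∈ S \ B, ∃ a ∈ S, (a, x) ∈ s.rel)

theorem F1_mem_F {s : St N r} {q : ℕ} {B : Finset (Fin N)} {j : ℕ} {S : Finset (Fin N)} :
    S ∈ F1_F s q B j ↔ B ⊆ S ∧ S.card ≤ q ∧ (S \ B).card = j ∧
      ∀ x ∈ S \ B, ∃ a ∈ S, (a, x) ∈ s.rel := by
  unfold F1_F
  rw [Finset.mem_filter, and_iff_right (Finset.mem_univ _)]

theorem F1_card {lv : ℕ → ℕ} {Sg D0 Dl : ℕ} {s : St N r} (h : Ok lv Sg D0 Dl s) (q : ℕ)
    (B : Finset (Fin N)) (j : ℕ) : (F1_F s q B j).card ≤ (q * D0) ^ j := by
  induction j with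
  | zero =>
    have h1 : F1_F s q B 0 ⊆ {B} := by
      intro S hS
      rw [F1_mem_F] at hS
      rw [Finset.mem_singleton]
      have h2 : S \ B = ∅ := Finset.card_eq_zero.1 hS.2.2.1
      exact Finset.Subset.antisymm (Finset.sdiff_eq_empty_iff_subset.1 h2) hS.1
    simpa using Finset.card_le_card h1
  | succ j ih =>
    have h1 : F1_F s q B (j + 1) ⊆ (F1_F s q B j).biUnion
        (fun S' => (F1_succ s S').image (fun x => insert x S')) := by
      intro S hS
      rw [F1_mem_F] at hS
      obtain ⟨hB, hq, hj, hp⟩ := hS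
      have hne : (S \ B).Nonempty := by
        rw [← Finset.card_pos]
        omega
      obtain ⟨x, hx, hmax⟩ := Finset.exists_max_image (S \ B)
        (fun x => toLex (s.ty x, x)) hne
      have hxS : x ∈ S := (Finset.mem_sdiff.1 hx).1
      have hxB : x ∉ B := (Finset.mem_sdiff.1 hx).2
      have key : ∀ y ∈ S \ B, ∃ a ∈ S.erase x, (a, y) ∈ s.rel := by
        intro y hy
        obtain ⟨a, ha, hay⟩ := hp y hy
        refine ⟨a, Finset.mem_erase.2 ⟨?_, ha⟩, hay⟩
        rintro rfl
        have h2 : toLex (s.ty a, a) < toLex (s.ty y, y) := by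
          rw [Prod.Lex.toLex_lt_toLex]
          exact h.ord _ hay
        exact absurd (hmax y hy) (not_le.2 h2)
      have hsd : S.erase x \ B = (S \ B).erase x := by
        ext y
        simp only [Finset.mem_sdiff, Finset.mem_erase]
        tauto
      rw [Finset.mem_biUnion]
      refine ⟨S.erase x, ?_, ?_⟩
      · rw [F1_mem_F]
        refine ⟨?_, (Finset.card_le_card (Finset.erase_subset _ _)).trans hq, ?_, ?_⟩
        · intro y hy
          refine Finset.mem_erase.2 ⟨?_, hB hy⟩
          rintro rfl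
          exact hxB hy
        · rw [hsd, Finset.card_erase_of_mem hx, hj]
          rfl
        · intro y hy
          rw [hsd] at hy
          exact key y (Finset.mem_of_mem_erase hy)
      · rw [Finset.mem_image]
        exact ⟨x, F1_mem_succ.2 (key x hx), Finset.insert_erase hxS⟩
    refine (Finset.card_le_card h1).trans ?_
    refine (Finset.card_biUnion_le_card_mul _ _ (q * D0) fun S' hS' => ?_).trans ?_
    · rw [F1_mem_F] at hS'
      exact Finset.card_image_le.trans ((F1_card_succ h S').trans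
        (Nat.mul_le_mul_right _ hS'.2.1))
    · rw [pow_succ]
      exact Nat.mul_le_mul_right _ ih

theorem fibre {lv : ℕ → ℕ} {Sg D0 Dl : ℕ} {s : St N r} (h : Ok lv Sg D0 Dl s) (q k : ℕ)
    (c : Leaf N r) :
    ((Sub lv q s (k + 1)).filter (fun S => red lv s k S = c)).card ≤ (q * D0 + 1) ^ q := by
  set B : Finset (Fin N) := c.1 ∪ c.2.image Prod.fst with hB
  have h1 : (Sub lv q s (k + 1)).filter (fun S => red lv s k S = c) ⊆
      (Finset.range (q + 1)).biUnion (fun j => F1_F s q B j) := by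
    intro S hS
    rw [Finset.mem_filter] at hS
    obtain ⟨hS1, hS2⟩ := hS
    unfold Sub at hS1
    rw [Finset.mem_filter] at hS1
    have hc1 : c.1 = S ∩ Vs lv s k := by rw [← hS2]; rfl
    have hc2 : c.2.image Prod.fst = Ge lv s S \ Vs lv s k := by
      rw [← hS2]
      unfold red
      rw [Finset.image_image]
      exact Finset.image_id
    have hBS : B ⊆ S := by
      rw [hB, hc1, hc2]
      exact Finset.union_subset Finset.inter_subset_left
        (Finset.sdiff_subset.trans (Ge_subset lv s S))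
    rw [Finset.mem_biUnion]
    refine ⟨(S \ B).card, ?_, ?_⟩
    · rw [Finset.mem_range]
      have h2 := Finset.card_le_card (Finset.sdiff_subset (s := S) (t := B))
      omega
    · rw [F1_mem_F]
      refine ⟨hBS, hS1.2, rfl, fun x hx => ?_⟩
      rw [Finset.mem_sdiff, hB, hc1, hc2, Finset.mem_union, Finset.mem_inter,
        Finset.mem_sdiff] at hx
      obtain ⟨hxS, hx2⟩ := hx
      have hxk : x ∉ Vs lv s k := fun h3 => hx2 (Or.inl ⟨hxS, h3⟩)
      have hx0 : x ∉ Vs lv s 0 := fun h3 => hxk (Vs_mono h (Nat.zero_le k) h3)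
      have hxG : x ∉ Ge lv s S := fun h3 => hx2 (Or.inr ⟨h3, hxk⟩)
      rw [mem_Ge] at hxG
      have hxD : x ∈ Dr lv s S := by
        by_contra h3
        exact hxG ⟨hxS, hx0, h3⟩
      exact (mem_Dr.1 hxD).2.2
  refine (Finset.card_le_card h1).trans (Finset.card_biUnion_le.trans ?_)
  refine (Finset.sum_le_sum fun j _ => F1_card h q B j).trans ?_
  rw [add_pow]
  refine Finset.sum_le_sum fun j hj => ?_
  rw [one_pow, mul_one]
  have h3 : 0 < q.choose j := Nat.choose_pos (by
    rw [Finset.mem_range] at hj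
    omega)
  exact Nat.le_mul_of_pos_right _ h3

end C0st
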