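import Pool.Agent.W_c0up_h86.R2

/-!
# MP_c0ce05_co, upper bound: the masses of step `k` only depend on `restr lv k s`

`WW_restr`: induction on `j ≤ k` for trees with all leaves inside `Vs lv s k`. In
`WW lv b s (j+1) W`, `j + 1 ≤ k`, the edges `e` of `Pairs lv s j (W i)` have both ends in
`W i ⊆ Vs lv s k` and `tau s e + 5 ≤ lv (j+1) ≤ lv k` (`Win`, `lv_mono`), so they are
`Low lv s k`; use `Pairs_restr`, `wt_restr` and the induction hypothesis.
`Sub_restr`, `Z_restr` (sum over trees with leaves in `Sub lv q s k`, all inside `Vs lv s k`,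
`Ge_restr`, `WW_restr` with `j = k`), `Om_restr`, `rho_restr` and `QQ_restr` (for `om ∈ Om`, so all
`(om i).1 ⊆ Vs lv s k`) follow.
-/

set_option autoImplicit false

namespace C0st

open scoped Classical
open C0lo C0up

variable {N r : ℕ}

theorem WW_restr {lv : ℕ → ℕ} {Sg D0 Dl : ℕ} {s : St N r} (h : Ok lv Sg D0 Dl s) (b : ℕ → ℕ)
    {j k : ℕ} (hjk : j ≤ k) {W : Idx b j → Finset (Fin N)} (hW : ∀ i, W i ⊆ Vs lv s k) :
    WW lv b (restr lv k s) j W = WW lv b s j W := by
  induction j with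
  | zero => rfl
  | succ j ih =>
    have h1 : (Finset.univ.biUnion (fun i : Idx b (j + 1) => Pairs lv (restr lv k s) j (W i))) =
        Finset.univ.biUnion (fun i : Idx b (j + 1) => Pairs lv s j (W i)) := by
      congr 1
      funext i
      exact Pairs_restr h j (hW i)
    have h2 : ∀ e ∈ Finset.univ.biUnion (fun i : Idx b (j + 1) => Pairs lv s j (W i)),
        Low lv s k e := by
      intro e he
      rw [Finset.mem_biUnion] at he
      obtain ⟨i, -, hi⟩ := he
      unfold Pairs at hi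
      rw [Finset.mem_filter] at hi
      have h3 := lv_mono h hjk
      have h4 := hi.2.1.2
      refine ⟨fun x hx => hW i ((mem_ed.1 hi.1).1 x hx), ?_⟩
      omega
    show wt (restr lv k s) (Finset.univ.biUnion
        (fun i : Idx b (j + 1) => Pairs lv (restr lv k s) j (W i))) *
        ∏ t : Fin (b j), WW lv b (restr lv k s) j (fun i => W (t, i)) =
      wt s (Finset.univ.biUnion (fun i : Idx b (j + 1) => Pairs lv s j (W i))) *
        ∏ t : Fin (b j), WW lv b s j (fun i => W (t, i))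
    rw [h1, wt_restr h2]
    congr 1
    refine Finset.prod_congr rfl fun t _ => ?_
    exact ih (Nat.le_of_succ_le hjk) fun i => hW (t, i)

theorem Sub_restr {lv : ℕ → ℕ} {Sg D0 Dl : ℕ} {s : St N r} (h : Ok lv Sg D0 Dl s) (q k : ℕ) :
    Sub lv q (restr lv k s) k = Sub lv q s k := by
  unfold Sub
  rw [Vs_restr h le_rfl]

private theorem R3_sub {lv : ℕ → ℕ} {s : St N r} {q k : ℕ} {S : Finset (Fin N)}
    (hS : S ∈ Sub lv q s k) : S ⊆ Vs lv s k := by
  unfold Sub at hS
  rw [Finset.mem_filter, Finset.mem_powerset] at hS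
  exact hS.1

theorem Z_restr {lv : ℕ → ℕ} {Sg D0 Dl : ℕ} {s : St N r} (h : Ok lv Sg D0 Dl s) (b : ℕ → ℕ)
    (q k : ℕ) : Z lv b q (restr lv k s) k = Z lv b q s k := by
  unfold Z
  rw [Sub_restr h]
  refine Finset.sum_congr rfl fun W hW => ?_
  have h1 : ∀ i, W i ⊆ Vs lv s k := fun i => R3_sub (Fintype.mem_piFinset.1 hW i)
  rw [WW_restr h b le_rfl h1]
  congr 1
  refine Finset.prod_congr rfl fun i _ => ?_
  rw [Ge_restr h (h1 i)]

theorem Om_restr {lv : ℕ → ℕ} {Sg D0 Dl : ℕ} {s : St N r} (h : Ok lv Sg D0 Dl s) (b : ℕ → ℕ)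
    (q k : ℕ) : Om lv b q (restr lv k s) k = Om lv b q s k := by
  unfold Om
  rw [Sub_restr h]

private theorem R3_om {lv : ℕ → ℕ} {s : St N r} {b : ℕ → ℕ} {q k : ℕ}
    {om : Idx b (k + 1) → Leaf N r} (hom : om ∈ Om lv b q s k) (i : Idx b (k + 1)) :
    (om i).1 ⊆ Vs lv s k := by
  unfold Om at hom
  exact R3_sub (Finset.mem_product.1 (Fintype.mem_piFinset.1 hom i)).1

theorem rho_restr {lv : ℕ → ℕ} {Sg D0 Dl : ℕ} {s : St N r} (h : Ok lv Sg D0 Dl s) (b : ℕ → ℕ)
    (q k : ℕ) {om : Idx b (k + 1) → Leaf N r} (hom : om ∈ Om lv b q s k) :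
    rho lv b q (restr lv k s) k om = rho lv b q s k om := by
  unfold rho
  rw [Z_restr h]
  congr 1
  refine Finset.prod_congr rfl fun j _ => ?_
  rw [WW_restr h b le_rfl (fun i => R3_om hom (j, i))]
  congr 2
  refine Finset.prod_congr rfl fun i _ => ?_
  rw [Ge_restr h (R3_om hom (j, i))]

theorem QQ_restr {lv : ℕ → ℕ} {Sg D0 Dl : ℕ} {s : St N r} (h : Ok lv Sg D0 Dl s) (b : ℕ → ℕ)
    (q k : ℕ) {om : Idx b (k + 1) → Leaf N r} (hom : om ∈ Om lv b q s k) :
    QQ lv b (restr lv k s) k om = QQ lv b s k om := by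
  unfold QQ
  congr 1
  funext i
  exact EE_restr h (R3_om hom i)

end C0st
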