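import Pool.Agent.W_c0up_h86.R1
import Pool.Agent.W_c0up_h86.R3
import Pool.Agent.W_c0up_h38.Win

/-!
# MP_c0ce05_co, upper bound: the objects of the potential (input of `achievement_lt`)

Parameters: a finite type `I` of choices (offsets), thresholds `lv i`, branching numbers `b i` and
size bounds `n i k` for the data. Index type of the objects:
`ι = Σ i : I, Σ k : Fin K, St N r × (Idx (b i) (k+1) → Leaf N r)` with edge set
`Z (i, k, d, om) = QQ (lv i) (b i) d k om` and coefficient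
`a (i, k, d, om) = 2^|Z| * rho (lv i) (b i) q d k om / (4 * |I| * K * |Data N r (n i k)|)` if
`d ∈ Data N r (n i k)` and `om ∈ Om (lv i) (b i) q d k`, and `0` otherwise.
* nonnegative: `rho_nonneg`.
* `∑ a (1/2)^|Z|`: the factors `2^|Z|` cancel, `rho_sum` for each `(i, k, d)`, then the sum over
  `d ∈ Data`, `k < K`, `i ∈ I` is at most `1/4` (empty `I`, `K = 0`: the sum is `0`).
* let `P` be a position with `∑ a * P.mass Z < 1` and `s` a state with the same edges and turns,
  `d = restr (lv i) k s ∈ Data N r (n i k)`. All terms are nonnegative (`P.mass ≥ 0`), so the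
  partial sum over the indices `(i, k, d, om)`, `om ∈ Om (lv i) (b i) q d k`, is `< 1`:
  `∑_om 2^|Q| rho d om * P.mass Q < 4 |I| K |Data|` with `Q = QQ (lv i) (b i) d k om`. By
  `Om_restr`, `rho_restr`, `QQ_restr` one can replace `d` by `s` everywhere, and
  `2^|Q| * P.mass Q = wt s Q` (`(Q \ C).card + (Q ∩ C).card = Q.card`, `P.dbl Q = dbl s Q`).
-/

set_option autoImplicit false

namespace C0st

open scoped Classical
open C0lo C0up

variable {N r : ℕ}

theorem mass_eq_wt {P : Pos N} {s : St N r} (hd : s.dead = P.K) (hc : s.clm = P.C)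
    (hb : s.db = P.D) (Q : Finset (Sym2 (Fin N))) :
    (2 : ℝ) ^ Q.card * P.mass Q = wt s Q := by
  unfold Pos.mass wt
  rw [hd, hc]
  by_cases h : Disjoint Q P.K
  · rw [if_pos h, if_pos h]
    have h1 : P.dbl Q = dbl s Q := by
      unfold Pos.dbl dbl
      rw [hb]
    rw [h1, ← Finset.card_sdiff_add_card_inter Q P.C, pow_add]
    have h2 : (2 : ℝ) ^ (Q \ P.C).card * (1 / 2) ^ (Q \ P.C).card = 1 := by
      rw [← mul_pow]
      norm_num
    calc (2 : ℝ) ^ (Q \ P.C).card * 2 ^ (Q ∩ P.C).card *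
          ((1 / 2) ^ (Q \ P.C).card * (3 / 4) ^ dbl s Q)
        = ((2 : ℝ) ^ (Q \ P.C).card * (1 / 2) ^ (Q \ P.C).card) *
          (2 ^ (Q ∩ P.C).card * (3 / 4) ^ dbl s Q) := by ring
      _ = _ := by rw [h2, one_mul]
  · rw [if_neg h, if_neg h, mul_zero]

theorem H1_mass_nonneg (P : Pos N) (Q : Finset (Sym2 (Fin N))) : 0 ≤ P.mass Q := by
  unfold Pos.mass
  split_ifs
  · positivity
  · exact le_rfl

/-- the index type of the objects -/
abbrev H1_ix (N r : ℕ) {I : Type} (b : I → ℕ → ℕ) (K : ℕ) : Type :=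
  (i : I) × (k : Fin K) × (St N r × (Idx (b i) ((k : ℕ) + 1) → Leaf N r))

/-- the coefficients of the objects -/
noncomputable def H1_a {I : Type} [Fintype I] (lv b n : I → ℕ → ℕ) (q K : ℕ)
    (x : H1_ix N r b K) : ℝ :=
  if x.2.2.1 ∈ Data N r (n x.1 x.2.1) ∧ x.2.2.2 ∈ Om (lv x.1) (b x.1) q x.2.2.1 x.2.1 then
    2 ^ (QQ (lv x.1) (b x.1) x.2.2.1 x.2.1 x.2.2.2).card *
      rho (lv x.1) (b x.1) q x.2.2.1 x.2.1 x.2.2.2 /
      (4 * (Fintype.card I : ℝ) * (K : ℝ) * ((Data N r (n x.1 x.2.1)).card : ℝ))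
  else 0

theorem H1_a_nonneg {I : Type} [Fintype I] (lv b n : I → ℕ → ℕ) (q K : ℕ)
    (x : H1_ix N r b K) : 0 ≤ H1_a lv b n q K x := by
  unfold H1_a
  split_ifs
  · exact div_nonneg (mul_nonneg (by positivity) (rho_nonneg _ _ _ _ _ _)) (by positivity)
  · exact le_rfl

theorem H1_sum (hN : 1 ≤ N) {I : Type} [Fintype I] (lv b n : I → ℕ → ℕ) (q K : ℕ) :
    ∑ x : H1_ix N r b K, H1_a lv b n q K x *
      (1 / 2 : ℝ) ^ (QQ (lv x.1) (b x.1) x.2.2.1 x.2.1 x.2.2.2).card ≤ 1 / 4 := by
  rw [Fintype.sum_sigma]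
  have h1 : ∀ i : I, ∑ y : (k : Fin K) × (St N r × (Idx (b i) ((k : ℕ) + 1) → Leaf N r)),
      H1_a lv b n q K ⟨i, y⟩ * (1 / 2 : ℝ) ^ (QQ (lv i) (b i) y.2.1 y.1 y.2.2).card ≤
      1 / (4 * (Fintype.card I : ℝ)) := by
    intro i
    rw [Fintype.sum_sigma]
    have h2 : ∀ k : Fin K, ∑ z : St N r × (Idx (b i) ((k : ℕ) + 1) → Leaf N r),
        H1_a lv b n q K ⟨i, k, z⟩ * (1 / 2 : ℝ) ^ (QQ (lv i) (b i) z.1 k z.2).card ≤
        1 / (4 * (Fintype.card I : ℝ) * (K : ℝ)) := by
      intro k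
      rw [Fintype.sum_prod_type]
      set c : ℝ := 4 * (Fintype.card I : ℝ) * (K : ℝ) * ((Data N r (n i k)).card : ℝ) with hc
      have hc0 : 0 ≤ c := by positivity
      have h3 : ∀ d : St N r, ∑ om : Idx (b i) ((k : ℕ) + 1) → Leaf N r,
          H1_a lv b n q K ⟨i, k, (d, om)⟩ * (1 / 2 : ℝ) ^ (QQ (lv i) (b i) d k om).card ≤
          if d ∈ Data N r (n i k) then 1 / c else 0 := by
        intro d
        by_cases hd : d ∈ Data N r (n i k)
        · rw [if_pos hd]
          have h4 : ∀ om : Idx (b i) ((k : ℕ) + 1) → Leaf N r,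
              H1_a lv b n q K ⟨i, k, (d, om)⟩ *
                (1 / 2 : ℝ) ^ (QQ (lv i) (b i) d k om).card =
              if om ∈ Om (lv i) (b i) q d k then rho (lv i) (b i) q d k om / c else 0 := by
            intro om
            unfold H1_a
            simp only [hd, true_and]
            by_cases ho : om ∈ Om (lv i) (b i) q d k
            · rw [if_pos ho, if_pos ho, ← hc]
              have h5 : (2 : ℝ) ^ (QQ (lv i) (b i) d k om).card *
                  (1 / 2 : ℝ) ^ (QQ (lv i) (b i) d k om).card = 1 := by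
                rw [← mul_pow]
                norm_num
              calc (2 : ℝ) ^ (QQ (lv i) (b i) d k om).card * rho (lv i) (b i) q d k om / c *
                    (1 / 2 : ℝ) ^ (QQ (lv i) (b i) d k om).card
                  = ((2 : ℝ) ^ (QQ (lv i) (b i) d k om).card *
                    (1 / 2 : ℝ) ^ (QQ (lv i) (b i) d k om).card) *
                    (rho (lv i) (b i) q d k om / c) := by ring
                _ = _ := by rw [h5, one_mul]
            · rw [if_neg ho, if_neg ho, zero_mul]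
          rw [Finset.sum_congr rfl (fun om _ => h4 om), Finset.sum_ite_mem,
            Finset.univ_inter, ← Finset.sum_div]
          exact div_le_div_of_nonneg_right (rho_sum hN _ _ _ _ _) hc0
        · rw [if_neg hd]
          refine le_of_eq (Finset.sum_eq_zero fun om _ => ?_)
          unfold H1_a
          rw [if_neg (fun h => hd h.1), zero_mul]
      refine le_trans (Finset.sum_le_sum fun d _ => h3 d) ?_
      rw [Finset.sum_ite_mem, Finset.univ_inter, Finset.sum_const, nsmul_eq_mul, hc]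
      by_cases hD : ((Data N r (n i k)).card : ℝ) = 0
      · rw [hD, zero_mul]
        positivity
      · refine le_of_eq ?_
        rw [mul_one_div, mul_comm (4 * (Fintype.card I : ℝ) * (K : ℝ)), div_mul_eq_div_div,
          div_self hD]
    refine le_trans (Finset.sum_le_sum fun k _ => h2 k) ?_
    rw [Finset.sum_const, nsmul_eq_mul, Finset.card_univ, Fintype.card_fin]
    by_cases hK : (K : ℝ) = 0
    · rw [hK, zero_mul]
      positivity
    · refine le_of_eq ?_
      rw [mul_one_div, mul_comm (4 * (Fintype.card I : ℝ)), div_mul_eq_div_div, div_self hK]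
  refine le_trans (Finset.sum_le_sum fun i _ => h1 i) ?_
  rw [Finset.sum_const, nsmul_eq_mul, Finset.card_univ]
  by_cases hI : (Fintype.card I : ℝ) = 0
  · rw [hI, zero_mul]
    norm_num
  · refine le_of_eq ?_
    rw [mul_one_div, mul_comm (4 : ℝ), div_mul_eq_div_div, div_self hI]

theorem gibbsH (hN : 1 ≤ N) {I : Type} [Fintype I] (lv b n : I → ℕ → ℕ) (q K : ℕ) :
    ∃ (ι : Type) (_ : Fintype ι) (Z : ι → Finset (Sym2 (Fin N))) (a : ι → ℝ),
      (∀ i, 0 ≤ a i) ∧ ∑ i, a i * (1 / 2 : ℝ) ^ (Z i).card ≤ 1 / 4 ∧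
      ∀ P : Pos N, ∑ i, a i * P.mass (Z i) < 1 →
        ∀ s : St N r, s.dead = P.K → s.clm = P.C → s.db = P.D → ∀ (i : I) (Sg D0 Dl : ℕ),
          Ok (lv i) Sg D0 Dl s → ∀ k < K, restr (lv i) k s ∈ Data N r (n i k) →
            ∑ om ∈ Om (lv i) (b i) q s k,
                rho (lv i) (b i) q s k om * wt s (QQ (lv i) (b i) s k om) ≤
              4 * (Fintype.card I : ℝ) * (K : ℝ) * ((Data N r (n i k)).card : ℝ) := by
  refine ⟨H1_ix N r b K, inferInstance,
    fun x => QQ (lv x.1) (b x.1) x.2.2.1 x.2.1 x.2.2.2, H1_a lv b n q K,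
    H1_a_nonneg lv b n q K, H1_sum hN lv b n q K, ?_⟩
  intro P hP s hd hc hb i Sg D0 Dl hOk k hk hD
  set d := restr (lv i) k s with hddef
  set c : ℝ := 4 * (Fintype.card I : ℝ) * (K : ℝ) * ((Data N r (n i k)).card : ℝ) with hcdef
  have hI : (0 : ℝ) < Fintype.card I := by
    exact_mod_cast Fintype.card_pos_iff.2 ⟨i⟩
  have hK : (0 : ℝ) < K := by exact_mod_cast (by omega : 0 < K)
  have hDc : (0 : ℝ) < (Data N r (n i k)).card := by
    exact_mod_cast Finset.card_pos.2 ⟨d, hD⟩
  have hc0 : 0 < c := by positivity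
  let f : (Idx (b i) (k + 1) → Leaf N r) → H1_ix N r b K := fun om => ⟨i, ⟨k, hk⟩, (d, om)⟩
  have hf : Function.Injective f := by
    intro om om' h
    simp only [f, Sigma.mk.injEq, heq_eq_eq, true_and, Prod.mk.injEq] at h
    exact h
  have h1 : ∑ om ∈ Om (lv i) (b i) q s k, H1_a lv b n q K (f om) *
      P.mass (QQ (lv i) (b i) d k om) ≤ ∑ x : H1_ix N r b K, H1_a lv b n q K x *
        P.mass (QQ (lv x.1) (b x.1) x.2.2.1 x.2.1 x.2.2.2) := by
    have h2 : ∑ om ∈ Om (lv i) (b i) q s k, H1_a lv b n q K (f om) *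
        P.mass (QQ (lv i) (b i) d k om) =
        ∑ x ∈ (Om (lv i) (b i) q s k).map ⟨f, hf⟩, H1_a lv b n q K x *
        P.mass (QQ (lv x.1) (b x.1) x.2.2.1 x.2.1 x.2.2.2) := by
      rw [Finset.sum_map]
      rfl
    rw [h2]
    exact Finset.sum_le_univ_sum_of_nonneg fun x =>
      mul_nonneg (H1_a_nonneg lv b n q K x) (H1_mass_nonneg P _)
  have h3 : ∑ om ∈ Om (lv i) (b i) q s k, H1_a lv b n q K (f om) *
      P.mass (QQ (lv i) (b i) d k om) =
      (∑ om ∈ Om (lv i) (b i) q s k,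
        rho (lv i) (b i) q s k om * wt s (QQ (lv i) (b i) s k om)) / c := by
    rw [Finset.sum_div]
    refine Finset.sum_congr rfl fun om hom => ?_
    have hom' : om ∈ Om (lv i) (b i) q d k := by
      rw [hddef, Om_restr hOk]
      exact hom
    have h4 : H1_a lv b n q K (f om) = 2 ^ (QQ (lv i) (b i) d k om).card *
        rho (lv i) (b i) q d k om / c := by
      unfold H1_a
      rw [if_pos ⟨hD, hom'⟩]
    rw [h4, hddef, rho_restr hOk _ _ _ hom, QQ_restr hOk _ _ _ hom,
      ← mass_eq_wt hd hc hb]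
    ring
  have h5 := lt_of_le_of_lt h1 hP
  rw [h3, div_lt_one hc0] at h5
  exact h5.le

end C0st
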