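import Pool.Agent.W_c0up_h86.B1

/-!
# MP_c0ce05_co, upper bound: averages over independent members of a family, Jensen

`av C F` is the average of `F` over the functions `W : ι → C`.
* `av_pull`: for an injective `φ : ι' → ι` the average over `W` of `F (W ∘ φ)` is the average of
  `F` over the functions on `ι'`: the number of `W : ι → C` with `W ∘ φ = W'` is
  `|C| ^ (card ι - card ι')` for each `W' : ι' → C` (the values outside the range of `φ` are free).
* `av_one`: average of a function of one coordinate (special case `ι' = Unit`).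
* `av_two`: for `i ≠ j` the average of `f (W i) (W j)` is the double average.
* `av_add`, `av_sub`, `av_mul`, `av_sum`, `av_const`, `av_mono`: linearity and monotonicity.
* `jensen`: for a nonempty finset `X` and `f > 0` on `X`:
  `|X| * exp ((∑ log f) / |X|) ≤ ∑ f`: with `a = (∑ log f)/|X|`,
  `f = exp (log f) ≥ exp a * (1 + (log f - a))` (`Real.add_one_le_exp`), sum over `X`.
-/

set_option autoImplicit false

namespace C0st

open scoped Classical
open C0lo C0up

variable {N r : ℕ}

/-- the fibres of `W ↦ W ∘ φ` -/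
theorem J1_fib {ι ι' : Type} [Fintype ι] [Fintype ι'] {C : Finset (Finset (Fin N))}
    {φ : ι' → ι} (hφ : Function.Injective φ) {V : ι' → Finset (Fin N)}
    (hV : V ∈ Fintype.piFinset (fun _ : ι' => C)) :
    ((Fintype.piFinset (fun _ : ι => C)).filter (fun W => W ∘ φ = V)).card =
      C.card ^ (Fintype.card ι - Fintype.card ι') := by
  have h1 : ((Fintype.piFinset (fun _ : ι => C)).filter (fun W => W ∘ φ = V)).card =
      (Fintype.piFinset (fun _ : {i : ι // i ∉ Set.range φ} => C)).card := by
    refine Finset.card_bij' (fun W _ => fun i => W i.1)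
      (fun X _ => fun i => if h : i ∈ Set.range φ then V h.choose else X ⟨i, h⟩) ?_ ?_ ?_ ?_
    · intro W hW
      rw [Finset.mem_filter, Fintype.mem_piFinset] at hW
      rw [Fintype.mem_piFinset]
      exact fun i => hW.1 i.1
    · intro X hX
      rw [Fintype.mem_piFinset] at hX
      rw [Fintype.mem_piFinset] at hV
      rw [Finset.mem_filter, Fintype.mem_piFinset]
      refine ⟨fun i => ?_, ?_⟩
      · by_cases h : i ∈ Set.range φ
        · rw [dif_pos h]
          exact hV _
        · rw [dif_neg h]
          exact hX _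
      · funext j
        have h : φ j ∈ Set.range φ := ⟨j, rfl⟩
        show (if h : φ j ∈ Set.range φ then V h.choose else X ⟨φ j, h⟩) = V j
        rw [dif_pos h]
        exact congrArg V (hφ h.choose_spec)
    · intro W hW
      rw [Finset.mem_filter] at hW
      funext i
      show (if h : i ∈ Set.range φ then V h.choose else W i) = W i
      by_cases h : i ∈ Set.range φ
      · rw [dif_pos h, ← hW.2]
        exact congrArg W h.choose_spec
      · rw [dif_neg h]
    · intro X hX
      funext i
      show (if h : i.1 ∈ Set.range φ then V h.choose else X ⟨i.1, h⟩) = X i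
      rw [dif_neg i.2]
  rw [h1, Fintype.card_piFinset, Finset.prod_const, Finset.card_univ]
  congr 1
  have h2 := Fintype.card_subtype_compl (fun i : ι => i ∈ Set.range φ)
  have h3 : Fintype.card {i : ι // i ∈ Set.range φ} = Fintype.card ι' := by
    have := Set.card_range_of_injective hφ
    convert this using 1
  rw [h3] at h2
  convert h2 using 1

theorem av_pull {ι ι' : Type} [Fintype ι] [Fintype ι'] {C : Finset (Finset (Fin N))}
    (hC : C.Nonempty) {φ : ι' → ι} (hφ : Function.Injective φ)
    (F : (ι' → Finset (Fin N)) → ℝ) : av C (fun W : ι → Finset (Fin N) => F (W ∘ φ)) = av C F := by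
  have hc : (0 : ℝ) < (C.card : ℝ) := by exact_mod_cast hC.card_pos
  have hcard : Fintype.card ι' ≤ Fintype.card ι := Fintype.card_le_of_injective φ hφ
  have hmaps : ∀ W ∈ Fintype.piFinset (fun _ : ι => C),
      W ∘ φ ∈ Fintype.piFinset (fun _ : ι' => C) := by
    intro W hW
    rw [Fintype.mem_piFinset] at hW ⊢
    exact fun i => hW _
  have h1 : ∑ W ∈ Fintype.piFinset (fun _ : ι => C), F (W ∘ φ) =
      (C.card : ℝ) ^ (Fintype.card ι - Fintype.card ι') *
        ∑ V ∈ Fintype.piFinset (fun _ : ι' => C), F V := by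
    rw [← Finset.sum_fiberwise_of_maps_to hmaps, Finset.mul_sum]
    refine Finset.sum_congr rfl (fun V hV => ?_)
    have h2 : ∀ W ∈ (Fintype.piFinset (fun _ : ι => C)).filter (fun W => W ∘ φ = V),
        F (W ∘ φ) = F V := by
      intro W hW
      rw [(Finset.mem_filter.1 hW).2]
    rw [Finset.sum_congr rfl h2, Finset.sum_const, nsmul_eq_mul, J1_fib hφ hV, Nat.cast_pow]
  unfold av
  rw [h1]
  have h3 : (C.card : ℝ) ^ Fintype.card ι =
      (C.card : ℝ) ^ (Fintype.card ι - Fintype.card ι') * (C.card : ℝ) ^ Fintype.card ι' := by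
    rw [← pow_add]
    congr 1
    omega
  rw [h3, mul_div_mul_left _ _ (pow_ne_zero _ hc.ne')]

theorem J1_unit {ι : Type} [Fintype ι] (u : ι) (hu : ∀ i, i = u) (C : Finset (Finset (Fin N)))
    (f : Finset (Fin N) → ℝ) : av C (fun V : ι → Finset (Fin N) => f (V u)) = av1 C f := by
  unfold av av1
  have h1 : Fintype.card ι = 1 := by
    rw [Fintype.card_eq_one_iff]
    exact ⟨u, hu⟩
  rw [h1, pow_one]
  congr 1
  refine Finset.sum_bij' (fun V _ => V u) (fun A _ => fun _ => A) ?_ ?_ ?_ ?_ ?_
  · intro V hV
    exact Fintype.mem_piFinset.1 hV u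
  · intro A hA
    exact Fintype.mem_piFinset.2 (fun _ => hA)
  · intro V _
    funext i
    rw [hu i]
  · intro A _
    rfl
  · intro V _
    rfl

theorem av_one {ι : Type} [Fintype ι] {C : Finset (Finset (Fin N))} (hC : C.Nonempty) (i : ι)
    (f : Finset (Fin N) → ℝ) : av C (fun W : ι → Finset (Fin N) => f (W i)) = av1 C f := by
  have h1 := av_pull hC (φ := fun _ : Unit => i) (fun _ _ _ => rfl)
    (fun V : Unit → Finset (Fin N) => f (V ()))
  have h2 : (fun W : ι → Finset (Fin N) => f ((W ∘ fun _ : Unit => i) ())) =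
      fun W : ι → Finset (Fin N) => f (W i) := rfl
  rw [h2] at h1
  rw [h1]
  exact J1_unit () (fun _ => rfl) C f

theorem J1_bool {ι : Type} [Fintype ι] (a b : ι) (hab : a ≠ b) (h : ∀ i, i = a ∨ i = b)
    (C : Finset (Finset (Fin N))) (f : Finset (Fin N) → Finset (Fin N) → ℝ) :
    av C (fun V : ι → Finset (Fin N) => f (V a) (V b)) = av1 C (fun A => av1 C (f A)) := by
  unfold av av1
  have h1 : Fintype.card ι = 2 := by
    have h2 : (Finset.univ : Finset ι) = {a, b} := by
      ext i
      simp only [Finset.mem_univ, Finset.mem_insert, Finset.mem_singleton, true_iff]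
      exact h i
    rw [← Finset.card_univ, h2, Finset.card_pair hab]
  rw [h1, ← Finset.sum_div, pow_two, ← div_div]
  congr 2
  rw [← Finset.sum_product']
  refine Finset.sum_bij' (fun V _ => (V a, V b))
    (fun p _ => fun i => if i = a then p.1 else p.2) ?_ ?_ ?_ ?_ ?_
  · intro V hV
    rw [Fintype.mem_piFinset] at hV
    exact Finset.mem_product.2 ⟨hV a, hV b⟩
  · intro p hp
    rw [Finset.mem_product] at hp
    rw [Fintype.mem_piFinset]
    intro i
    by_cases hi : i = a
    · rw [if_pos hi]
      exact hp.1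
    · rw [if_neg hi]
      exact hp.2
  · intro V _
    funext i
    by_cases hi : i = a
    · simp only [if_pos hi]
      rw [hi]
    · simp only [if_neg hi]
      rw [(h i).resolve_left hi]
  · intro p _
    simp only [if_true, if_neg hab.symm]
  · intro V _
    rfl

theorem av_two {ι : Type} [Fintype ι] {C : Finset (Finset (Fin N))} (hC : C.Nonempty) {i j : ι}
    (hij : i ≠ j) (f : Finset (Fin N) → Finset (Fin N) → ℝ) :
    av C (fun W : ι → Finset (Fin N) => f (W i) (W j)) = av1 C (fun A => av1 C (f A)) := by
  have hφ : Function.Injective (fun b : Bool => if b then i else j) := by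
    intro a b hab
    cases a <;> cases b <;> simp at hab ⊢
    · exact hij hab.symm
    · exact hij hab
  have h1 := av_pull hC hφ (fun V : Bool → Finset (Fin N) => f (V true) (V false))
  have h2 : (fun W : ι → Finset (Fin N) => f ((W ∘ fun b : Bool => if b then i else j) true)
      ((W ∘ fun b : Bool => if b then i else j) false)) =
      fun W : ι → Finset (Fin N) => f (W i) (W j) := by
    funext W
    simp
  rw [h2] at h1
  rw [h1]
  exact J1_bool true false (by simp) (fun b => by cases b <;> simp) C f

theorem av_add {ι : Type} [Fintype ι] (C : Finset (Finset (Fin N)))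
    (F G : (ι → Finset (Fin N)) → ℝ) : av C (fun W => F W + G W) = av C F + av C G := by
  unfold av
  rw [Finset.sum_add_distrib, add_div]

theorem av_sub {ι : Type} [Fintype ι] (C : Finset (Finset (Fin N)))
    (F G : (ι → Finset (Fin N)) → ℝ) : av C (fun W => F W - G W) = av C F - av C G := by
  unfold av
  rw [Finset.sum_sub_distrib, sub_div]

theorem av_mul {ι : Type} [Fintype ι] (C : Finset (Finset (Fin N))) (c : ℝ)
    (F : (ι → Finset (Fin N)) → ℝ) : av C (fun W => c * F W) = c * av C F := by
  unfold av
  rw [← Finset.mul_sum, mul_div_assoc]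

theorem av_sum {ι κ : Type} [Fintype ι] (C : Finset (Finset (Fin N))) (T : Finset κ)
    (F : κ → (ι → Finset (Fin N)) → ℝ) :
    av C (fun W => ∑ t ∈ T, F t W) = ∑ t ∈ T, av C (F t) := by
  unfold av
  rw [Finset.sum_comm, Finset.sum_div]

theorem av_mono {ι : Type} [Fintype ι] {C : Finset (Finset (Fin N))}
    {F G : (ι → Finset (Fin N)) → ℝ}
    (h : ∀ W ∈ Fintype.piFinset (fun _ : ι => C), F W ≤ G W) : av C F ≤ av C G := by
  unfold av
  exact div_le_div_of_nonneg_right (Finset.sum_le_sum h) (by positivity)

theorem av_const {ι : Type} [Fintype ι] {C : Finset (Finset (Fin N))} (hC : C.Nonempty)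
    (c : ℝ) : av C (fun _ : ι → Finset (Fin N) => c) = c := by
  have hc : (0 : ℝ) < (C.card : ℝ) := by exact_mod_cast hC.card_pos
  unfold av
  rw [Finset.sum_const, nsmul_eq_mul, Fintype.card_piFinset, Finset.prod_const,
    Finset.card_univ, Nat.cast_pow, mul_div_assoc, mul_comm, div_mul_eq_mul_div, mul_comm c]
  rw [div_eq_iff (pow_ne_zero _ hc.ne')]
  ring

theorem jensen {α : Type} {X : Finset α} (hX : X.Nonempty) {f : α → ℝ}
    (hf : ∀ x ∈ X, 0 < f x) :
    (X.card : ℝ) * Real.exp ((∑ x ∈ X, Real.log (f x)) / (X.card : ℝ)) ≤ ∑ x ∈ X, f x := by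
  have hc : (0 : ℝ) < (X.card : ℝ) := by exact_mod_cast hX.card_pos
  set a := (∑ x ∈ X, Real.log (f x)) / (X.card : ℝ) with ha
  have h1 : ∀ x ∈ X, Real.exp a * (1 + (Real.log (f x) - a)) ≤ f x := by
    intro x hx
    have h2 := Real.add_one_le_exp (Real.log (f x) - a)
    have h3 : f x = Real.exp a * Real.exp (Real.log (f x) - a) := by
      rw [← Real.exp_add]
      have h4 : a + (Real.log (f x) - a) = Real.log (f x) := by ring
      rw [h4, Real.exp_log (hf x hx)]
    rw [h3]
    refine mul_le_mul_of_nonneg_left ?_ (Real.exp_pos a).le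
    rw [Real.exp_sub, Real.exp_log (hf x hx)] at h2 ⊢
    have h5 : Real.exp a * (f x / Real.exp a) = f x := by
      field_simp
    rw [h5]
    linarith
  have h2 := Finset.sum_le_sum h1
  have h3 : ∑ x ∈ X, Real.exp a * (1 + (Real.log (f x) - a)) = (X.card : ℝ) * Real.exp a := by
    rw [← Finset.mul_sum, Finset.sum_add_distrib, Finset.sum_sub_distrib, Finset.sum_const,
      Finset.sum_const, nsmul_eq_mul, nsmul_eq_mul]
    have h4 : ∑ x ∈ X, Real.log (f x) = a * (X.card : ℝ) := by
      rw [ha, div_mul_cancel₀ _ hc.ne']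
    rw [h4]
    ring
  rw [h3] at h2
  exact h2

end C0st
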