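import Pool.Agent.W_c0up_h86.B1

/-!
# MP_c0ce05_co, upper bound: the weight of a union of edge sets

Let `Q i` be edge sets without Breaker edge and `U i ⊆ Q i`. Put `Q = ⋃ Q i`, `U = ⋃ U i`.
1. `log (wt s Q) = gn s Q Q` (definition of `wt`: `2^a (3/4)^d`, `log (3/4) = - log (4/3)`,
   `dbl s Q = prt s Q Q` by definition).
2. `gn_mono`: `gn s U Q ≤ gn s Q Q` for `U ⊆ Q`: the `d ∈ db` with `d.1 ∈ Q`, `d.2 ∈ Q` and not
   `d.1 ∈ U` have their first edge in `(Q \ U) ∩ clm` (`Ok.dcl`), different `d` have different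
   first edges (`Ok.din`), so `prt s Q Q ≤ prt s U Q + ((Q \ U) ∩ clm).card`, while
   `(Q ∩ clm).card = (U ∩ clm).card + ((Q \ U) ∩ clm).card`; and `log (4/3) ≤ log 2`.
3. `gn_union`: `|U ∩ clm| ≥ ∑ |U i ∩ clm| - (1/2) ∑_{i ≠ j} |U i ∩ U j|`: an edge contained in
   `t ≥ 1` of the sets contributes `t` to the sum and `t (t-1)` to the double sum,
   `1 ≥ t - t(t-1)/2`; and `prt s U Q ≤ ∑ prt s (U i) (Q i) + ∑_{i ≠ j} prt s (U i) (Q j)`: a `d`
   with `d.1 ∈ U`, `d.2 ∈ Q` has `d.1 ∈ U i`, `d.2 ∈ Q j` for some `i, j`, equal or not.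
-/

set_option autoImplicit false

namespace C0st

open scoped Classical
open C0lo C0up

variable {N r : ℕ}

theorem log_wt {s : St N r} {Q : Finset (Sym2 (Fin N))} (hQ : Disjoint Q s.dead) :
    Real.log (wt s Q) = gn s Q Q := by
  unfold wt gn prt dbl
  rw [if_pos hQ, Real.log_mul (by positivity) (by positivity), Real.log_pow, Real.log_pow]
  have h1 : Real.log (3 / 4 : ℝ) = - Real.log (4 / 3) := by
    rw [← Real.log_inv]
    norm_num
  rw [h1]
  ring

theorem J2_prt_le {lv : ℕ → ℕ} {Sg D0 Dl : ℕ} {s : St N r} (h : Ok lv Sg D0 Dl s)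
    (U Q : Finset (Sym2 (Fin N))) :
    prt s Q Q ≤ prt s U Q + ((Q \ U) ∩ s.clm).card := by
  have h1 : (s.db.filter (fun d => d.1 ∈ Q ∧ d.2 ∈ Q)) ⊆
      (s.db.filter (fun d => d.1 ∈ U ∧ d.2 ∈ Q)) ∪ s.db.filter (fun d => d.1 ∈ Q \ U) := by
    intro d hd
    rw [Finset.mem_filter] at hd
    rw [Finset.mem_union, Finset.mem_filter, Finset.mem_filter, Finset.mem_sdiff]
    by_cases hU : d.1 ∈ U
    · exact Or.inl ⟨hd.1, hU, hd.2.2⟩
    · exact Or.inr ⟨hd.1, hd.2.1, hU⟩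
  have h2 : (s.db.filter (fun d => d.1 ∈ Q \ U)).card ≤ ((Q \ U) ∩ s.clm).card := by
    refine Finset.card_le_card_of_injOn (fun d => d.1) ?_ ?_
    · intro d hd
      have hd' := Finset.mem_filter.1 (Finset.mem_coe.1 hd)
      exact Finset.mem_coe.2 (Finset.mem_inter.2 ⟨hd'.2, h.dcl d hd'.1⟩)
    · intro d hd d' hd' hdd
      have hd1 := Finset.mem_filter.1 (Finset.mem_coe.1 hd)
      have hd2 := Finset.mem_filter.1 (Finset.mem_coe.1 hd')
      exact h.din d hd1.1 d' hd2.1 hdd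
  unfold prt
  calc _ ≤ _ := Finset.card_le_card h1
    _ ≤ _ := Finset.card_union_le _ _
    _ ≤ _ := Nat.add_le_add_left h2 _

theorem gn_mono {lv : ℕ → ℕ} {Sg D0 Dl : ℕ} {s : St N r} (h : Ok lv Sg D0 Dl s)
    {U Q : Finset (Sym2 (Fin N))} (hUQ : U ⊆ Q) : gn s U Q ≤ gn s Q Q := by
  have h1 : ((prt s Q Q : ℕ) : ℝ) ≤ (prt s U Q : ℝ) + (((Q \ U) ∩ s.clm).card : ℝ) := by
    exact_mod_cast J2_prt_le h U Q
  have h2 : ((Q ∩ s.clm).card : ℝ) = ((U ∩ s.clm).card : ℝ) + (((Q \ U) ∩ s.clm).card : ℝ) := by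
    have h3 : Q ∩ s.clm = (U ∩ s.clm) ∪ ((Q \ U) ∩ s.clm) := by
      rw [← Finset.union_inter_distrib_right, Finset.union_sdiff_of_subset hUQ]
    have h4 : Disjoint (U ∩ s.clm) ((Q \ U) ∩ s.clm) :=
      Finset.disjoint_of_subset_left Finset.inter_subset_left
        (Finset.disjoint_of_subset_right Finset.inter_subset_left Finset.disjoint_sdiff)
    rw [h3, Finset.card_union_of_disjoint h4]
    push_cast
    ring
  have h5 : Real.log (4 / 3 : ℝ) ≤ Real.log 2 := Real.log_le_log (by norm_num) (by norm_num)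
  have h6 : 0 ≤ Real.log (4 / 3 : ℝ) := Real.log_nonneg (by norm_num)
  have h7 : (0 : ℝ) ≤ (((Q \ U) ∩ s.clm).card : ℝ) := Nat.cast_nonneg _
  unfold gn
  rw [h2]
  nlinarith [mul_le_mul_of_nonneg_right h1 h6, mul_le_mul_of_nonneg_left h5 h7]

theorem J2_offdiag {ι : Type} [Fintype ι] (f : ι → ι → ℝ) :
    ∑ i, ∑ j, f i j = ∑ i, f i i + ∑ i, ∑ j, (if i = j then 0 else f i j) := by
  rw [← Finset.sum_add_distrib]
  refine Finset.sum_congr rfl (fun i _ => ?_)
  have h1 : f i i = ∑ j, (if i = j then f i j else 0) := by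
    rw [Finset.sum_ite_eq Finset.univ i (fun j => f i j), if_pos (Finset.mem_univ i)]
  rw [h1, ← Finset.sum_add_distrib]
  refine Finset.sum_congr rfl (fun j _ => ?_)
  by_cases hij : i = j
  · rw [if_pos hij, if_pos hij, add_zero]
  · rw [if_neg hij, if_neg hij, zero_add]

theorem J2_pt {ι : Type} [Fintype ι] (p : ι → Prop) [DecidablePred p] :
    ∑ i, (if p i then (1 : ℝ) else 0) -
      (∑ i, ∑ j, (if i = j then 0 else (if p i ∧ p j then (1 : ℝ) else 0))) / 2 ≤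
      (if ∃ i, p i then (1 : ℝ) else 0) := by
  set t : ℕ := (Finset.univ.filter p).card with ht
  have h1 : ∑ i, (if p i then (1 : ℝ) else 0) = t := by
    rw [Finset.sum_boole, ht]
  have h2 : ∑ i, ∑ j, (if p i ∧ p j then (1 : ℝ) else 0) = (t : ℝ) * t := by
    rw [← h1, Finset.sum_mul_sum]
    refine Finset.sum_congr rfl (fun i _ => Finset.sum_congr rfl (fun j _ => ?_))
    by_cases hi : p i <;> by_cases hj : p j <;> simp [hi, hj]
  have h3 := J2_offdiag (fun i j : ι => if p i ∧ p j then (1 : ℝ) else 0)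
  have h4 : ∑ i, (if p i ∧ p i then (1 : ℝ) else 0) = t := by
    rw [← h1]
    refine Finset.sum_congr rfl (fun i _ => ?_)
    by_cases hi : p i <;> simp [hi]
  rw [h2, h4] at h3
  rw [h1]
  by_cases hp : ∃ i, p i
  · rw [if_pos hp]
    obtain ⟨i, hi⟩ := hp
    have ht1 : 1 ≤ t := by
      rw [ht, Nat.one_le_iff_ne_zero, Finset.card_ne_zero]
      exact ⟨i, Finset.mem_filter.2 ⟨Finset.mem_univ _, hi⟩⟩
    have h5 : (0 : ℝ) ≤ ((t : ℝ) - 1) * (t - 2) := by
      rcases Nat.lt_or_ge t 2 with h6 | h6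
      · have h7 : t = 1 := by omega
        rw [h7]
        norm_num
      · have h7 : (2 : ℝ) ≤ t := by exact_mod_cast h6
        nlinarith
    nlinarith
  · rw [if_neg hp]
    have ht0 : t = 0 := by
      rw [ht, Finset.card_eq_zero, Finset.filter_eq_empty_iff]
      intro i _ hi
      exact hp ⟨i, hi⟩
    rw [ht0] at h3 ⊢
    push_cast at h3 ⊢
    linarith

theorem J2_card {ι : Type} [Fintype ι] (C : Finset (Sym2 (Fin N)))
    (U : ι → Finset (Sym2 (Fin N))) :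
    ∑ i, ((U i ∩ C).card : ℝ) - (∑ i, ∑ j, (if i = j then 0 else ((U i ∩ U j).card : ℝ))) / 2 ≤
      (((Finset.univ.biUnion U) ∩ C).card : ℝ) := by
  have h1 : ∀ A : Finset (Sym2 (Fin N)), ((A ∩ C).card : ℝ) =
      ∑ e ∈ C, (if e ∈ A then (1 : ℝ) else 0) := by
    intro A
    rw [Finset.sum_boole, Finset.inter_comm, Finset.filter_mem_eq_inter]
  have h2 : ∑ i, ((U i ∩ C).card : ℝ) = ∑ e ∈ C, ∑ i, (if e ∈ U i then (1 : ℝ) else 0) := by
    rw [Finset.sum_comm]
    exact Finset.sum_congr rfl (fun i _ => h1 _)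
  have h3 : ∑ e ∈ C, ∑ i, ∑ j, (if i = j then 0 else
      (if e ∈ U i ∧ e ∈ U j then (1 : ℝ) else 0)) ≤
      ∑ i, ∑ j, (if i = j then 0 else ((U i ∩ U j).card : ℝ)) := by
    rw [Finset.sum_comm]
    refine Finset.sum_le_sum (fun i _ => ?_)
    rw [Finset.sum_comm]
    refine Finset.sum_le_sum (fun j _ => ?_)
    by_cases hij : i = j
    · simp [hij]
    · simp only [if_neg hij]
      have h4 : ∑ e ∈ C, (if e ∈ U i ∧ e ∈ U j then (1 : ℝ) else 0) =
          ((U i ∩ U j ∩ C).card : ℝ) := by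
        rw [h1]
        refine Finset.sum_congr rfl (fun e _ => ?_)
        simp only [Finset.mem_inter]
      rw [h4]
      exact_mod_cast Finset.card_le_card Finset.inter_subset_left
  have h5 : (((Finset.univ.biUnion U) ∩ C).card : ℝ) =
      ∑ e ∈ C, (if ∃ i, e ∈ U i then (1 : ℝ) else 0) := by
    rw [h1]
    refine Finset.sum_congr rfl (fun e _ => ?_)
    simp only [Finset.mem_biUnion, Finset.mem_univ, true_and]
  rw [h5, h2]
  have h6 : ∑ e ∈ C, (∑ i, (if e ∈ U i then (1 : ℝ) else 0) -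
      (∑ i, ∑ j, (if i = j then 0 else (if e ∈ U i ∧ e ∈ U j then (1 : ℝ) else 0))) / 2) ≤
      ∑ e ∈ C, (if ∃ i, e ∈ U i then (1 : ℝ) else 0) :=
    Finset.sum_le_sum (fun e _ => J2_pt (fun i => e ∈ U i))
  rw [Finset.sum_sub_distrib, ← Finset.sum_div] at h6
  linarith

theorem J2_prt {ι : Type} [Fintype ι] (s : St N r) (U Q : ι → Finset (Sym2 (Fin N))) :
    (prt s (Finset.univ.biUnion U) (Finset.univ.biUnion Q) : ℝ) ≤
      ∑ i, ∑ j, (prt s (U i) (Q j) : ℝ) := by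
  have h1 : prt s (Finset.univ.biUnion U) (Finset.univ.biUnion Q) ≤
      ∑ i, ∑ j, prt s (U i) (Q j) := by
    rw [← Finset.sum_product' Finset.univ Finset.univ (fun i j => prt s (U i) (Q j))]
    unfold prt
    have h2 : (s.db.filter (fun d => d.1 ∈ Finset.univ.biUnion U ∧
        d.2 ∈ Finset.univ.biUnion Q)) ⊆
        (Finset.univ ×ˢ Finset.univ : Finset (ι × ι)).biUnion
          (fun p => s.db.filter (fun d => d.1 ∈ U p.1 ∧ d.2 ∈ Q p.2)) := by
      intro d hd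
      rw [Finset.mem_filter, Finset.mem_biUnion, Finset.mem_biUnion] at hd
      obtain ⟨hd1, ⟨i, _, hi⟩, ⟨j, _, hj⟩⟩ := hd
      rw [Finset.mem_biUnion]
      exact ⟨(i, j), Finset.mem_product.2 ⟨Finset.mem_univ _, Finset.mem_univ _⟩,
        Finset.mem_filter.2 ⟨hd1, hi, hj⟩⟩
    exact (Finset.card_le_card h2).trans Finset.card_biUnion_le
  exact_mod_cast h1

theorem gn_union {ι : Type} [Fintype ι] (s : St N r) (U Q : ι → Finset (Sym2 (Fin N))) :
    ∑ i, gn s (U i) (Q i) - ∑ i, ∑ j, (if i = j then 0 else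
        (((U i ∩ U j).card : ℝ) / 2 * Real.log 2 +
          (prt s (U i) (Q j) : ℝ) * Real.log (4 / 3))) ≤
      gn s (Finset.univ.biUnion U) (Finset.univ.biUnion Q) := by
  have h2 : 0 ≤ Real.log 2 := Real.log_nonneg (by norm_num)
  have h3 : 0 ≤ Real.log (4 / 3 : ℝ) := Real.log_nonneg (by norm_num)
  have h4 := mul_le_mul_of_nonneg_right (J2_card s.clm U) h2
  have h5 := mul_le_mul_of_nonneg_right (J2_prt s U Q) h3
  rw [J2_offdiag (fun i j => (prt s (U i) (Q j) : ℝ))] at h5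
  have h6 : ∑ i, gn s (U i) (Q i) = (∑ i, ((U i ∩ s.clm).card : ℝ)) * Real.log 2 -
      (∑ i, (prt s (U i) (Q i) : ℝ)) * Real.log (4 / 3) := by
    unfold gn
    rw [Finset.sum_sub_distrib, Finset.sum_mul, Finset.sum_mul]
  have h7 : ∑ i, ∑ j, (if i = j then 0 else
        (((U i ∩ U j).card : ℝ) / 2 * Real.log 2 +
          (prt s (U i) (Q j) : ℝ) * Real.log (4 / 3))) =
      (∑ i, ∑ j, (if i = j then 0 else ((U i ∩ U j).card : ℝ))) / 2 * Real.log 2 +
      (∑ i, ∑ j, (if i = j then 0 else (prt s (U i) (Q j) : ℝ))) * Real.log (4 / 3) := by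
    rw [Finset.sum_div, Finset.sum_mul, Finset.sum_mul, ← Finset.sum_add_distrib]
    refine Finset.sum_congr rfl (fun i _ => ?_)
    rw [Finset.sum_div, Finset.sum_mul, Finset.sum_mul, ← Finset.sum_add_distrib]
    refine Finset.sum_congr rfl (fun j _ => ?_)
    by_cases hij : i = j
    · simp [hij]
    · simp only [if_neg hij]
  rw [h6, h7]
  unfold gn
  nlinarith [h4, h5]

theorem log_wt_union {lv : ℕ → ℕ} {Sg D0 Dl : ℕ} {s : St N r} (h : Ok lv Sg D0 Dl s) {ι : Type}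
    [Fintype ι] {U Q : ι → Finset (Sym2 (Fin N))} (hUQ : ∀ i, U i ⊆ Q i)
    (hQ : ∀ i, Disjoint (Q i) s.dead) :
    ∑ i, gn s (U i) (Q i) - ∑ i, ∑ j, (if i = j then 0 else
        (((U i ∩ U j).card : ℝ) / 2 * Real.log 2 +
          (prt s (U i) (Q j) : ℝ) * Real.log (4 / 3))) ≤
      Real.log (wt s (Finset.univ.biUnion Q)) := by
  have h1 : Disjoint (Finset.univ.biUnion Q) s.dead := by
    rw [Finset.disjoint_biUnion_left]
    exact fun i _ => hQ i
  rw [log_wt h1]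
  refine (gn_union s U Q).trans (gn_mono h ?_)
  intro e he
  rw [Finset.mem_biUnion] at he ⊢
  obtain ⟨i, hi, hei⟩ := he
  exact ⟨i, hi, hUQ i hei⟩

end C0st
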