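import Pool.Agent.W_c0up_h86.J1
import Pool.Agent.W_c0up_h86.J2

/-!
# MP_c0ce05_co, upper bound: expected weight of a union of independent samples

`pair_bound`: for the uniform law on `C1` let `p e` be the probability of `e ∈ U A`, `p e ≤ θ`.
The double average of `|U A ∩ U B|` is `∑_e p e * p e ≤ θ ∑_e p e = θ * average |U A| ≤ θ q^2`.
`turn_bound`: with `p' f` = probability of `f ∈ Q A` the double average of
`prt s (U A) (Q B)` is `∑_{d ∈ db} p d.1 * p' d.2 ≤ θ ∑_{d ∈ db} p' d.2 ≤ θ Dl ∑_f p' f ≤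
θ Dl q^2` (every `f` is `d.2` for at most `Dl` of the `d`, `Ok.dpr`).
`av_log_wt`: average `log_wt_union` (with `U (W i)`, `Q (W i)`): `av_one`, `av_two`, `av_mono`; the
double sum has at most `(card ι)^2` terms, each with average `≤ θ q^2 (log 2 / 2 + Dl log (4/3)) ≤
θ (1 + Dl) q^2` (`log 2 ≤ 0.7`, `log (4/3) ≤ 1/3`).
-/

set_option autoImplicit false

namespace C0st

open scoped Classical
open C0lo C0up

variable {N r : ℕ}

theorem J3_av1_le {C : Finset (Finset (Fin N))} (hC : C.Nonempty) {f : Finset (Fin N) → ℝ}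
    {c : ℝ} (h : ∀ A ∈ C, f A ≤ c) : av1 C f ≤ c := by
  unfold av1
  have hc : (0 : ℝ) < (C.card : ℝ) := by exact_mod_cast hC.card_pos
  rw [div_le_iff₀ hc]
  have h1 := Finset.sum_le_sum h
  rw [Finset.sum_const, nsmul_eq_mul] at h1
  linarith

theorem J3_av1_mono {C : Finset (Finset (Fin N))} {f g : Finset (Fin N) → ℝ}
    (h : ∀ A ∈ C, f A ≤ g A) : av1 C f ≤ av1 C g := by
  unfold av1
  exact div_le_div_of_nonneg_right (Finset.sum_le_sum h) (Nat.cast_nonneg _)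

theorem J3_swap {C : Finset (Finset (Fin N))} (F : Finset (Fin N) → Finset (Fin N) → ℝ) :
    av1 C (fun A => av1 C (fun B => F A B)) = av1 C (fun B => av1 C (fun A => F A B)) := by
  unfold av1
  rw [← Finset.sum_div, ← Finset.sum_div, Finset.sum_comm]

theorem J3_lin (C : Finset (Finset (Fin N))) (f g : Finset (Fin N) → ℝ) (a b : ℝ) :
    av1 C (fun A => f A * a + g A * b) = av1 C f * a + av1 C g * b := by
  unfold av1
  rw [Finset.sum_add_distrib, ← Finset.sum_mul, ← Finset.sum_mul]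
  ring

theorem pair_bound {C1 : Finset (Finset (Fin N))} (hC : C1.Nonempty)
    {U : Finset (Fin N) → Finset (Sym2 (Fin N))} {q : ℕ} (hUq : ∀ A ∈ C1, (U A).card ≤ q ^ 2)
    {θ : ℝ} (hθ0 : 0 ≤ θ) (hθ : ∀ e, ((C1.filter (fun A => e ∈ U A)).card : ℝ) ≤ θ * C1.card) :
    av1 C1 (fun A => av1 C1 (fun B => ((U A ∩ U B).card : ℝ))) ≤ θ * (q : ℝ) ^ 2 := by
  refine J3_av1_le hC (fun A hA => ?_)
  have hc : (0 : ℝ) < (C1.card : ℝ) := by exact_mod_cast hC.card_pos
  unfold av1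
  rw [div_le_iff₀ hc]
  have h1 : ∑ B ∈ C1, ((U A ∩ U B).card : ℝ) =
      ∑ e ∈ U A, ((C1.filter (fun B => e ∈ U B)).card : ℝ) := by
    have h2 : ∀ B ∈ C1, ((U A ∩ U B).card : ℝ) = ∑ e ∈ U A, if e ∈ U B then (1 : ℝ) else 0 := by
      intro B _
      rw [Finset.sum_ite_mem, Finset.sum_const, nsmul_eq_mul, mul_one]
    rw [Finset.sum_congr rfl h2, Finset.sum_comm]
    refine Finset.sum_congr rfl (fun e _ => ?_)
    rw [← Finset.sum_filter, Finset.sum_const, nsmul_eq_mul, mul_one]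
  rw [h1]
  calc ∑ e ∈ U A, ((C1.filter (fun B => e ∈ U B)).card : ℝ)
      ≤ ∑ _e ∈ U A, θ * C1.card := Finset.sum_le_sum (fun e _ => hθ e)
    _ = ((U A).card : ℝ) * (θ * C1.card) := by rw [Finset.sum_const, nsmul_eq_mul]
    _ ≤ ((q : ℝ) ^ 2) * (θ * C1.card) := by
        refine mul_le_mul_of_nonneg_right ?_ (mul_nonneg hθ0 hc.le)
        exact_mod_cast hUq A hA
    _ = θ * (q : ℝ) ^ 2 * C1.card := by ring

theorem turn_bound {lv : ℕ → ℕ} {Sg D0 Dl : ℕ} {s : St N r} (h : Ok lv Sg D0 Dl s)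
    {C1 : Finset (Finset (Fin N))} (hC : C1.Nonempty)
    {U Q : Finset (Fin N) → Finset (Sym2 (Fin N))} {q : ℕ}
    (hQq : ∀ A ∈ C1, (Q A).card ≤ q ^ 2)
    {θ : ℝ} (hθ0 : 0 ≤ θ) (hθ : ∀ e, ((C1.filter (fun A => e ∈ U A)).card : ℝ) ≤ θ * C1.card) :
    av1 C1 (fun A => av1 C1 (fun B => (prt s (U A) (Q B) : ℝ))) ≤
      θ * ((Dl : ℝ) * (q : ℝ) ^ 2) := by
  rw [J3_swap]
  refine J3_av1_le hC (fun B hB => ?_)
  have hc : (0 : ℝ) < (C1.card : ℝ) := by exact_mod_cast hC.card_pos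
  unfold av1
  rw [div_le_iff₀ hc]
  have h1 : ∑ A ∈ C1, (prt s (U A) (Q B) : ℝ) =
      ∑ d ∈ s.db.filter (fun d => d.2 ∈ Q B), ((C1.filter (fun A => d.1 ∈ U A)).card : ℝ) := by
    have h2 : ∀ A ∈ C1, (prt s (U A) (Q B) : ℝ) =
        ∑ d ∈ s.db.filter (fun d => d.2 ∈ Q B), if d.1 ∈ U A then (1 : ℝ) else 0 := by
      intro A _
      unfold prt
      rw [← Finset.sum_filter, Finset.sum_const, nsmul_eq_mul, mul_one, Finset.filter_filter]
      congr 3
      ext d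
      exact and_comm
    rw [Finset.sum_congr rfl h2, Finset.sum_comm]
    refine Finset.sum_congr rfl (fun d _ => ?_)
    rw [← Finset.sum_filter, Finset.sum_const, nsmul_eq_mul, mul_one]
  have h3 : (s.db.filter (fun d => d.2 ∈ Q B)).card ≤ Dl * q ^ 2 := by
    have h4 : s.db.filter (fun d => d.2 ∈ Q B) ⊆
        (Q B).biUnion (fun f => s.db.filter (fun d => d.2 = f)) := by
      intro d hd
      obtain ⟨hd1, hd2⟩ := Finset.mem_filter.1 hd
      exact Finset.mem_biUnion.2 ⟨d.2, hd2, Finset.mem_filter.2 ⟨hd1, rfl⟩⟩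
    calc (s.db.filter (fun d => d.2 ∈ Q B)).card
        ≤ ((Q B).biUnion (fun f => s.db.filter (fun d => d.2 = f))).card :=
          Finset.card_le_card h4
      _ ≤ ∑ f ∈ Q B, (s.db.filter (fun d => d.2 = f)).card := Finset.card_biUnion_le
      _ ≤ ∑ _f ∈ Q B, Dl := Finset.sum_le_sum (fun f _ => h.dpr f)
      _ = (Q B).card * Dl := by rw [Finset.sum_const, smul_eq_mul]
      _ ≤ q ^ 2 * Dl := Nat.mul_le_mul_right _ (hQq B hB)
      _ = Dl * q ^ 2 := Nat.mul_comm _ _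
  rw [h1]
  calc ∑ d ∈ s.db.filter (fun d => d.2 ∈ Q B), ((C1.filter (fun A => d.1 ∈ U A)).card : ℝ)
      ≤ ∑ _d ∈ s.db.filter (fun d => d.2 ∈ Q B), θ * C1.card :=
        Finset.sum_le_sum (fun d _ => hθ d.1)
    _ = ((s.db.filter (fun d => d.2 ∈ Q B)).card : ℝ) * (θ * C1.card) := by
        rw [Finset.sum_const, nsmul_eq_mul]
    _ ≤ ((Dl : ℝ) * (q : ℝ) ^ 2) * (θ * C1.card) := by
        refine mul_le_mul_of_nonneg_right ?_ (mul_nonneg hθ0 hc.le)
        exact_mod_cast h3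
    _ = θ * ((Dl : ℝ) * (q : ℝ) ^ 2) * C1.card := by ring

theorem av_log_wt {lv : ℕ → ℕ} {Sg D0 Dl : ℕ} {s : St N r} (h : Ok lv Sg D0 Dl s)
    {C1 : Finset (Finset (Fin N))} (hC : C1.Nonempty)
    {U Q : Finset (Fin N) → Finset (Sym2 (Fin N))} (hUQ : ∀ A ∈ C1, U A ⊆ Q A)
    (hQ : ∀ A ∈ C1, Disjoint (Q A) s.dead) {q : ℕ} (hQq : ∀ A ∈ C1, (Q A).card ≤ q ^ 2)
    {θ : ℝ} (hθ0 : 0 ≤ θ) (hθ : ∀ e, ((C1.filter (fun A => e ∈ U A)).card : ℝ) ≤ θ * C1.card)
    (ι : Type) [Fintype ι] :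
    (Fintype.card ι : ℝ) * av1 C1 (fun A => gn s (U A) (Q A)) -
        (Fintype.card ι : ℝ) ^ 2 * (θ * ((Dl : ℝ) + 1) * (q : ℝ) ^ 2) ≤
      av C1 (fun W : ι → Finset (Fin N) =>
        Real.log (wt s (Finset.univ.biUnion (fun i => Q (W i))))) := by
  have hUq : ∀ A ∈ C1, (U A).card ≤ q ^ 2 := fun A hA =>
    (Finset.card_le_card (hUQ A hA)).trans (hQq A hA)
  have h1 : av C1 (fun W : ι → Finset (Fin N) => ∑ i, gn s (U (W i)) (Q (W i)) -
      ∑ i, ∑ j, (if i = j then 0 else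
        (((U (W i) ∩ U (W j)).card : ℝ) / 2 * Real.log 2 +
          (prt s (U (W i)) (Q (W j)) : ℝ) * Real.log (4 / 3)))) ≤
      av C1 (fun W : ι → Finset (Fin N) =>
        Real.log (wt s (Finset.univ.biUnion (fun i => Q (W i))))) := by
    refine av_mono (fun W hW => ?_)
    have hW' : ∀ i, W i ∈ C1 := fun i => Fintype.mem_piFinset.1 hW i
    exact log_wt_union h (U := fun i => U (W i)) (Q := fun i => Q (W i))
      (fun i => hUQ _ (hW' i)) (fun i => hQ _ (hW' i))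
  refine le_trans ?_ h1
  rw [av_sub, av_sum]
  have h2 : ∀ i ∈ (Finset.univ : Finset ι),
      av C1 (fun W : ι → Finset (Fin N) => gn s (U (W i)) (Q (W i))) =
        av1 C1 (fun A => gn s (U A) (Q A)) := fun i _ =>
    av_one hC i (fun A => gn s (U A) (Q A))
  rw [Finset.sum_congr rfl h2, Finset.sum_const, Finset.card_univ, nsmul_eq_mul]
  refine sub_le_sub_left ?_ _
  have hK0 : 0 ≤ θ * ((Dl : ℝ) + 1) * (q : ℝ) ^ 2 := by positivity
  have hl2 : Real.log 2 ≤ 1 := by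
    have := Real.log_two_lt_d9
    linarith
  have hl20 : 0 ≤ Real.log 2 := Real.log_nonneg (by norm_num)
  have hl43 : Real.log (4 / 3 : ℝ) ≤ 1 := by
    have := Real.log_le_sub_one_of_pos (by norm_num : (0 : ℝ) < 4 / 3)
    linarith
  have hl430 : 0 ≤ Real.log (4 / 3 : ℝ) := Real.log_nonneg (by norm_num)
  rw [av_sum]
  have h3 : ∀ i ∈ (Finset.univ : Finset ι), av C1 (fun W : ι → Finset (Fin N) =>
      ∑ j, (if i = j then 0 else (((U (W i) ∩ U (W j)).card : ℝ) / 2 * Real.log 2 +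
          (prt s (U (W i)) (Q (W j)) : ℝ) * Real.log (4 / 3)))) ≤
      (Fintype.card ι : ℝ) * (θ * ((Dl : ℝ) + 1) * (q : ℝ) ^ 2) := by
    intro i _
    rw [av_sum]
    have h4 : ∀ j ∈ (Finset.univ : Finset ι), av C1 (fun W : ι → Finset (Fin N) =>
        (if i = j then 0 else (((U (W i) ∩ U (W j)).card : ℝ) / 2 * Real.log 2 +
          (prt s (U (W i)) (Q (W j)) : ℝ) * Real.log (4 / 3)))) ≤
        θ * ((Dl : ℝ) + 1) * (q : ℝ) ^ 2 := by
      intro j _
      by_cases hij : i = j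
      · simp only [if_pos hij]
        rw [av_const hC]
        exact hK0
      · simp only [if_neg hij]
        rw [av_two hC hij (fun A B => ((U A ∩ U B).card : ℝ) / 2 * Real.log 2 +
          (prt s (U A) (Q B) : ℝ) * Real.log (4 / 3))]
        have h5 : av1 C1 (fun A => av1 C1 (fun B => ((U A ∩ U B).card : ℝ) / 2 * Real.log 2 +
            (prt s (U A) (Q B) : ℝ) * Real.log (4 / 3))) =
            av1 C1 (fun A => av1 C1 (fun B => ((U A ∩ U B).card : ℝ))) * (Real.log 2 / 2) +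
            av1 C1 (fun A => av1 C1 (fun B => (prt s (U A) (Q B) : ℝ))) *
              Real.log (4 / 3) := by
          rw [← J3_lin]
          congr 1
          funext A
          rw [← J3_lin]
          congr 1
          funext B
          ring
        rw [h5]
        have h6 := pair_bound hC hUq hθ0 hθ
        have h7 := turn_bound h hC hQq hθ0 hθ
        have h8 := mul_le_mul_of_nonneg_right h6 (by positivity : 0 ≤ Real.log 2 / 2)
        have h9 := mul_le_mul_of_nonneg_right h7 hl430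
        have h10 : 0 ≤ θ * (q : ℝ) ^ 2 := by positivity
        have h11 : 0 ≤ θ * ((Dl : ℝ) * (q : ℝ) ^ 2) := by positivity
        have h12 : θ * (q : ℝ) ^ 2 * (Real.log 2 / 2) ≤ θ * (q : ℝ) ^ 2 * 1 :=
          mul_le_mul_of_nonneg_left (by linarith) h10
        have h13 : θ * ((Dl : ℝ) * (q : ℝ) ^ 2) * Real.log (4 / 3) ≤
            θ * ((Dl : ℝ) * (q : ℝ) ^ 2) * 1 := mul_le_mul_of_nonneg_left hl43 h11
        nlinarith
    refine le_trans (Finset.sum_le_sum h4) ?_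
    rw [Finset.sum_const, Finset.card_univ, nsmul_eq_mul]
  calc _ ≤ ∑ _i : ι, (Fintype.card ι : ℝ) * (θ * ((Dl : ℝ) + 1) * (q : ℝ) ^ 2) :=
        Finset.sum_le_sum h3
    _ = (Fintype.card ι : ℝ) ^ 2 * (θ * ((Dl : ℝ) + 1) * (q : ℝ) ^ 2) := by
        rw [Finset.sum_const, Finset.card_univ, nsmul_eq_mul]
        ring

end C0st
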