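import Mathlib

/-!
# MP_c0ce05_co, upper bounds: the numerical inequality (NUM')

Scaled variables: `s = |G| / L`, `x = |F| / L`, `c = q / L ≥ 2 + e`, `γ = log2 (4/3)`. With
`y = x^2/2 + s (c - x) = (x-s)^2/2 + c s - s^2/2` the number of claimed pairs is
`cl ≥ y - η - δ`, the number `D` of discounts is at most `cl` and at most `y - s^2/2 + δ`.
-/

set_option autoImplicit false

namespace C0st

theorem gamma_bounds : (0.415 : ℝ) < Real.logb 2 (4 / 3) ∧ Real.logb 2 (4 / 3) < 0.4151 := by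
  have h2 : (1 : ℝ) < 2 := by norm_num
  constructor
  · rw [Real.lt_logb_iff_rpow_lt h2 (by norm_num)]
    have h3 : ((2 : ℝ) ^ (0.415 : ℝ)) ^ (200 : ℝ) = 2 ^ (83 : ℝ) := by
      rw [← Real.rpow_mul (by norm_num)]
      norm_num
    by_contra hcon
    rw [not_lt] at hcon
    have h4 := Real.rpow_le_rpow (by norm_num) hcon (by norm_num : (0 : ℝ) ≤ 200)
    rw [h3] at h4
    have h5 : (4 / 3 : ℝ) ^ (200 : ℝ) = (4 / 3) ^ (200 : ℕ) := by
      rw [← Real.rpow_natCast]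
      norm_num
    have h6 : (2 : ℝ) ^ (83 : ℝ) = 2 ^ (83 : ℕ) := by
      rw [← Real.rpow_natCast]
      norm_num
    rw [h5, h6] at h4
    norm_num at h4
  · refine lt_trans ?_ (by norm_num : (22 / 53 : ℝ) < 0.4151)
    rw [Real.logb_lt_iff_lt_rpow h2 (by norm_num)]
    have h3 : ((2 : ℝ) ^ (22 / 53 : ℝ)) ^ (53 : ℝ) = 2 ^ (22 : ℝ) := by
      rw [← Real.rpow_mul (by norm_num)]
      norm_num
    by_contra hcon
    rw [not_lt] at hcon
    have h4 := Real.rpow_le_rpow (by positivity) hcon (by norm_num : (0 : ℝ) ≤ 53)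
    rw [h3] at h4
    have h5 : (4 / 3 : ℝ) ^ (53 : ℝ) = (4 / 3) ^ (53 : ℕ) := by
      rw [← Real.rpow_natCast]
      norm_num
    have h6 : (2 : ℝ) ^ (22 : ℝ) = 2 ^ (22 : ℕ) := by
      rw [← Real.rpow_natCast]
      norm_num
    rw [h5, h6] at h4
    norm_num at h4

/-- the scaled inequality -/
theorem num_scaled {γ e η δ s x c cl D : ℝ} (hγ : 0.415 < γ) (hγ' : γ < 0.4151)
    (he : 0 < e) (he1 : e ≤ 0.1) (hη : η = e) (hδ : 0 ≤ δ) (hs : 0 ≤ s) (hsx : s ≤ x)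
    (hxc : x ≤ c) (hc : 2 + e ≤ c) (hcl : x ^ 2 / 2 + s * (c - x) - η - δ ≤ cl)
    (hD0 : 0 ≤ D) (hD1 : D ≤ cl) (hD2 : D ≤ x ^ 2 / 2 + s * (c - x) - s ^ 2 / 2 + δ) :
    s - cl + γ * D ≤ 0.57 * η + 2 * δ := by
  subst hη
  have hcl0 : 0 ≤ cl := hD0.trans hD1
  have hy : c * s - s ^ 2 / 2 ≤ x ^ 2 / 2 + s * (c - x) := by nlinarith [sq_nonneg (x - s)]
  have hDcl : γ * D ≤ γ * cl := mul_le_mul_of_nonneg_left hD1 (by linarith)
  rcases le_or_gt s (0.57 * η) with h1 | h1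
  · nlinarith
  rcases le_or_gt s 0.5 with h2 | h2
  · -- first estimate
    have h3 : s - cl + γ * D ≤ s - (1 - γ) * cl := by linarith
    have h4 : (1 - γ) * (c * s - s ^ 2 / 2 - η - δ) ≤ (1 - γ) * cl :=
      mul_le_mul_of_nonneg_left (by linarith) (by linarith)
    have h5 : (2 + η) * s ≤ c * s := mul_le_mul_of_nonneg_right hc hs
    have h6 : (1 - γ) * ((2 + η) * s - s ^ 2 / 2 - η - δ) ≤
        (1 - γ) * (c * s - s ^ 2 / 2 - η - δ) :=
      mul_le_mul_of_nonneg_left (by linarith) (by linarith)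
    have h7 : 0.5849 * ((2 + η) * s - s ^ 2 / 2) ≤ (1 - γ) * ((2 + η) * s - s ^ 2 / 2) := by
      refine mul_le_mul_of_nonneg_right (by linarith) ?_
      nlinarith
    have h8 : (1 - γ) * (η + δ) ≤ 0.585 * (η + δ) :=
      mul_le_mul_of_nonneg_right (by linarith) (by linarith)
    have h9 : 0 ≤ (s - 0.57 * η) * (0.5 - s) := mul_nonneg (by linarith) (by linarith)
    nlinarith
  · -- second estimate
    have h3 : γ * D ≤ γ * (x ^ 2 / 2 + s * (c - x) - s ^ 2 / 2 + δ) :=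
      mul_le_mul_of_nonneg_left hD2 (by linarith)
    have h4 : (1 - γ) * (c * s - s ^ 2 / 2) ≤ (1 - γ) * (x ^ 2 / 2 + s * (c - x)) :=
      mul_le_mul_of_nonneg_left hy (by linarith)
    have h5 : s - cl + γ * D ≤ s * (1 - (1 - γ) * c) + (1 / 2 - γ) * s ^ 2 + η + (1 + γ) * δ := by
      nlinarith
    have hsc : s ≤ c := hsx.trans hxc
    have h6 : 0 ≤ (1 / 2 - γ) * ((s - 0.5) * (c - s)) :=
      mul_nonneg (by linarith) (mul_nonneg (by linarith) (by linarith))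
    -- the value at the two ends
    have hf1 : 0.5 * (1 - (1 - γ) * c) + (1 / 2 - γ) * 0.5 ^ 2 + η ≤ 0.57 * η := by
      nlinarith
    have hf2 : c * (1 - (1 - γ) * c) + (1 / 2 - γ) * c ^ 2 + η ≤ 0.57 * η := by
      nlinarith
    have hc5 : 0 < c - 0.5 := by linarith
    have h7 : (c - 0.5) * (s * (1 - (1 - γ) * c) + (1 / 2 - γ) * s ^ 2 + η) ≤
        (c - 0.5) * (0.57 * η) := by
      have e1 : (c - 0.5) * (s * (1 - (1 - γ) * c) + (1 / 2 - γ) * s ^ 2 + η) =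
          (c - s) * (0.5 * (1 - (1 - γ) * c) + (1 / 2 - γ) * 0.5 ^ 2 + η) +
          (s - 0.5) * (c * (1 - (1 - γ) * c) + (1 / 2 - γ) * c ^ 2 + η) -
          (c - 0.5) * ((1 / 2 - γ) * ((s - 0.5) * (c - s))) := by ring
      rw [e1]
      have e2 := mul_le_mul_of_nonneg_left hf1 (by linarith : (0 : ℝ) ≤ c - s)
      have e3 := mul_le_mul_of_nonneg_left hf2 (by linarith : (0 : ℝ) ≤ s - 0.5)
      have e4 : 0 ≤ (c - 0.5) * ((1 / 2 - γ) * ((s - 0.5) * (c - s))) :=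
        mul_nonneg hc5.le h6
      nlinarith
    have h8 := le_of_mul_le_mul_left h7 hc5
    nlinarith

end C0st
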