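import Pool.Agent.W_c0up_h86.B1

/-!
# MP_c0ce05_co, upper bound: the masses of the structures of step `k` have sum at most `1`

`typed_sum`: `∑_γ N^(-|γ|)` over all finsets `γ` of `Fin N × Fin (r+1)` is
`(1 + 1/N) ^ (N * (r+1))` (`Finset.prod_one_add` or `Finset.sum_pow_mul_eq_add_pow`, binomial
theorem over `Finset.powerset univ`), and `(1 + 1/N) ^ N ≤ e` (`Real.add_one_le_exp`).

`rho_sum`: a structure `om : Idx b (k+1) → Leaf N r` (recall `Idx b (k+1) = Fin (b k) × Idx b k`)
in `Om` is a pair of functions `T : Idx b (k+1) → Finset (Fin N)` with values in `Sub lv q s k`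
and `γ : Idx b (k+1) → Finset (Fin N × Fin (r+1))` (arbitrary), and `rho` is the product of
`∏_j (f (T (j, ·)) / Z)` with `f (T') = (∏ i, N^(-|Ge (T' i)|)) * WW (T')` and of
`∏_i N^(-|γ i|) / exp (r+1)`. The sum of the first product over all `T` is
`∏_j ((∑_{T'} f T') / Z) = ∏_j (Z / Z) ≤ 1` (the definition of `Z`; `Z / Z ≤ 1` also for `Z = 0`),
the sum of the second one over all `γ` is `∏_i ((∑_γ N^(-|γ|)) / exp (r+1)) ≤ 1`.
In Lean: reindex with `Fintype.piFinset` and products, e.g. use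
`Finset.prod_univ_sum` / `Finset.sum_prod_piFinset`, and curry `Fin (b k) × Idx b k → α` to
`Fin (b k) → Idx b k → α` (`Equiv.curry`).
-/

set_option autoImplicit false

namespace C0st

open scoped Classical
open C0lo C0up

variable {N r : ℕ}

private theorem R1_split {ι α β : Type} [Fintype ι] [DecidableEq ι] [Fintype β] (S : Finset α)
    (F : (ι → α) → ℝ) (G : (ι → β) → ℝ) :
    ∑ om ∈ Fintype.piFinset (fun _ : ι => S ×ˢ (Finset.univ : Finset β)),
      F (fun i => (om i).1) * G (fun i => (om i).2)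
      = (∑ T ∈ Fintype.piFinset (fun _ : ι => S), F T) *
        ∑ g ∈ Fintype.piFinset (fun _ : ι => (Finset.univ : Finset β)), G g := by
  rw [Finset.sum_mul_sum, ← Finset.sum_product']
  refine Finset.sum_nbij' (fun om => (fun i => (om i).1, fun i => (om i).2))
    (fun p i => (p.1 i, p.2 i)) ?_ ?_ ?_ ?_ ?_
  · intro om hom
    rw [Fintype.mem_piFinset] at hom
    rw [Finset.mem_product]
    refine ⟨Fintype.mem_piFinset.2 fun i => (Finset.mem_product.1 (hom i)).1,
      Fintype.mem_piFinset.2 fun i => Finset.mem_univ _⟩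
  · intro p hp
    rw [Finset.mem_product] at hp
    rw [Fintype.mem_piFinset]
    intro i
    exact Finset.mem_product.2 ⟨Fintype.mem_piFinset.1 hp.1 i, Finset.mem_univ _⟩
  · intro om _; rfl
  · intro p _; rfl
  · intro om _; rfl

private theorem R1_curry {ι J I α : Type} [Fintype ι] [DecidableEq ι] [Fintype J] [DecidableEq J]
    [Fintype I] [DecidableEq I] (e : J × I ≃ ι) (S : Finset α) (f : (I → α) → ℝ) :
    ∑ T ∈ Fintype.piFinset (fun _ : ι => S), ∏ j : J, f (fun i => T (e (j, i)))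
      = ∏ _j : J, ∑ T ∈ Fintype.piFinset (fun _ : I => S), f T := by
  rw [Finset.prod_univ_sum]
  refine Finset.sum_nbij' (fun T j i => T (e (j, i)))
    (fun U x => U (e.symm x).1 (e.symm x).2) ?_ ?_ ?_ ?_ ?_
  · intro T hT
    rw [Fintype.mem_piFinset] at hT ⊢
    intro j
    rw [Fintype.mem_piFinset]
    intro i
    exact hT _
  · intro U hU
    rw [Fintype.mem_piFinset] at hU ⊢
    intro x
    exact Fintype.mem_piFinset.1 (hU _) _
  · intro T _
    funext x
    simp only [Prod.mk.eta, Equiv.apply_symm_apply]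
  · intro U _
    funext j i
    simp only [Equiv.symm_apply_apply]
  · intro T _
    rfl

theorem typed_sum (hN : 1 ≤ N) :
    ∑ g : Finset (Fin N × Fin (r + 1)), ((N : ℝ)⁻¹) ^ g.card ≤ Real.exp ((r : ℝ) + 1) := by
  have h1 := Fintype.sum_pow_mul_eq_add_pow (Fin N × Fin (r + 1)) ((N : ℝ)⁻¹) 1
  simp only [one_pow, mul_one] at h1
  rw [h1]
  have hN' : (0 : ℝ) < N := by exact_mod_cast hN
  have hc : Fintype.card (Fin N × Fin (r + 1)) = N * (r + 1) := by
    rw [Fintype.card_prod, Fintype.card_fin, Fintype.card_fin]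
  rw [hc]
  calc ((N : ℝ)⁻¹ + 1) ^ (N * (r + 1)) ≤ (Real.exp ((N : ℝ)⁻¹)) ^ (N * (r + 1)) :=
        pow_le_pow_left₀ (by positivity) (Real.add_one_le_exp _) _
    _ = Real.exp ((r : ℝ) + 1) := by
        rw [← Real.exp_nat_mul]
        congr 1
        push_cast
        field_simp

theorem rho_sum (hN : 1 ≤ N) (lv b : ℕ → ℕ) (q : ℕ) (s : St N r) (k : ℕ) :
    ∑ om ∈ Om lv b q s k, rho lv b q s k om ≤ 1 := by
  unfold Om rho
  have h1 := R1_split (ι := Idx b (k + 1)) (β := Finset (Fin N × Fin (r + 1))) (Sub lv q s k)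
    (fun T => ∏ j : Fin (b k), ((∏ i : Idx b k, ((N : ℝ)⁻¹) ^ (Ge lv s (T (j, i))).card) *
      WW lv b s k (fun i => T (j, i)) / Z lv b q s k))
    (fun g => ∏ i : Idx b (k + 1), (((N : ℝ)⁻¹) ^ (g i).card / Real.exp ((r : ℝ) + 1)))
  have h2 := R1_curry (ι := Idx b (k + 1)) (J := Fin (b k)) (I := Idx b k) (Equiv.refl _)
    (Sub lv q s k) (fun T : Idx b k → Finset (Fin N) =>
      (∏ i : Idx b k, ((N : ℝ)⁻¹) ^ (Ge lv s (T i)).card) * WW lv b s k T / Z lv b q s k)
  have h3 : ∑ g ∈ Fintype.piFinset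
      (fun _ : Idx b (k + 1) => (Finset.univ : Finset (Finset (Fin N × Fin (r + 1))))),
      ∏ i : Idx b (k + 1), (((N : ℝ)⁻¹) ^ (g i).card / Real.exp ((r : ℝ) + 1))
      = ∏ _i : Idx b (k + 1), ∑ g : Finset (Fin N × Fin (r + 1)),
        ((N : ℝ)⁻¹) ^ g.card / Real.exp ((r : ℝ) + 1) :=
    (Finset.prod_univ_sum (fun _ : Idx b (k + 1) =>
      (Finset.univ : Finset (Finset (Fin N × Fin (r + 1)))))
      (fun _ g => ((N : ℝ)⁻¹) ^ g.card / Real.exp ((r : ℝ) + 1))).symm
  refine le_trans (le_of_eq h1) ?_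
  rw [h3]
  refine mul_le_one₀ ?_ (Finset.prod_nonneg fun i _ => Finset.sum_nonneg fun g _ => by positivity)
    ?_
  · refine le_trans (le_of_eq h2) (Finset.prod_le_one (fun j _ => ?_) (fun j _ => ?_))
    · exact Finset.sum_nonneg fun T _ => div_nonneg (mul_nonneg
        (Finset.prod_nonneg fun i _ => by positivity) (WW_nonneg _ _ _ _ _)) (Z_nonneg _ _ _ _ _)
    · rw [← Finset.sum_div]
      exact div_self_le_one (Z lv b q s k)
  · refine Finset.prod_le_one (fun j _ => Finset.sum_nonneg fun g _ => by positivity)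
      (fun j _ => ?_)
    rw [← Finset.sum_div, div_le_one (Real.exp_pos _)]
    exact typed_sum hN

end C0st
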