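import Pool.Agent.W_c0up_h86.B1

/-!
# MP_c0ce05_co, upper bound: the restricted state `restr lv k s` (basic facts)

For `x ∈ Vs lv s k` the type of `x` in `restr lv k s` is the type in `s`, all other vertices get
`Fin.last (r+1)`, whose value is `r + 1 > r`. So `Vs lv (restr lv k s) j = Vs lv s j` for `j ≤ k`
(`Vs_mono`: a vertex outside `Vs lv s k` is not in `Vs lv s j`), and for `S ⊆ Vs lv s k` the sets
`Dr`, `Ge`, `Pairs` do not change (the relation and the types on `Vs lv s k` are the same; the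
level `tau` of an edge with both ends in `Vs lv s k` is the same, see `tau_restr`; induction on
`Sym2`). `EE` for `c.1 ⊆ Vs lv s k` only uses `Pairs lv s k c.1`, the hub and the types of
`h ∈ c.1`. `wt_restr`: if all edges of `Q` satisfy `Low lv s k` then `Q ∩ dead`, `Q ∩ clm` and the
turns inside `Q` are the same for `s` and `restr lv k s`.
-/

set_option autoImplicit false

namespace C0st

open scoped Classical
open C0lo C0up

variable {N r : ℕ}

private theorem R2_ty_of_mem {lv : ℕ → ℕ} {s : St N r} {k : ℕ} {x : Fin N}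
    (hx : x ∈ Vs lv s k) : (restr lv k s).ty x = s.ty x := by
  simp only [restr, if_pos hx]

private theorem R2_ty_of_notMem {lv : ℕ → ℕ} {s : St N r} {k : ℕ} {x : Fin N}
    (hx : x ∉ Vs lv s k) : (restr lv k s).ty x = Fin.last (r + 1) := by
  simp only [restr, if_neg hx]

theorem Vs_restr {lv : ℕ → ℕ} {Sg D0 Dl : ℕ} {s : St N r} (h : Ok lv Sg D0 Dl s) {j k : ℕ}
    (hjk : j ≤ k) : Vs lv (restr lv k s) j = Vs lv s j := by
  ext x
  by_cases hx : x ∈ Vs lv s k
  · rw [mem_Vs, mem_Vs, R2_ty_of_mem hx]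
  · constructor
    · intro h1
      rw [mem_Vs, R2_ty_of_notMem hx] at h1
      have h2 := h1.2
      rw [Fin.val_last] at h2
      omega
    · intro h1
      exact absurd (Vs_mono h hjk h1) hx

theorem tau_restr {lv : ℕ → ℕ} {s : St N r} {k : ℕ} {e : Sym2 (Fin N)}
    (he : ∀ x ∈ e, x ∈ Vs lv s k) : tau (restr lv k s) e = tau s e := by
  induction e with
  | h x y =>
    unfold tau
    simp only [Sym2.lift_mk]
    rw [R2_ty_of_mem (he x (Sym2.mem_mk_left x y)), R2_ty_of_mem (he y (Sym2.mem_mk_right x y))]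

theorem Dr_restr {lv : ℕ → ℕ} {Sg D0 Dl : ℕ} {s : St N r} (h : Ok lv Sg D0 Dl s) {k : ℕ}
    {S : Finset (Fin N)} (hS : S ⊆ Vs lv s k) : Dr lv (restr lv k s) S = Dr lv s S := by
  ext x
  rw [mem_Dr, mem_Dr, Vs_restr h (Nat.zero_le k)]
  constructor
  · rintro ⟨h1, h2, a, ha, h3⟩
    simp only [restr, Finset.mem_filter] at h3
    exact ⟨h1, h2, a, ha, h3.1⟩
  · rintro ⟨h1, h2, a, ha, h3⟩
    refine ⟨h1, h2, a, ha, ?_⟩
    simp only [restr, Finset.mem_filter]
    exact ⟨h3, hS ha, hS h1⟩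

theorem Ge_restr {lv : ℕ → ℕ} {Sg D0 Dl : ℕ} {s : St N r} (h : Ok lv Sg D0 Dl s) {k : ℕ}
    {S : Finset (Fin N)} (hS : S ⊆ Vs lv s k) : Ge lv (restr lv k s) S = Ge lv s S := by
  ext x
  rw [mem_Ge, mem_Ge, Vs_restr h (Nat.zero_le k), Dr_restr h hS]

theorem Pairs_restr {lv : ℕ → ℕ} {Sg D0 Dl : ℕ} {s : St N r} (h : Ok lv Sg D0 Dl s) {k : ℕ} (j : ℕ)
    {S : Finset (Fin N)} (hS : S ⊆ Vs lv s k) :
    Pairs lv (restr lv k s) j S = Pairs lv s j S := by
  unfold Pairs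
  refine Finset.filter_congr fun e he => ?_
  have h1 : ∀ x ∈ e, x ∈ Vs lv s k := fun x hx => hS ((mem_ed.1 he).1 x hx)
  rw [tau_restr h1]
  unfold Fine
  rw [Vs_restr h (Nat.zero_le k), Dr_restr h hS]

theorem EE_restr {lv : ℕ → ℕ} {Sg D0 Dl : ℕ} {s : St N r} (h : Ok lv Sg D0 Dl s) {k : ℕ}
    {c : Leaf N r} (hc : c.1 ⊆ Vs lv s k) : EE lv (restr lv k s) k c = EE lv s k c := by
  unfold EE
  rw [Pairs_restr h k hc, Vs_restr h (Nat.zero_le k)]
  congr 1
  refine Finset.filter_congr fun e _ => ?_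
  constructor
  · rintro ⟨h1, x, hx, h2, g, hg, h3, h4⟩
    rw [R2_ty_of_mem (hc hx)] at h4
    exact ⟨h1, x, hx, h2, g, hg, h3, h4⟩
  · rintro ⟨h1, x, hx, h2, g, hg, h3, h4⟩
    refine ⟨h1, x, hx, h2, g, hg, h3, ?_⟩
    rw [R2_ty_of_mem (hc hx)]
    exact h4

theorem wt_restr {lv : ℕ → ℕ} {s : St N r} {k : ℕ} {Q : Finset (Sym2 (Fin N))}
    (hQ : ∀ e ∈ Q, Low lv s k e) : wt (restr lv k s) Q = wt s Q := by
  have h1 : Disjoint Q (restr lv k s).dead ↔ Disjoint Q s.dead := by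
    simp only [restr, Finset.disjoint_left, Finset.mem_filter, not_and]
    constructor
    · intro h e he h2
      exact h he h2 (hQ e he)
    · intro h e he h2
      exact absurd h2 (h he)
  have h2 : Q ∩ (restr lv k s).clm = Q ∩ s.clm := by
    ext e
    simp only [restr, Finset.mem_inter, Finset.mem_filter]
    constructor
    · rintro ⟨h3, h4, -⟩; exact ⟨h3, h4⟩
    · rintro ⟨h3, h4⟩; exact ⟨h3, h4, hQ e h3⟩
  have h3 : dbl (restr lv k s) Q = dbl s Q := by
    unfold dbl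
    congr 1
    ext d
    simp only [restr, Finset.mem_filter]
    constructor
    · rintro ⟨⟨h4, -⟩, h5⟩; exact ⟨h4, h5⟩
    · rintro ⟨h4, h5⟩; exact ⟨⟨h4, hQ _ h5.1, hQ _ h5.2⟩, h5⟩
  unfold wt
  rw [h2, h3]
  by_cases h4 : Disjoint Q s.dead
  · rw [if_pos h4, if_pos (h1.2 h4)]
  · rw [if_neg h4, if_neg (fun h5 => h4 (h1.1 h5))]

end C0st
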