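import Pool.Agent.W_c0up_h86.B2
import Pool.Agent.W_c0up_h86.B3
import Pool.Agent.W_c0up_h86.F1

/-!
# MP_c0ce05_co, upper bound: one step of the recursion of the partition functions

`Z (k+1)` is a sum over trees `W : Idx b (k+1) → Finset (Fin N)` with leaves in `Sub (k+1)` (so
inside `Vs (k+1)`, all vertices have type `≤ r`). Put `om = fun i => red lv s k (W i)`.
* `om ∈ Om lv b q s k`: `(om i).1 = W i ∩ Vs k ∈ Sub k`.
* `∏_i N^(-|Ge (W i)|) = ∏_i N^(-|Ge (om i).1|) * ∏_i N^(-|(om i).2|)` (`Ge_card_red`).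
* `WW (k+1) W = wt s (QQ lv b s k om) * ∏_j WW k (fun i => (om (j, i)).1)`: `Pairs_eq_EE` for each
  leaf and `WW_inter` with `k' = k` for each child.
* so the term of `W` is `wt s (QQ om) * rho lv b q s k om * (exp (r+1))^(mm b (k+1)) *
  (Z k)^(b k)` if `Z k ≠ 0` (`∏ i : Idx b (k+1), (x i / e) = (∏ x i) / e ^ mm b (k+1)`,
  `card_Idx`). If `Z k = 0` the term is `0`: every
  `(∏_i N^(-|Ge (om (j,i)).1|)) * WW k (fun i => (om (j, i)).1)` is one of the nonnegative terms
  of the sum `Z k = 0` (take `j = 0`, `b k > 0`), and then the claim is `0 ≤ ...`.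
* the number of `W` with the same `om` is at most `((q D0 + 1)^q)^(mm b (k+1))`: the set of these
  `W` is contained in `Fintype.piFinset (fun i => (Sub (k+1)).filter (red = om i))`, use `fibre`.
So `Z (k+1) ≤ ∑_{om ∈ Om} fib^(mm) * wt * rho * exp^(mm) * Z^b` (`Finset.sum_fiberwise_of_maps_to`
or `Finset.card_eq_sum_card_fiberwise`-type argument), and the hypothesis bounds the sum of
`rho * wt`. (`Λ ≥ 0` follows from the hypothesis.)
-/

set_option autoImplicit false

namespace C0st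

open scoped Classical
open C0lo C0up

variable {N r : ℕ}

theorem S1_prod (b : ℕ → ℕ) (k : ℕ) (f : Idx b (k + 1) → ℝ) :
    ∏ i : Idx b (k + 1), f i = ∏ j : Fin (b k), ∏ i : Idx b k, f (j, i) :=
  Fintype.prod_prod_type (f := fun x : Fin (b k) × Idx b k => f x)

theorem S1_mem_Sub {lv : ℕ → ℕ} {q : ℕ} {s : St N r} {k : ℕ} {S : Finset (Fin N)} :
    S ∈ Sub lv q s k ↔ S ⊆ Vs lv s k ∧ S.card ≤ q := by
  unfold Sub
  rw [Finset.mem_filter, Finset.mem_powerset]

/-- the term of a family of reductions -/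
noncomputable def S1_G (lv b : ℕ → ℕ) (s : St N r) (k : ℕ) (om : Idx b (k + 1) → Leaf N r) : ℝ :=
  (∏ i : Idx b (k + 1), (((N : ℝ)⁻¹) ^ (Ge lv s (om i).1).card * ((N : ℝ)⁻¹) ^ (om i).2.card)) *
    (wt s (QQ lv b s k om) * ∏ j : Fin (b k), WW lv b s k (fun i => (om (j, i)).1))

theorem S1_term {lv : ℕ → ℕ} {Sg D0 Dl : ℕ} {s : St N r} (h : Ok lv Sg D0 Dl s) (b : ℕ → ℕ)
    (q : ℕ) {k : ℕ} (W : Idx b (k + 1) → Finset (Fin N)) (hW : ∀ i, W i ∈ Sub lv q s (k + 1)) :
    (∏ i, ((N : ℝ)⁻¹) ^ (Ge lv s (W i)).card) * WW lv b s (k + 1) W =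
      S1_G lv b s k (fun i => red lv s k (W i)) := by
  have hty : ∀ i, ∀ x ∈ W i, (s.ty x : ℕ) ≤ r := fun i x hx =>
    (mem_Vs.1 ((S1_mem_Sub.1 (hW i)).1 hx)).2
  unfold S1_G
  congr 1
  · refine Finset.prod_congr rfl ?_
    intro i _
    rw [← pow_add, ← Ge_card_red h k (W i)]
  · have h1 : ∀ i : Idx b (k + 1), Pairs lv s k (W i) = EE lv s k (red lv s k (W i)) :=
      fun i => Pairs_eq_EE h k (S1_mem_Sub.1 (hW i)).1
    have h2 : ∀ j : Fin (b k), WW lv b s k (fun i => W (j, i)) =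
        WW lv b s k (fun i => (red lv s k (W (j, i))).1) :=
      fun j => WW_inter h b le_rfl (fun i => hty (j, i))
    have h3 : WW lv b s (k + 1) W =
        wt s (Finset.univ.biUnion (fun i : Idx b (k + 1) => Pairs lv s k (W i))) *
          ∏ j : Fin (b k), WW lv b s k (fun i => W (j, i)) := rfl
    rw [h3]
    unfold QQ
    simp only [h1]
    congr 1
    exact Finset.prod_congr rfl (fun j _ => h2 j)

theorem S1_le {lv : ℕ → ℕ} {s : St N r} (b : ℕ → ℕ) (q : ℕ) {k : ℕ} (hb : 0 < b k)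
    (om : Idx b (k + 1) → Leaf N r) (hom : om ∈ Om lv b q s k) :
    S1_G lv b s k om ≤ Real.exp ((r : ℝ) + 1) ^ mm b (k + 1) * Z lv b q s k ^ b k *
      (rho lv b q s k om * wt s (QQ lv b s k om)) := by
  have hom' : ∀ i, (om i).1 ∈ Sub lv q s k := by
    intro i
    have h1 := Fintype.mem_piFinset.1 hom i
    exact (Finset.mem_product.1 h1).1
  have hX : Real.exp ((r : ℝ) + 1) ≠ 0 := (Real.exp_pos _).ne'
  have hG : S1_G lv b s k om = (∏ j : Fin (b k),
      ((∏ i : Idx b k, ((N : ℝ)⁻¹) ^ (Ge lv s (om (j, i)).1).card) *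
        WW lv b s k (fun i => (om (j, i)).1))) *
      (∏ i : Idx b (k + 1), ((N : ℝ)⁻¹) ^ (om i).2.card) * wt s (QQ lv b s k om) := by
    unfold S1_G
    rw [Finset.prod_mul_distrib, Finset.prod_mul_distrib,
      S1_prod b k (fun i => ((N : ℝ)⁻¹) ^ (Ge lv s (om i).1).card)]
    ring
  by_cases hZ : Z lv b q s k = 0
  · have h0 : (∏ i : Idx b k, ((N : ℝ)⁻¹) ^ (Ge lv s (om ((⟨0, hb⟩ : Fin (b k)), i)).1).card) *
        WW lv b s k (fun i => (om ((⟨0, hb⟩ : Fin (b k)), i)).1) = 0 := by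
      have h1 : (fun i : Idx b k => (om ((⟨0, hb⟩ : Fin (b k)), i)).1) ∈
          Fintype.piFinset (fun _ : Idx b k => Sub lv q s k) :=
        Fintype.mem_piFinset.2 (fun i => hom' _)
      have h2 : ∀ W ∈ Fintype.piFinset (fun _ : Idx b k => Sub lv q s k),
          0 ≤ (∏ i, ((N : ℝ)⁻¹) ^ (Ge lv s (W i)).card) * WW lv b s k W := fun W _ =>
        mul_nonneg (Finset.prod_nonneg (fun i _ => by positivity)) (WW_nonneg _ _ _ _ _)
      exact (Finset.sum_eq_zero_iff_of_nonneg h2).1 hZ _ h1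
    have h3 : ∏ j : Fin (b k),
        ((∏ i : Idx b k, ((N : ℝ)⁻¹) ^ (Ge lv s (om (j, i)).1).card) *
          WW lv b s k (fun i => (om (j, i)).1)) = 0 :=
      Finset.prod_eq_zero (Finset.mem_univ (⟨0, hb⟩ : Fin (b k))) h0
    rw [hG, h3, hZ, zero_pow hb.ne']
    simp
  · apply le_of_eq
    rw [hG]
    unfold rho
    rw [Finset.prod_div_distrib, Finset.prod_div_distrib, Finset.prod_const, Finset.prod_const,
      Finset.card_univ, Finset.card_univ, Fintype.card_fin, card_Idx]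
    field_simp

theorem Z_step {lv : ℕ → ℕ} {Sg D0 Dl : ℕ} {s : St N r} (h : Ok lv Sg D0 Dl s) (b : ℕ → ℕ) (q : ℕ)
    (hN : 1 ≤ N) {k : ℕ} (hb : 0 < b k) {Λ : ℝ}
    (hH : ∑ om ∈ Om lv b q s k, rho lv b q s k om * wt s (QQ lv b s k om) ≤ Λ) :
    Z lv b q s (k + 1) ≤
      Λ * (((q : ℝ) * D0 + 1) ^ q * Real.exp ((r : ℝ) + 1)) ^ mm b (k + 1) *
        Z lv b q s k ^ b k := by
  have hX0 : 0 < Real.exp ((r : ℝ) + 1) := Real.exp_pos _
  have hmaps : ∀ W ∈ Fintype.piFinset (fun _ : Idx b (k + 1) => Sub lv q s (k + 1)),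
      (fun i => red lv s k (W i)) ∈ Om lv b q s k := by
    intro W hW
    refine Fintype.mem_piFinset.2 (fun i => ?_)
    have h1 := S1_mem_Sub.1 (Fintype.mem_piFinset.1 hW i)
    refine Finset.mem_product.2 ⟨?_, Finset.mem_univ _⟩
    exact S1_mem_Sub.2 ⟨Finset.inter_subset_right,
      (Finset.card_le_card Finset.inter_subset_left).trans h1.2⟩
  have hnn : ∀ om : Idx b (k + 1) → Leaf N r,
      0 ≤ rho lv b q s k om * wt s (QQ lv b s k om) := fun om =>
    mul_nonneg (rho_nonneg _ _ _ _ _ _) (wt_nonneg _ _)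
  have hA : 0 ≤ Real.exp ((r : ℝ) + 1) ^ mm b (k + 1) * Z lv b q s k ^ b k :=
    mul_nonneg (by positivity) (pow_nonneg (Z_nonneg _ _ _ _ _) _)
  have h1 : Z lv b q s (k + 1) ≤
      ∑ W ∈ Fintype.piFinset (fun _ : Idx b (k + 1) => Sub lv q s (k + 1)),
        Real.exp ((r : ℝ) + 1) ^ mm b (k + 1) * Z lv b q s k ^ b k *
          (rho lv b q s k (fun i => red lv s k (W i)) *
            wt s (QQ lv b s k (fun i => red lv s k (W i)))) := by
    unfold Z
    refine Finset.sum_le_sum ?_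
    intro W hW
    rw [S1_term h b q W (fun i => Fintype.mem_piFinset.1 hW i)]
    exact S1_le b q hb _ (hmaps W hW)
  refine h1.trans ?_
  rw [← Finset.mul_sum]
  have h2 : ∑ W ∈ Fintype.piFinset (fun _ : Idx b (k + 1) => Sub lv q s (k + 1)),
      (rho lv b q s k (fun i => red lv s k (W i)) *
        wt s (QQ lv b s k (fun i => red lv s k (W i)))) ≤
      (((q : ℝ) * D0 + 1) ^ q) ^ mm b (k + 1) * Λ := by
    rw [← Finset.sum_fiberwise_of_maps_to hmaps]
    have h3 : ∀ om ∈ Om lv b q s k,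
        (∑ W ∈ (Fintype.piFinset (fun _ : Idx b (k + 1) => Sub lv q s (k + 1))).filter
          (fun W => (fun i => red lv s k (W i)) = om),
          (rho lv b q s k (fun i => red lv s k (W i)) *
            wt s (QQ lv b s k (fun i => red lv s k (W i))))) ≤
        (((q : ℝ) * D0 + 1) ^ q) ^ mm b (k + 1) *
          (rho lv b q s k om * wt s (QQ lv b s k om)) := by
      intro om _
      have h4 : ∀ W ∈ (Fintype.piFinset (fun _ : Idx b (k + 1) => Sub lv q s (k + 1))).filter
          (fun W => (fun i => red lv s k (W i)) = om),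
          (rho lv b q s k (fun i => red lv s k (W i)) *
            wt s (QQ lv b s k (fun i => red lv s k (W i)))) =
          rho lv b q s k om * wt s (QQ lv b s k om) := by
        intro W hW
        rw [(Finset.mem_filter.1 hW).2]
      rw [Finset.sum_congr rfl h4, Finset.sum_const, nsmul_eq_mul]
      refine mul_le_mul_of_nonneg_right ?_ (hnn om)
      have h5 : ((Fintype.piFinset (fun _ : Idx b (k + 1) => Sub lv q s (k + 1))).filter
          (fun W => (fun i => red lv s k (W i)) = om)) ⊆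
          Fintype.piFinset (fun i : Idx b (k + 1) =>
            (Sub lv q s (k + 1)).filter (fun S => red lv s k S = om i)) := by
        intro W hW
        rw [Finset.mem_filter] at hW
        refine Fintype.mem_piFinset.2 (fun i => Finset.mem_filter.2
          ⟨Fintype.mem_piFinset.1 hW.1 i, ?_⟩)
        exact congrFun hW.2 i
      have h6 := Finset.card_le_card h5
      rw [Fintype.card_piFinset] at h6
      have h7 : (∏ i : Idx b (k + 1),
          ((Sub lv q s (k + 1)).filter (fun S => red lv s k S = om i)).card) ≤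
          ((q * D0 + 1) ^ q) ^ mm b (k + 1) := by
        refine (Finset.prod_le_prod' (fun i _ => fibre h q k (om i))).trans ?_
        rw [Finset.prod_const, Finset.card_univ, card_Idx]
      have h8 := h6.trans h7
      have h9 : (((q * D0 + 1) ^ q) ^ mm b (k + 1) : ℕ) =
          ((((q : ℝ) * D0 + 1) ^ q) ^ mm b (k + 1) : ℝ) := by push_cast; ring
      rw [← h9]
      exact_mod_cast h8
    refine (Finset.sum_le_sum h3).trans ?_
    rw [← Finset.mul_sum]
    exact mul_le_mul_of_nonneg_left hH (by positivity)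
  refine (mul_le_mul_of_nonneg_left h2 hA).trans (le_of_eq ?_)
  rw [mul_pow]
  ring

end C0st
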