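import Pool.Agent.W_c0up_h86.S1

/-!
# MP_c0ce05_co, upper bound: the recursion of the partition functions, iterated

`Z_zero`: `Idx b 0` is `Unit`, `WW = 1`, every term is at most `1` (`1 ≤ N`).
`Z_iter`: if `Z K > 0` then `Z k > 0` for all `k ≤ K` (`Z_step`: `Z (k+1) ≤ c * (Z k)^(b k)` with
`b k > 0`, and `Z k ≥ 0`). Take logarithms in `Z_step`:
`log Z (k+1) ≤ log Λ_k + mm (k+1) (q log (q D0 + 1) + (r+1)) + b k * log Z k`, divide by
`mm (k+1) = mm k * b k` (`mm_succ`), and sum (`Λ_k > 0`).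
-/

set_option autoImplicit false

namespace C0st

open scoped Classical
open C0lo C0up

variable {N r : ℕ}

theorem Z_zero (hN : 1 ≤ N) (lv b : ℕ → ℕ) (q : ℕ) (s : St N r) :
    Z lv b q s 0 ≤ ((Sub lv q s 0).card : ℝ) := by
  unfold Z
  have h1 : (((Fintype.piFinset (fun _ : Idx b 0 => Sub lv q s 0)).card : ℕ) : ℝ) =
      ((Sub lv q s 0).card : ℝ) := by
    rw [Fintype.card_piFinset, Finset.prod_const, Finset.card_univ, card_Idx]
    simp [mm]
  rw [← h1]
  have h2 : ∀ W ∈ Fintype.piFinset (fun _ : Idx b 0 => Sub lv q s 0),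
      (∏ i, ((N : ℝ)⁻¹) ^ (Ge lv s (W i)).card) * WW lv b s 0 W ≤ 1 := by
    intro W _
    have h3 : WW lv b s 0 W = 1 := rfl
    rw [h3, mul_one]
    have hN' : (1 : ℝ) ≤ N := by exact_mod_cast hN
    refine Finset.prod_le_one (fun i _ => by positivity) fun i _ => ?_
    exact pow_le_one₀ (by positivity) (inv_le_one_of_one_le₀ hN')
  refine (Finset.sum_le_sum h2).trans ?_
  rw [Finset.sum_const, nsmul_eq_mul, mul_one]

private theorem S2_pos {lv : ℕ → ℕ} {Sg D0 Dl : ℕ} {s : St N r} (h : Ok lv Sg D0 Dl s)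
    {b : ℕ → ℕ} (q : ℕ) (hN : 1 ≤ N) {k : ℕ} (hb : 0 < b k) {Λ : ℝ}
    (hH : ∑ om ∈ Om lv b q s k, rho lv b q s k om * wt s (QQ lv b s k om) ≤ Λ)
    (hZ : 0 < Z lv b q s (k + 1)) : 0 < Z lv b q s k := by
  rcases (Z_nonneg lv b q s k).lt_or_eq with h1 | h1
  · exact h1
  · exfalso
    have h2 := Z_step h b q hN hb hH
    rw [← h1, zero_pow (by omega), mul_zero] at h2
    linarith

theorem Z_iter {lv : ℕ → ℕ} {Sg D0 Dl : ℕ} {s : St N r} (h : Ok lv Sg D0 Dl s) {b : ℕ → ℕ} (q : ℕ)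
    (hN : 1 ≤ N) (hb : ∀ k, 0 < b k) {K : ℕ} {Λ : ℕ → ℝ} (hΛ : ∀ k < K, 0 < Λ k)
    (hH : ∀ k < K, ∑ om ∈ Om lv b q s k, rho lv b q s k om * wt s (QQ lv b s k om) ≤ Λ k)
    (hZ : 0 < Z lv b q s K) :
    Real.log (Z lv b q s K) / (mm b K : ℝ) ≤ Real.log ((Sub lv q s 0).card : ℝ) +
      ∑ k ∈ Finset.range K, (Real.log (Λ k) / (mm b (k + 1) : ℝ) + ((r : ℝ) + 1) +
        (q : ℝ) * Real.log ((q : ℝ) * D0 + 1)) := by
  induction K with
  | zero =>
    have h1 : (mm b 0 : ℝ) = 1 := by simp [mm]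
    rw [h1, div_one, Finset.range_zero, Finset.sum_empty, add_zero]
    exact Real.log_le_log hZ (Z_zero hN lv b q s)
  | succ K ih =>
    have hHK := hH K (by omega)
    have hZK := S2_pos h q hN (hb K) hHK hZ
    have ih' := ih (fun k hk => hΛ k (by omega)) (fun k hk => hH k (by omega)) hZK
    have hΛK := hΛ K (by omega)
    have h1 := Z_step h b q hN (hb K) hHK
    have hc1 : (0 : ℝ) < (q : ℝ) * D0 + 1 := by positivity
    have h2 := Real.log_le_log hZ h1
    rw [Real.log_mul (by positivity) (by positivity), Real.log_mul (by positivity) (by positivity),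
      Real.log_pow, Real.log_pow, Real.log_mul (by positivity) (by positivity), Real.log_pow,
      Real.log_exp] at h2
    have hm : (0 : ℝ) < (mm b K : ℝ) := by exact_mod_cast mm_pos hb K
    have hbK : (0 : ℝ) < (b K : ℝ) := by exact_mod_cast hb K
    have hms : (mm b (K + 1) : ℝ) = mm b K * b K := by rw [mm_succ]; push_cast; ring
    rw [Finset.sum_range_succ]
    have h3 : Real.log (Z lv b q s (K + 1)) / (mm b (K + 1) : ℝ) ≤
        (Real.log (Λ K) / (mm b (K + 1) : ℝ) + ((r : ℝ) + 1) +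
          (q : ℝ) * Real.log ((q : ℝ) * D0 + 1)) + Real.log (Z lv b q s K) / (mm b K : ℝ) := by
      have h4 : (0 : ℝ) < (mm b (K + 1) : ℝ) := by rw [hms]; positivity
      rw [div_le_iff₀ h4]
      have h5 : (Real.log (Λ K) / (mm b (K + 1) : ℝ) + ((r : ℝ) + 1) +
          (q : ℝ) * Real.log ((q : ℝ) * D0 + 1) + Real.log (Z lv b q s K) / (mm b K : ℝ)) *
          (mm b (K + 1) : ℝ) = Real.log (Λ K) + (mm b (K + 1) : ℝ) *
            ((q : ℝ) * Real.log ((q : ℝ) * D0 + 1) + ((r : ℝ) + 1)) +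
            b K * Real.log (Z lv b q s K) := by
        rw [hms]
        field_simp
        ring
      rw [h5]
      exact h2
    linarith

end C0st
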